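import Pool.Agent.MinGrowth.Dihedral

/-!
# Cayley graphs and solvability of lamplighter groups
-/

namespace Pool.Agent.MinGrowth

open scoped commutatorElement

namespace Wreath

universe u v

section solvable

variable {A : Type u} {B : Type v} [Group A] [CommGroup B]

/-- Elements with trivial position and lamps in `N`. -/
def lampSub (N : Subgroup A) : Subgroup (Wreath A B) where
  carrier := {g | g.pos = 1 ∧ ∀ β, g.lamp β ∈ N}
  mul_mem' := by
    rintro g h ⟨hg1, hg2⟩ ⟨hh1, hh2⟩
    exact ⟨by simp [hg1, hh1], fun β => N.mul_mem (hg2 _) (hh2 _)⟩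
  one_mem' := ⟨rfl, fun _ => N.one_mem⟩
  inv_mem' := by
    rintro g ⟨hg1, hg2⟩
    exact ⟨by simp [hg1], fun β => N.inv_mem (hg2 _)⟩

theorem commutator_lampSub (N M : Subgroup A) :
    ⁅(lampSub N : Subgroup (Wreath A B)), (lampSub M : Subgroup (Wreath A B))⁆ ≤
      lampSub ⁅N, M⁆ := by
  rw [Subgroup.commutator_le]
  rintro g ⟨hg1, hg2⟩ h ⟨hh1, hh2⟩
  refine ⟨by simp [commutatorElement_def, hg1, hh1], fun β => ?_⟩
  have h1 : (⁅g, h⁆ : Wreath A B).lamp β = ⁅g.lamp β, h.lamp β⁆ := by
    simp [commutatorElement_def, hg1, hh1]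
  rw [h1]
  exact Subgroup.commutator_mem_commutator (hg2 β) (hh2 β)

theorem derivedSeries_le (n : ℕ) :
    derivedSeries (Wreath A B) (n + 1) ≤ lampSub (derivedSeries A n) := by
  induction n with
  | zero =>
    rw [derivedSeries_succ, derivedSeries_zero, Subgroup.commutator_le]
    intro g _ h _
    refine ⟨?_, fun β => by rw [derivedSeries_zero]; trivial⟩
    simp [commutatorElement_def]
  | succ n ih =>
    rw [derivedSeries_succ _ (n + 1), derivedSeries_succ _ n]
    exact (Subgroup.commutator_mono ih ih).trans (commutator_lampSub _ _)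

theorem derivedSeries_eq_bot {n : ℕ} (h : derivedSeries A n = ⊥) :
    derivedSeries (Wreath A B) (n + 1) = ⊥ := by
  rw [eq_bot_iff]
  intro g hg
  obtain ⟨h1, h2⟩ := derivedSeries_le n hg
  rw [h] at h2
  rw [Subgroup.mem_bot]
  apply Wreath.ext
  · funext β
    exact Subgroup.mem_bot.mp (h2 β)
  · exact h1

end solvable

section cayley

variable {A : Type u} {A' : Type v} [Group A] [Group A']

open Classical in
/-- The generating set of `A ≀ ℤ` consisting of all nontrivial lamps at the origin and the
translation by one. -/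
noncomputable def lampGen (A : Type u) [Group A] [Fintype A] : Finset (Wreath A Cinf) :=
  insert (posEmb (Multiplicative.ofAdd 1))
    ((Finset.univ.filter fun a : A => a ≠ 1).image (lampEmb 1))

theorem lampGen_closure [Fintype A] :
    Subgroup.closure (lampGen A : Set (Wreath A Cinf)) = ⊤ := by
  classical
  have hT : posEmb (Multiplicative.ofAdd 1) ∈
      Subgroup.closure (lampGen A : Set (Wreath A Cinf)) :=
    Subgroup.subset_closure (by simp [lampGen])
  apply eq_top_of_mem
  · intro b
    have h1 : (posEmb b : Wreath A Cinf) =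
        posEmb (Multiplicative.ofAdd 1) ^ (Multiplicative.toAdd b) := by
      rw [← map_zpow]
      congr 1
      apply Multiplicative.toAdd.injective
      simp
    rw [h1]
    exact Subgroup.zpow_mem _ hT _
  · intro a
    by_cases ha : a = 1
    · rw [ha, map_one]; exact Subgroup.one_mem _
    · exact Subgroup.subset_closure (by simp [lampGen]; right; exact ⟨a, ha, rfl⟩)

/-- Adjacency in the Cayley graph with respect to `S`. -/
def Adj {G : Type*} [Group G] (S : Finset G) (x y : G) : Prop := x⁻¹ * y ∈ S ∨ y⁻¹ * x ∈ S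

/-- The two kinds of edges. -/
def Edge (x y : Wreath A Cinf) : Prop :=
  (x.pos = y.pos ∧ (∀ β, β ≠ x.pos → x.lamp β = y.lamp β) ∧ x.lamp x.pos ≠ y.lamp x.pos) ∨
  (x.lamp = y.lamp ∧ (y.pos = x.pos * Multiplicative.ofAdd 1 ∨
    x.pos = y.pos * Multiplicative.ofAdd 1))

theorem mem_lampGen [Fintype A] (x y : Wreath A Cinf) :
    x⁻¹ * y ∈ lampGen A ↔
      (x.pos = y.pos ∧ (∀ β, β ≠ x.pos → x.lamp β = y.lamp β) ∧
        x.lamp x.pos ≠ y.lamp x.pos) ∨
      (x.lamp = y.lamp ∧ y.pos = x.pos * Multiplicative.ofAdd 1) := by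
  classical
  unfold lampGen
  rw [Finset.mem_insert, Finset.mem_image, or_comm]
  apply or_congr
  · constructor
    · rintro ⟨a, ha, h⟩
      rw [Finset.mem_filter] at ha
      have hy : y = x * lampEmb 1 a := by rw [h]; group
      subst hy
      refine ⟨by simp, fun β hβ => ?_, ?_⟩
      · rw [mul_lamp, lampEmb_lamp_ne, mul_one]
        intro h2
        rw [inv_mul_eq_one] at h2
        exact hβ h2.symm
      · rw [mul_lamp, inv_mul_cancel, lampEmb_lamp_same]
        intro h2
        exact ha.2 (by simpa using h2)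
    · rintro ⟨h1, h2, h3⟩
      refine ⟨(x.lamp x.pos)⁻¹ * y.lamp x.pos, ?_, ?_⟩
      · rw [Finset.mem_filter]
        refine ⟨Finset.mem_univ _, fun h => h3 ?_⟩
        rw [inv_mul_eq_one] at h
        exact h
      · apply Wreath.ext
        · funext β
          simp only [mul_lamp, inv_lamp, inv_pos, inv_inv]
          by_cases hβ : β = 1
          · subst hβ
            rw [lampEmb_lamp_same, mul_one]
          · rw [lampEmb_lamp_ne hβ, h2 (x.pos * β), inv_mul_cancel]
            intro h4
            exact hβ (by simpa using h4)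
        · simp [h1]
  · constructor
    · intro h
      have hy : y = x * posEmb (Multiplicative.ofAdd 1) := by rw [← h]; group
      subst hy
      exact ⟨by funext β; simp, by simp⟩
    · rintro ⟨h1, h2⟩
      apply Wreath.ext
      · funext β
        simp only [mul_lamp, inv_lamp, inv_pos, inv_inv, posEmb_lamp]
        rw [h1, inv_mul_cancel]
      · simp [h2]

theorem adj_iff [Fintype A] (x y : Wreath A Cinf) : Adj (lampGen A) x y ↔ Edge x y := by
  unfold Adj Edge
  rw [mem_lampGen, mem_lampGen]
  constructor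
  · rintro ((h | ⟨h1, h2⟩) | (⟨h1, h2, h3⟩ | ⟨h1, h2⟩))
    · exact Or.inl h
    · exact Or.inr ⟨h1, Or.inl h2⟩
    · left
      refine ⟨h1.symm, fun β hβ => (h2 β (by rw [h1]; exact hβ)).symm, ?_⟩
      rw [← h1]; exact h3.symm
    · exact Or.inr ⟨h1.symm, Or.inr h2⟩
  · rintro (h | ⟨h1, h2 | h2⟩)
    · exact Or.inl (Or.inl h)
    · exact Or.inl (Or.inr ⟨h1, h2⟩)
    · exact Or.inr (Or.inr ⟨h1.symm, h2⟩)

/-- A bijection of the lamp groups preserving the identity induces a bijection of the wreath
products. -/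
def lampEquiv (e : A ≃ A') (he : e 1 = 1) : Wreath A Cinf ≃ Wreath A' Cinf where
  toFun g := ⟨fun β => e (g.lamp β), g.pos, by
    refine g.finite.subset ?_
    intro β hβ
    rw [Function.mem_mulSupport] at hβ ⊢
    intro h
    exact hβ (by rw [h, he])⟩
  invFun g := ⟨fun β => e.symm (g.lamp β), g.pos, by
    refine g.finite.subset ?_
    intro β hβ
    rw [Function.mem_mulSupport] at hβ ⊢
    intro h
    exact hβ (by rw [h, ← he, Equiv.symm_apply_apply])⟩
  left_inv g := by
    apply Wreath.ext
    · funext β; simp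
    · rfl
  right_inv g := by
    apply Wreath.ext
    · funext β; simp
    · rfl

theorem adj_lampEquiv [Fintype A] [Fintype A'] (e : A ≃ A') (he : e 1 = 1)
    (x y : Wreath A Cinf) :
    Adj (lampGen A) x y ↔ Adj (lampGen A') (lampEquiv e he x) (lampEquiv e he y) := by
  rw [adj_iff, adj_iff]
  unfold Edge lampEquiv
  simp only [Equiv.coe_fn_mk, e.injective.eq_iff, ne_eq]
  constructor
  · rintro (h | ⟨h1, h2⟩)
    · exact Or.inl h
    · exact Or.inr ⟨by funext β; rw [h1], h2⟩
  · rintro (h | ⟨h1, h2⟩)
    · exact Or.inl h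
    · refine Or.inr ⟨?_, h2⟩
      funext β
      exact e.injective (congrFun h1 β)

end cayley

end Wreath

theorem dihedral_derived : derivedSeries (DihedralGroup 4) 2 = ⊥ := by
  have h1 : derivedSeries (DihedralGroup 4) 1 ≤ Subgroup.center (DihedralGroup 4) := by
    rw [derivedSeries_succ, derivedSeries_zero, Subgroup.commutator_le]
    intro g _ h _
    rw [Subgroup.mem_center_iff]
    have h0 : ∀ g h k : DihedralGroup 4, k * ⁅g, h⁆ = ⁅g, h⁆ * k := by decide
    exact h0 g h
  rw [derivedSeries_succ, eq_bot_iff, Subgroup.commutator_le]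
  intro g hg h hh
  have h2 := Subgroup.mem_center_iff.mp (h1 hg) h
  rw [Subgroup.mem_bot, commutatorElement_eq_one_iff_mul_comm]
  exact h2.symm

theorem dihedral_wreath_derived :
    derivedSeries (Wreath (DihedralGroup 4) Cinf) 3 = ⊥ :=
  Wreath.derivedSeries_eq_bot dihedral_derived

theorem exists_lamp_bijection : ∃ e : (Fin 3 → Z2) ≃ DihedralGroup 4, e 1 = 1 := by
  have hcard : Fintype.card (Fin 3 → Z2) = Fintype.card (DihedralGroup 4) := by decide
  let e0 : (Fin 3 → Z2) ≃ DihedralGroup 4 := Fintype.equivOfCardEq hcard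
  refine ⟨e0.trans (Equiv.swap (e0 1) 1), by simp⟩

end Pool.Agent.MinGrowth
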