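import Pool.Agent.MinGrowth.Cayley

/-!
# Attaining the minimal growth rate is not a property of Cayley graphs

The solvable groups `(ℤ/2)³ ≀ ℤ` and `D₄ ≀ ℤ` (`D₄` the dihedral group of order eight) have
isomorphic Cayley graphs with respect to suitable finite generating sets, but only the first attains
its minimal growth rate.
-/

namespace Pool.Agent.MinGrowth.CayleyGraphNotEnough

open Pool.Agent.MinGrowth

theorem cayley_graph_not_enough :
    AttainsMinGrowth (Wreath (Fin 3 → Multiplicative (ZMod 2)) (Multiplicative ℤ)) ∧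
    ¬ AttainsMinGrowth (Wreath (DihedralGroup 4) (Multiplicative ℤ)) ∧
    derivedSeries (Wreath (DihedralGroup 4) (Multiplicative ℤ)) 3 = ⊥ ∧
    ∃ (S : Finset (Wreath (Fin 3 → Multiplicative (ZMod 2)) (Multiplicative ℤ)))
      (S' : Finset (Wreath (DihedralGroup 4) (Multiplicative ℤ)))
      (e : Wreath (Fin 3 → Multiplicative (ZMod 2)) (Multiplicative ℤ) ≃
        Wreath (DihedralGroup 4) (Multiplicative ℤ)),
      Subgroup.closure (S : Set (Wreath (Fin 3 → Multiplicative (ZMod 2)) (Multiplicative ℤ))) = ⊤ ∧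
      Subgroup.closure (S' : Set (Wreath (DihedralGroup 4) (Multiplicative ℤ))) = ⊤ ∧
      ∀ x y, (x⁻¹ * y ∈ S ∨ y⁻¹ * x ∈ S) ↔ ((e x)⁻¹ * e y ∈ S' ∨ (e y)⁻¹ * e x ∈ S') := by
  obtain ⟨e, he⟩ := exists_lamp_bijection
  exact ⟨Lp.attains (p := 2) (ι := Fin 3) (by norm_num), dihedral_not_attains,
    dihedral_wreath_derived, Wreath.lampGen _, Wreath.lampGen _, Wreath.lampEquiv e he,
    Wreath.lampGen_closure, Wreath.lampGen_closure, Wreath.adj_lampEquiv e he⟩

end Pool.Agent.MinGrowth.CayleyGraphNotEnough
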