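import Pool.Agent.MinGrowth.Free

/-!
# The affine representation of `(ℤ/p)^ι ≀ ℤ` over Laurent series
-/

namespace Pool.Agent.MinGrowth

open Filter Topology

/-- The cyclic group of order `p`. -/
abbrev Cp (p : ℕ) : Type := Multiplicative (ZMod p)

/-- The infinite cyclic group. -/
abbrev Cinf : Type := Multiplicative ℤ

/-- The wreath product `(ℤ/p)^ι ≀ ℤ`. -/
abbrev Lp (p : ℕ) (ι : Type) : Type := Wreath (ι → Cp p) Cinf

namespace Lp

open Wreath

variable {p : ℕ} [hp : Fact p.Prime] {ι : Type}

/-- The translation part. -/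
def sh (g : Lp p ι) : ℤ := Multiplicative.toAdd g.pos

omit hp in
@[simp] theorem sh_mul (g h : Lp p ι) : sh (g * h) = sh g + sh h := rfl
omit hp in
@[simp] theorem sh_inv (g : Lp p ι) : sh g⁻¹ = - sh g := rfl
omit hp in
@[simp] theorem sh_one : sh (1 : Lp p ι) = 0 := rfl

variable (p) in
/-- The monomial `T ^ k`. -/
noncomputable def T (k : ℤ) : LaurentSeries (ZMod p) := HahnSeries.single k 1

theorem T_coeff_mul (k : ℤ) (f : LaurentSeries (ZMod p)) (n : ℤ) :
    (T p k * f).coeff n = f.coeff (n - k) := by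
  unfold T
  rw [HahnSeries.coeff_single_mul, one_mul]

theorem T_zero : (T p 0 : LaurentSeries (ZMod p)) = 1 := rfl

theorem T_add (j k : ℤ) : (T p (j + k) : LaurentSeries (ZMod p)) = T p j * T p k := by
  unfold T
  rw [HahnSeries.single_mul_single, one_mul]

theorem T_ne_zero (k : ℤ) : (T p k : LaurentSeries (ZMod p)) ≠ 0 := by
  unfold T
  rw [Ne, HahnSeries.single_eq_zero_iff]
  exact one_ne_zero

theorem T_ne_one {k : ℤ} (hk : k ≠ 0) : (T p k : LaurentSeries (ZMod p)) ≠ 1 := by
  intro h
  have h1 := congrArg (fun f => HahnSeries.coeff f 0) h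
  simp only [T] at h1
  rw [HahnSeries.coeff_single_of_ne (Ne.symm hk), HahnSeries.coeff_one, if_pos rfl] at h1
  exact zero_ne_one h1

/-- The lamp configuration as a vector of Laurent series. -/
noncomputable def F (g : Lp p ι) (i : ι) : LaurentSeries (ZMod p) where
  coeff n := Multiplicative.toAdd (g.lamp (Multiplicative.ofAdd n) i)
  isPWO_support' := by
    apply Set.Finite.isPWO
    refine (g.finite.image Multiplicative.toAdd).subset ?_
    intro n hn
    refine ⟨Multiplicative.ofAdd n, ?_, rfl⟩
    rw [Function.mem_mulSupport]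
    intro h
    apply hn
    simp [h]

theorem F_coeff (g : Lp p ι) (i : ι) (n : ℤ) :
    (F g i).coeff n = Multiplicative.toAdd (g.lamp (Multiplicative.ofAdd n) i) := rfl

theorem F_mul (g h : Lp p ι) : F (g * h) = F g + T p (sh g) • F h := by
  funext i
  apply HahnSeries.ext
  funext n
  rw [Pi.add_apply, Pi.smul_apply, smul_eq_mul, HahnSeries.coeff_add, T_coeff_mul, F_coeff,
    F_coeff, F_coeff, mul_lamp, Pi.mul_apply, toAdd_mul]
  have h1 : g.pos⁻¹ * Multiplicative.ofAdd n = Multiplicative.ofAdd (n - sh g) := by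
    apply Multiplicative.toAdd.injective
    change - sh g + n = n - sh g
    ring
  rw [h1]

theorem F_one : F (1 : Lp p ι) = 0 := by
  funext i
  apply HahnSeries.ext
  funext n
  simp [F_coeff]

/-- The cocycle based at `q`. -/
noncomputable def coc (q : ι → LaurentSeries (ZMod p)) (g : Lp p ι) :
    ι → LaurentSeries (ZMod p) :=
  F g - (1 - T p (sh g)) • q

theorem coc_mul (q : ι → LaurentSeries (ZMod p)) (g h : Lp p ι) :
    coc q (g * h) = coc q g + T p (sh g) • coc q h := by
  unfold coc
  rw [F_mul, sh_mul, T_add]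
  funext i
  simp only [Pi.add_apply, Pi.sub_apply, Pi.smul_apply, smul_eq_mul]
  ring

theorem coc_one (q : ι → LaurentSeries (ZMod p)) : coc q (1 : Lp p ι) = 0 := by
  unfold coc
  rw [F_one, sh_one, T_zero]
  simp

theorem coc_inv (q : ι → LaurentSeries (ZMod p)) (g : Lp p ι) :
    coc q g⁻¹ = - (T p (- sh g) • coc q g) := by
  have h := coc_mul q g⁻¹ g
  rw [inv_mul_cancel, coc_one, sh_inv] at h
  exact (neg_eq_of_add_eq_zero_left h.symm).symm

/-- The base point fixed by an element with nonzero translation. -/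
theorem exists_base (s : Lp p ι) (hs : sh s ≠ 0) :
    ∃ q : ι → LaurentSeries (ZMod p), coc q s = 0 := by
  have h1 : (1 - T p (sh s) : LaurentSeries (ZMod p)) ≠ 0 :=
    sub_ne_zero.mpr (T_ne_one hs).symm
  refine ⟨(1 - T p (sh s))⁻¹ • F s, ?_⟩
  unfold coc
  rw [smul_smul, mul_inv_cancel₀ h1, one_smul, sub_self]

variable [Fintype ι] [DecidableEq ι]

/-- The cocycle values of a generating set span everything. -/
theorem span_coc (q : ι → LaurentSeries (ZMod p)) {S : Set (Lp p ι)}
    (hS : Subgroup.closure S = ⊤) {Tn : Set (Lp p ι)}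
    (hT : ∀ s ∈ S, s ∈ Tn ∨ s⁻¹ ∈ Tn) :
    Submodule.span (LaurentSeries (ZMod p)) (Set.range fun s : Tn => coc q s.1) = ⊤ := by
  set W := Submodule.span (LaurentSeries (ZMod p)) (Set.range fun s : Tn => coc q s.1) with hW
  have h0 : ∀ s ∈ Tn, coc q s ∈ W := fun s hs => Submodule.subset_span ⟨⟨s, hs⟩, rfl⟩
  have h1 : ∀ s ∈ S, coc q s ∈ W := by
    intro s hs
    rcases hT s hs with h | h
    · exact h0 s h
    · have h2 : coc q s = - (T p (- sh s⁻¹) • coc q s⁻¹) := by
        rw [← coc_inv, inv_inv]
      rw [h2]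
      exact W.neg_mem (W.smul_mem _ (h0 _ h))
  have h2 : ∀ g : Lp p ι, coc q g ∈ W := by
    intro g
    have hg : g ∈ Subgroup.closure S := by rw [hS]; trivial
    induction hg using Subgroup.closure_induction with
    | mem g hg => exact h1 g hg
    | one => rw [coc_one]; exact W.zero_mem
    | mul a b _ _ iha ihb => rw [coc_mul]; exact W.add_mem iha (W.smul_mem _ ihb)
    | inv a _ iha => rw [coc_inv]; exact W.neg_mem (W.smul_mem _ iha)
  rw [eq_top_iff]
  intro v _
  have h3 : ∀ i : ι, (Pi.single i 1 : ι → LaurentSeries (ZMod p)) ∈ W := by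
    intro i
    have h4 := h2 (lampEmb 1 (Pi.mulSingle i (Multiplicative.ofAdd 1)))
    have h5 : coc q (lampEmb (1 : Cinf) (Pi.mulSingle i (Multiplicative.ofAdd 1)) : Lp p ι) =
        Pi.single i 1 := by
      unfold coc
      have h6 : sh (lampEmb (1 : Cinf) (Pi.mulSingle i (Multiplicative.ofAdd 1)) : Lp p ι) = 0 :=
        rfl
      rw [h6, T_zero, sub_self, zero_smul, sub_zero]
      funext i'
      apply HahnSeries.ext
      funext n
      rw [F_coeff]
      by_cases hn : n = 0
      · subst hn
        rw [ofAdd_zero, lampEmb_lamp_same]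
        by_cases hi : i' = i
        · subst hi
          rw [Pi.mulSingle_eq_same, Pi.single_eq_same, HahnSeries.coeff_one, if_pos rfl]
          rfl
        · rw [Pi.mulSingle_eq_of_ne hi, Pi.single_eq_of_ne hi]
          rfl
      · rw [lampEmb_lamp_ne]
        · by_cases hi : i' = i
          · subst hi
            rw [Pi.single_eq_same, HahnSeries.coeff_one, if_neg hn]
            rfl
          · rw [Pi.single_eq_of_ne hi]
            rfl
        · intro h
          exact hn (by simpa using congrArg Multiplicative.toAdd h)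
    rwa [h5] at h4
  have h4 : v = ∑ i, v i • (Pi.single i 1 : ι → LaurentSeries (ZMod p)) := by
    funext j
    simp [Finset.sum_apply, Pi.single_apply]
  rw [h4]
  exact W.sum_mem fun i _ => W.smul_mem _ (h3 i)

end Lp

end Pool.Agent.MinGrowth
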