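import Mathlib

/-!
# Exponential growth rates of finitely generated groups
-/

namespace Pool.Agent.MinGrowth

open Filter Topology

universe u v

/-- The ball of radius `k`: all elements that are products of at most `k` elements of
`S ∪ S⁻¹`. -/
def wordBall {G : Type u} [Group G] (S : Set G) (k : ℕ) : Set G :=
  {g | ∃ l : List G, l.length ≤ k ∧ (∀ s ∈ l, s ∈ S ∨ s⁻¹ ∈ S) ∧ l.prod = g}

/-- `growthFn S k` is the number of elements of word length at most `k`. -/
noncomputable def growthFn {G : Type u} [Group G] (S : Finset G) (k : ℕ) : ℕ :=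
  (wordBall (S : Set G) k).ncard

/-- The exponential growth rate `lim_k (growthFn S k)^(1/k)`. -/
noncomputable def growthRate {G : Type u} [Group G] (S : Finset G) : ℝ :=
  limUnder atTop (fun k : ℕ => (growthFn S k : ℝ) ^ (1 / (k : ℝ)))

/-- The minimal growth rate: the infimum of the growth rates over all finite generating sets. -/
noncomputable def minGrowthRate (G : Type u) [Group G] : ℝ :=
  sInf {r : ℝ | ∃ S : Finset G, Subgroup.closure (S : Set G) = ⊤ ∧ r = growthRate S}

/-- The group attains its minimal growth rate. -/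
def AttainsMinGrowth (G : Type u) [Group G] : Prop :=
  ∃ S : Finset G, Subgroup.closure (S : Set G) = ⊤ ∧ growthRate S = minGrowthRate G

section
variable {G : Type u} [Group G]

theorem wordBall_zero (S : Set G) : wordBall S 0 = {1} := by
  ext g
  constructor
  · rintro ⟨l, hl, -, rfl⟩
    have : l = [] := List.length_eq_zero_iff.mp (Nat.le_zero.mp hl)
    simp [this]
  · intro h
    exact ⟨[], by simp, by simp, by simpa using h.symm⟩

theorem wordBall_mono (S : Set G) {a b : ℕ} (h : a ≤ b) : wordBall S a ⊆ wordBall S b := by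
  rintro g ⟨l, hl, hS, rfl⟩
  exact ⟨l, hl.trans h, hS, rfl⟩

theorem wordBall_add (S : Set G) (a b : ℕ) :
    wordBall S (a + b) ⊆ (fun p : G × G => p.1 * p.2) '' (wordBall S a ×ˢ wordBall S b) := by
  rintro g ⟨l, hl, hS, rfl⟩
  refine ⟨((l.take a).prod, (l.drop a).prod), ⟨?_, ?_⟩, ?_⟩
  · exact ⟨l.take a, by simp, fun s hs => hS s (List.mem_of_mem_take hs), rfl⟩
  · refine ⟨l.drop a, ?_, fun s hs => hS s (List.mem_of_mem_drop hs), rfl⟩
    rw [List.length_drop]; omega
  · simp only
    rw [← List.prod_append, List.take_append_drop]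

theorem wordBall_succ_subset (S : Set G) (a : ℕ) :
    wordBall S (a + 1) ⊆ (fun p : G × G => p.1 * p.2) '' (wordBall S a ×ˢ (S ∪ S⁻¹ ∪ {1})) := by
  rintro g ⟨l, hl, hS, rfl⟩
  rcases List.eq_nil_or_concat l with rfl | ⟨l', s, rfl⟩
  · refine ⟨(1, 1), ⟨⟨[], by simp, by simp, rfl⟩, by simp⟩, by simp⟩
  · refine ⟨(l'.prod, s), ⟨⟨l', ?_, ?_, rfl⟩, ?_⟩, by simp⟩
    · simp at hl; omega
    · intro x hx; exact hS x (by simp [hx])
    · rcases hS s (by simp) with h | h
      · left; left; exact h
      · left; right; simpa using h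

theorem wordBall_finite {S : Set G} (hS : S.Finite) (k : ℕ) : (wordBall S k).Finite := by
  induction k with
  | zero => rw [wordBall_zero]; exact Set.finite_singleton 1
  | succ k ih =>
    refine Set.Finite.subset ?_ (wordBall_succ_subset S k)
    apply Set.Finite.image
    apply Set.Finite.prod ih
    exact ((hS.union hS.inv).union (Set.finite_singleton 1))

theorem one_mem_wordBall (S : Set G) (k : ℕ) : (1 : G) ∈ wordBall S k :=
  ⟨[], by simp, by simp, rfl⟩

theorem growthFn_pos (S : Finset G) (k : ℕ) : 0 < growthFn S k := by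
  unfold growthFn
  rw [Set.ncard_pos (wordBall_finite S.finite_toSet k)]
  exact ⟨1, one_mem_wordBall _ _⟩

theorem growthFn_add_le (S : Finset G) (a b : ℕ) :
    growthFn S (a + b) ≤ growthFn S a * growthFn S b := by
  unfold growthFn
  have hfin : (wordBall (S : Set G) a ×ˢ wordBall (S : Set G) b).Finite :=
    (wordBall_finite S.finite_toSet a).prod (wordBall_finite S.finite_toSet b)
  calc (wordBall (S : Set G) (a + b)).ncard
      ≤ ((fun p : G × G => p.1 * p.2) '' (wordBall (S : Set G) a ×ˢ wordBall (S : Set G) b)).ncard :=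
        Set.ncard_le_ncard (wordBall_add _ a b) (hfin.image _)
    _ ≤ (wordBall (S : Set G) a ×ˢ wordBall (S : Set G) b).ncard := Set.ncard_image_le hfin
    _ = _ := Set.ncard_prod

theorem subadditive_log (S : Finset G) :
    Subadditive (fun k => Real.log (growthFn S k)) := by
  intro a b
  have ha : (0 : ℝ) < growthFn S a := by exact_mod_cast growthFn_pos S a
  have hb : (0 : ℝ) < growthFn S b := by exact_mod_cast growthFn_pos S b
  have hab : (0 : ℝ) < growthFn S (a + b) := by exact_mod_cast growthFn_pos S (a + b)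
  rw [← Real.log_mul ha.ne' hb.ne']
  apply Real.log_le_log hab
  exact_mod_cast growthFn_add_le S a b

theorem log_nonneg (S : Finset G) (k : ℕ) : 0 ≤ Real.log (growthFn S k) := by
  apply Real.log_nonneg
  exact_mod_cast growthFn_pos S k

theorem bddBelow_log (S : Finset G) :
    BddBelow (Set.range fun n : ℕ => Real.log (growthFn S n) / n) := by
  refine ⟨0, ?_⟩
  rintro _ ⟨n, rfl⟩
  exact div_nonneg (log_nonneg S n) (Nat.cast_nonneg n)

theorem tendsto_growth (S : Finset G) :
    Tendsto (fun k : ℕ => (growthFn S k : ℝ) ^ (1 / (k : ℝ))) atTop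
      (𝓝 (Real.exp (subadditive_log S).lim)) := by
  have h := (subadditive_log S).tendsto_lim (bddBelow_log S)
  have h2 := (Real.continuous_exp.tendsto _).comp h
  refine h2.congr ?_
  intro k
  have hk : (0 : ℝ) < growthFn S k := by exact_mod_cast growthFn_pos S k
  simp only [Function.comp]
  rw [Real.rpow_def_of_pos hk]
  congr 1
  ring

theorem growthRate_eq (S : Finset G) :
    growthRate S = Real.exp (subadditive_log S).lim :=
  (tendsto_growth S).limUnder_eq

theorem tendsto_growthRate (S : Finset G) :
    Tendsto (fun k : ℕ => (growthFn S k : ℝ) ^ (1 / (k : ℝ))) atTop (𝓝 (growthRate S)) := by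
  rw [growthRate_eq]; exact tendsto_growth S

theorem growthRate_pos (S : Finset G) : 0 < growthRate S := by
  rw [growthRate_eq]; exact Real.exp_pos _

theorem lim_nonneg (S : Finset G) : 0 ≤ (subadditive_log S).lim := by
  have h := (subadditive_log S).tendsto_lim (bddBelow_log S)
  exact ge_of_tendsto' h (fun n => div_nonneg (log_nonneg S n) (Nat.cast_nonneg n))

theorem one_le_growthRate (S : Finset G) : 1 ≤ growthRate S := by
  rw [growthRate_eq]; exact Real.one_le_exp (lim_nonneg S)

theorem growthRate_pow_le (S : Finset G) (n : ℕ) : growthRate S ^ n ≤ growthFn S n := by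
  rcases Nat.eq_zero_or_pos n with rfl | hn
  · simp only [pow_zero]
    exact_mod_cast growthFn_pos S 0
  · have h := (subadditive_log S).lim_le_div (bddBelow_log S) hn.ne'
    have hk : (0 : ℝ) < growthFn S n := by exact_mod_cast growthFn_pos S n
    rw [growthRate_eq, ← Real.exp_nat_mul]
    rw [le_div_iff₀ (by exact_mod_cast hn)] at h
    calc Real.exp (n * (subadditive_log S).lim) ≤ Real.exp (Real.log (growthFn S n)) := by
          apply Real.exp_le_exp.mpr; linarith
      _ = growthFn S n := Real.exp_log hk

theorem growthFn_eventually_le (S : Finset G) {r : ℝ} (hr : growthRate S < r) :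
    ∀ᶠ n : ℕ in atTop, (growthFn S n : ℝ) ≤ r ^ n := by
  have h := tendsto_growthRate S
  have h1 : ∀ᶠ n : ℕ in atTop, (growthFn S n : ℝ) ^ (1 / (n : ℝ)) < r :=
    h.eventually (gt_mem_nhds hr)
  filter_upwards [h1, eventually_gt_atTop 0] with n hn hn0
  have hk : (0 : ℝ) ≤ growthFn S n := Nat.cast_nonneg _
  have hn' : (n : ℝ) ≠ 0 := by exact_mod_cast hn0.ne'
  calc (growthFn S n : ℝ) = ((growthFn S n : ℝ) ^ (1 / (n : ℝ))) ^ n := by
        rw [← Real.rpow_natCast, ← Real.rpow_mul hk]
        rw [one_div, inv_mul_cancel₀ hn', Real.rpow_one]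
    _ ≤ r ^ n := pow_le_pow_left₀ (Real.rpow_nonneg hk _) hn.le n

/-- Images of balls. -/
theorem wordBall_image {H : Type v} [Group H] (f : G →* H) (S : Set G) (k : ℕ) :
    wordBall (f '' S) k = f '' wordBall S k := by
  ext h
  constructor
  · rintro ⟨l, hl, hS, rfl⟩
    have : ∃ l' : List G, l'.length = l.length ∧ (∀ s ∈ l', s ∈ S ∨ s⁻¹ ∈ S) ∧
        l'.map f = l := by
      clear hl
      induction l with
      | nil => exact ⟨[], rfl, by simp, rfl⟩
      | cons a l ih =>
        obtain ⟨l', h1, h2, h3⟩ := ih (fun s hs => hS s (List.mem_cons_of_mem _ hs))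
        rcases hS a (by simp) with ⟨b, hb, hba⟩ | ⟨b, hb, hba⟩
        · refine ⟨b :: l', by simp [h1], ?_, by simp [h3, hba]⟩
          intro s hs
          rcases List.mem_cons.mp hs with rfl | hs
          · exact Or.inl hb
          · exact h2 s hs
        · refine ⟨b⁻¹ :: l', by simp [h1], ?_, ?_⟩
          · intro s hs
            rcases List.mem_cons.mp hs with rfl | hs
            · right; simpa using hb
            · exact h2 s hs
          · simp [h3, hba]
    obtain ⟨l', h1, h2, h3⟩ := this
    refine ⟨l'.prod, ⟨l', by omega, h2, rfl⟩, ?_⟩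
    rw [map_list_prod, h3]
  · rintro ⟨g, ⟨l, hl, hS, rfl⟩, rfl⟩
    refine ⟨l.map f, by simpa using hl, ?_, by rw [map_list_prod]⟩
    intro s hs
    obtain ⟨a, ha, rfl⟩ := List.mem_map.mp hs
    rcases hS a ha with h | h
    · exact Or.inl ⟨a, h, rfl⟩
    · exact Or.inr ⟨a⁻¹, h, by simp⟩

theorem growthFn_image_le {H : Type v} [Group H] [DecidableEq H] (f : G →* H) (S : Finset G)
    (k : ℕ) : growthFn (S.image f) k ≤ growthFn S k := by
  unfold growthFn
  rw [Finset.coe_image, wordBall_image]
  exact Set.ncard_image_le (wordBall_finite S.finite_toSet k)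

theorem growthRate_image_le {H : Type v} [Group H] [DecidableEq H] (f : G →* H)
    (S : Finset G) : growthRate (S.image f) ≤ growthRate S := by
  refine le_of_tendsto_of_tendsto' (tendsto_growthRate _) (tendsto_growthRate _) ?_
  intro k
  apply Real.rpow_le_rpow (Nat.cast_nonneg _)
  · exact_mod_cast growthFn_image_le f S k
  · positivity

theorem bddBelow_rates (G : Type u) [Group G] :
    BddBelow {r : ℝ | ∃ S : Finset G, Subgroup.closure (S : Set G) = ⊤ ∧ r = growthRate S} := by
  refine ⟨0, ?_⟩
  rintro r ⟨S, -, rfl⟩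
  exact (growthRate_pos S).le

/-- If a surjective endomorphism strictly decreases all growth rates then the minimal growth rate
is not attained. -/
theorem not_attains_of_endomorphism (f : G →* G) (hf : Function.Surjective f)
    (h : ∀ (S : Finset G) [DecidableEq G], Subgroup.closure (S : Set G) = ⊤ →
      growthRate (S.image f) < growthRate S) : ¬ AttainsMinGrowth G := by
  classical
  rintro ⟨S, hS, hmin⟩
  have h1 := h S hS
  have h2 : minGrowthRate G ≤ growthRate (S.image f) := by
    apply csInf_le (bddBelow_rates G)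
    refine ⟨S.image f, ?_, rfl⟩
    rw [Finset.coe_image, ← MonoidHom.map_closure, hS]
    rw [← MonoidHom.range_eq_map]
    exact MonoidHom.range_eq_top.mpr hf
  rw [hmin] at h1
  exact absurd h2 (not_le.mpr h1)

end

end Pool.Agent.MinGrowth
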