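import Pool.Agent.MinGrowth.PrimeUpper

/-!
# Lamps in the dihedral group of order eight
-/

namespace Pool.Agent.MinGrowth

open Wreath

/-- The group of order two. -/
abbrev Z2 : Type := Multiplicative (ZMod 2)

/-- The embeddings of the two factors into the dihedral group of order eight. -/
def dj (i : Fin 2) : Z2 →* DihedralGroup 4 where
  toFun c := if c = 1 then 1 else DihedralGroup.sr (i.val : ZMod 4)
  map_one' := rfl
  map_mul' := by
    revert i; decide

/-- The abelianization of the dihedral group of order eight. -/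
def dρ : DihedralGroup 4 →* (Fin 2 → Z2) where
  toFun g := match g with
    | DihedralGroup.r k => ![Multiplicative.ofAdd ((k.val : ℕ) : ZMod 2),
        Multiplicative.ofAdd ((k.val : ℕ) : ZMod 2)]
    | DihedralGroup.sr k => ![Multiplicative.ofAdd (((k.val : ℕ) : ZMod 2) + 1),
        Multiplicative.ofAdd ((k.val : ℕ) : ZMod 2)]
  map_one' := by decide
  map_mul' := by decide

theorem dρ_dj : ∀ (i : Fin 2) (c : Z2), dρ (dj i c) = Pi.mulSingle i c := by decide

theorem dρ_not_injective : ¬ Function.Injective dρ := by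
  intro h
  have h1 : dρ (DihedralGroup.r 2) = dρ 1 := by decide
  exact absurd (h h1) (by decide)

theorem dj_generate : ⨆ i, (dj i).range = ⊤ := by
  rw [eq_top_iff]
  have h0 : DihedralGroup.sr 0 ∈ ⨆ i, (dj i).range :=
    Subgroup.mem_iSup_of_mem 0 ⟨Multiplicative.ofAdd 1, by decide⟩
  have h1 : DihedralGroup.sr 1 ∈ ⨆ i, (dj i).range :=
    Subgroup.mem_iSup_of_mem 1 ⟨Multiplicative.ofAdd 1, by decide⟩
  have hr : DihedralGroup.r 1 ∈ ⨆ i, (dj i).range := by
    have := Subgroup.mul_mem _ h0 h1
    have h2 : (DihedralGroup.sr 0 * DihedralGroup.sr 1 : DihedralGroup 4) = DihedralGroup.r 1 := by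
      decide
    rwa [h2] at this
  have hrk : ∀ n : ℕ, (DihedralGroup.r 1 : DihedralGroup 4) ^ n ∈ ⨆ i, (dj i).range :=
    fun n => Subgroup.pow_mem _ hr n
  intro g _
  have hcases : ∀ g : DihedralGroup 4, ∃ n : Fin 4, g = DihedralGroup.r 1 ^ n.val ∨
      g = DihedralGroup.sr 0 * DihedralGroup.r 1 ^ n.val := by decide
  obtain ⟨n, h | h⟩ := hcases g
  · rw [h]; exact hrk _
  · rw [h]; exact Subgroup.mul_mem _ h0 (hrk _)

theorem cinf_surjective : Function.Surjective (MonoidHom.id Cinf) := fun x => ⟨x, rfl⟩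

theorem cinf_fg : Group.FG Cinf := inferInstance

/-- `D₄ ≀ ℤ` does not attain its minimal growth rate. -/
theorem dihedral_not_attains : ¬ AttainsMinGrowth (Wreath (DihedralGroup 4) Cinf) :=
  spread_not_attains (P := fun _ : Fin 2 => Z2) (MonoidHom.id Cinf) cinf_surjective cinf_fg
    (fun _ => inferInstance) dj dj_generate dρ dρ_dj dρ_not_injective

end Pool.Agent.MinGrowth
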