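import Pool.Agent.MinGrowth.Limit

/-!
# Lower bounds from free monoids
-/

namespace Pool.Agent.MinGrowth

open Filter Topology
open scoped ENNReal

universe u v w

section free

variable {G : Type u} [Group G]

/-- If elements `e c` of length at most `ℓ c` freely generate a monoid, then
`∑ x ^ ℓ c ≤ 1` for all `x < 1 / ω`. -/
theorem free_bound_general (S : Finset G) {κ : Type*} [Fintype κ] (e : κ → G) (ℓ : κ → ℕ)
    (hlen : ∀ c, e c ∈ wordBall (S : Set G) (ℓ c))
    (hfree : Function.Injective (fun l : List κ => (l.map e).prod))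
    {x : ℝ} (hx0 : 0 < x) (hxl : x * growthRate S < 1) : ∑ c, x ^ (ℓ c) ≤ 1 := by
  classical
  have hlam1 : 1 ≤ growthRate S := one_le_growthRate S
  have hxle : x ≤ 1 := by nlinarith
  have hfin := gf_Ltr_ne_top_of_lt S hx0 hxl
  set y := ENNReal.ofReal x with hy
  have hy1 : y ≤ 1 := by
    rw [hy, ← ENNReal.ofReal_one]; exact ENNReal.ofReal_le_ofReal hxle
  have hn : ∀ n : ℕ, (∑ c, y ^ (ℓ c)) ^ n ≤ gf (MonoidHom.id G) (Ltr (S : Set G)) y := by
    intro n
    have h1 : (∑ c, y ^ (ℓ c)) ^ n = ∑ f : Fin n → κ, ∏ i, y ^ (ℓ (f i)) := by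
      have h3 : (∑ c, y ^ (ℓ c)) ^ n = ∏ _i : Fin n, ∑ c, y ^ (ℓ c) := by
        rw [Finset.prod_const, Finset.card_univ, Fintype.card_fin]
      rw [h3, Finset.prod_univ_sum, Fintype.piFinset_univ]
    rw [h1]
    have hlist : ∀ l : List κ, (l.map fun c => y ^ (ℓ c)).prod ≤
        wt (MonoidHom.id G) (Ltr (S : Set G)) y ((l.map e).prod) := by
      intro l
      have h3 : ∃ w, Ltr (S : Set G) w ∧ w.prod = (l.map e).prod ∧
          (l.map fun c => y ^ (ℓ c)).prod ≤ y ^ w.length := by
        induction l with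
        | nil => exact ⟨[], fun s hs => by simp at hs, by simp, by simp⟩
        | cons c l ih =>
          obtain ⟨w, hw1, hw2, hw3⟩ := ih
          obtain ⟨lc, hlc1, hlc2, hlc3⟩ := hlen c
          refine ⟨lc ++ w, Ltr.append hlc2 hw1, ?_, ?_⟩
          · simp [hw2, hlc3]
          · simp only [List.map_cons, List.prod_cons, List.length_append, pow_add]
            exact mul_le_mul' (pow_le_pow_right_of_le_one' hy1 hlc1) hw3
      obtain ⟨w, hw1, hw2, hw3⟩ := h3
      exact hw3.trans (le_wt y hw1 hw2)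
    calc ∑ f : Fin n → κ, ∏ i, y ^ (ℓ (f i))
        ≤ ∑ f : Fin n → κ, (fun g => wt (MonoidHom.id G) (Ltr (S : Set G)) y g)
            (((List.ofFn f).map e).prod) := by
          refine Finset.sum_le_sum fun f _ => ?_
          refine le_trans (le_of_eq ?_) (hlist (List.ofFn f))
          rw [List.map_ofFn, List.prod_ofFn]
          rfl
      _ = ∑' f : Fin n → κ, (fun g => wt (MonoidHom.id G) (Ltr (S : Set G)) y g)
            (((List.ofFn f).map e).prod) := (tsum_fintype _).symm
      _ ≤ _ := ENNReal.tsum_comp_le_tsum_of_injective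
          (f := fun f : Fin n → κ => ((List.ofFn f).map e).prod)
          (fun f g hfg => List.ofFn_injective (hfree hfg)) _
  by_contra hcon
  push Not at hcon
  have h4 : (1 : ℝ≥0∞) < ∑ c, y ^ (ℓ c) := by
    have h5 : ∑ c, y ^ (ℓ c) = ENNReal.ofReal (∑ c, x ^ (ℓ c)) := by
      rw [ENNReal.ofReal_sum_of_nonneg fun c _ => by positivity]
      exact Finset.sum_congr rfl fun c _ => by rw [hy, ENNReal.ofReal_pow hx0.le]
    rw [h5, ← ENNReal.ofReal_one]
    exact (ENNReal.ofReal_lt_ofReal_iff (by linarith)).mpr hcon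
  have h5 := ENNReal.tendsto_pow_atTop_nhds_top_iff.mpr h4
  have h6 : ∞ ≤ gf (MonoidHom.id G) (Ltr (S : Set G)) y := le_of_tendsto' h5 hn
  exact hfin (top_le_iff.mp h6)

end free

end Pool.Agent.MinGrowth
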