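import Pool.Agent.MinGrowth.Limit

/-!
# Free products as lamp groups
-/

namespace Pool.Agent.MinGrowth

universe u v w z

namespace Wreath

section

variable {ι : Type w} [DecidableEq ι] (P : ι → Type z) [∀ i, Group (P i)]

/-- The homomorphism from the free product to the direct product. -/
def coprodToPi : Monoid.CoprodI P →* ∀ i, P i :=
  Monoid.CoprodI.lift (fun i => MonoidHom.mulSingle P i)

theorem coprodToPi_of (i : ι) (p : P i) :
    coprodToPi P (Monoid.CoprodI.of p) = Pi.mulSingle i p := by
  unfold coprodToPi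
  rw [Monoid.CoprodI.lift_of]
  rfl

omit [DecidableEq ι] in
theorem iSup_range_of :
    ⨆ i, (Monoid.CoprodI.of : P i →* Monoid.CoprodI P).range = ⊤ := by
  have h := Monoid.CoprodI.range_eq_iSup (G := P)
    (f := fun i => (Monoid.CoprodI.of : P i →* Monoid.CoprodI P))
  rw [← h, MonoidHom.range_eq_top]
  intro x
  exact ⟨x, by rw [Monoid.CoprodI.lift_of']; rfl⟩

theorem coprodToPi_not_injective {i i' : ι} (hne : i ≠ i') [Nontrivial (P i)]
    [Nontrivial (P i')] : ¬ Function.Injective (coprodToPi P) := by
  intro hinj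
  obtain ⟨p, hp⟩ := exists_ne (1 : P i)
  obtain ⟨q, hq⟩ := exists_ne (1 : P i')
  let f : ∀ k, P k →* Wreath (P i) (P i') :=
    Function.update (Function.update (fun k => (1 : P k →* Wreath (P i) (P i'))) i (lampEmb 1))
      i' posEmb
  have hfi : f i = lampEmb 1 := by
    simp only [f]
    rw [Function.update_of_ne hne, Function.update_self]
  have hfi' : f i' = posEmb := by
    simp only [f]
    rw [Function.update_self]
  have h1 : (Monoid.CoprodI.of q : Monoid.CoprodI P) * Monoid.CoprodI.of p *
      (Monoid.CoprodI.of q)⁻¹ = Monoid.CoprodI.of p := by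
    apply hinj
    simp only [map_mul, map_inv, coprodToPi_of]
    have h2 : Commute (Pi.mulSingle i' q : ∀ i, P i) (Pi.mulSingle i p) :=
      Pi.mulSingle_commute (Ne.symm hne) q p
    rw [h2.eq, mul_inv_cancel_right]
  have h3 := congrArg (Monoid.CoprodI.lift f) h1
  simp only [map_mul, map_inv, Monoid.CoprodI.lift_of, hfi, hfi'] at h3
  rw [posEmb_conj, mul_one] at h3
  have h4 := congrFun (congrArg Wreath.lamp h3) 1
  rw [lampEmb_lamp_same, lampEmb_lamp_ne (Ne.symm hq)] at h4
  exact hp h4.symm

end

end Wreath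

end Pool.Agent.MinGrowth
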