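import Pool.Agent.MinGrowth.PrimeUpper
import Pool.Agent.MinGrowth.FreeProd

/-!
# Invariance under isomorphism and the classification for elementary abelianizations
-/

namespace Pool.Agent.MinGrowth

open Filter Topology

universe u v w

section iso

variable {G : Type u} {H : Type v} [Group G] [Group H]

theorem closure_image_eq_top [DecidableEq H] (f : G →* H) (hf : Function.Surjective f)
    {S : Finset G} (hS : Subgroup.closure (S : Set G) = ⊤) :
    Subgroup.closure ((S.image f : Finset H) : Set H) = ⊤ := by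
  rw [Finset.coe_image, ← MonoidHom.map_closure, hS, ← MonoidHom.range_eq_map]
  exact MonoidHom.range_eq_top.mpr hf

theorem growthRate_image_equiv [DecidableEq H] (e : G ≃* H) (S : Finset G) :
    growthRate (S.image e) = growthRate S := by
  classical
  apply le_antisymm
  · exact growthRate_image_le e.toMonoidHom S
  · have h1 := growthRate_image_le e.symm.toMonoidHom (S.image e)
    have h2 : (S.image e).image e.symm.toMonoidHom = S := by
      rw [Finset.image_image]
      conv_rhs => rw [← Finset.image_id (s := S)]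
      congr 1
      funext x
      simp
    rwa [h2] at h1

theorem rates_congr (e : G ≃* H) :
    {r : ℝ | ∃ S : Finset G, Subgroup.closure (S : Set G) = ⊤ ∧ r = growthRate S} =
    {r : ℝ | ∃ S : Finset H, Subgroup.closure (S : Set H) = ⊤ ∧ r = growthRate S} := by
  classical
  ext r
  constructor
  · rintro ⟨S, hS, rfl⟩
    exact ⟨S.image e, closure_image_eq_top e.toMonoidHom e.surjective hS,
      (growthRate_image_equiv e S).symm⟩
  · rintro ⟨S, hS, rfl⟩
    exact ⟨S.image e.symm, closure_image_eq_top e.symm.toMonoidHom e.symm.surjective hS,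
      (growthRate_image_equiv e.symm S).symm⟩

theorem minGrowthRate_congr (e : G ≃* H) : minGrowthRate G = minGrowthRate H := by
  unfold minGrowthRate
  rw [rates_congr e]

theorem AttainsMinGrowth.congr (e : G ≃* H) (h : AttainsMinGrowth G) : AttainsMinGrowth H := by
  classical
  obtain ⟨S, hS, h1⟩ := h
  exact ⟨S.image e, closure_image_eq_top e.toMonoidHom e.surjective hS, by
    rw [growthRate_image_equiv, h1, minGrowthRate_congr e]⟩

end iso

/-- An isomorphism of lamp groups induces one of the wreath products. -/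
def Wreath.congr {A : Type u} {A' : Type w} {B : Type v} [Group A] [Group A'] [Group B]
    (e : A ≃* A') : Wreath A B ≃* Wreath A' B where
  toFun := Wreath.map e.toMonoidHom
  invFun := Wreath.map e.symm.toMonoidHom
  left_inv g := by
    apply Wreath.ext
    · funext β; simp [Wreath.map]
    · rfl
  right_inv g := by
    apply Wreath.ext
    · funext β; simp [Wreath.map]
    · rfl
  map_mul' := map_mul _

theorem root_iff {P : ℝ} (hP : 1 ≤ P) (r : ℕ) {w : ℝ} (hw : 0 < w) :
    w ^ (r + 1) = (w + (P - 1)) ^ r ↔ Lp.hfun P r (1 / w) = 1 := by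
  unfold Lp.hfun
  have h4 : 1 / w * (1 + (P - 1) * (1 / w)) ^ r = (w + (P - 1)) ^ r / w ^ (r + 1) := by
    have h5 : (1 + (P - 1) * (1 / w)) = (w + (P - 1)) / w := by field_simp
    rw [h5, div_pow, pow_succ]
    field_simp
  rw [h4, div_eq_one_iff_eq (by positivity)]
  exact eq_comm

theorem root_unique {P : ℝ} (hP : 1 ≤ P) (r : ℕ) {w w' : ℝ} (hw : 0 < w) (hw' : 0 < w')
    (h : w ^ (r + 1) = (w + (P - 1)) ^ r) (h' : w' ^ (r + 1) = (w' + (P - 1)) ^ r) : w = w' := by
  rw [root_iff hP r hw] at h
  rw [root_iff hP r hw'] at h'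
  rcases lt_trichotomy w w' with h1 | h1 | h1
  · have h2 := Lp.hfun_strictMono hP r (by positivity) (one_div_lt_one_div_of_lt hw h1)
    linarith
  · exact h1
  · have h2 := Lp.hfun_strictMono hP r (by positivity) (one_div_lt_one_div_of_lt hw' h1)
    linarith

section lamps

variable {p : ℕ} {ι : Type} {A : Type u} [Group A]

/-- The homomorphism from the cyclic group of order `p` sending the generator to `a`. -/
def fromCp (a : A) (ha : a ^ p = 1) : Cp p →* A :=
  (ZMod.lift p ⟨zmultiplesHom (Additive A) (Additive.ofMul a), by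
    simp only [zmultiplesHom_apply, natCast_zsmul]
    rw [← ofMul_pow, ha, ofMul_one]⟩).toMultiplicativeLeft

theorem fromCp_one (a : A) (ha : a ^ p = 1) : fromCp a ha (Multiplicative.ofAdd 1) = a := by
  have h1 : ZMod.lift p ⟨zmultiplesHom (Additive A) (Additive.ofMul a), by
    simp only [zmultiplesHom_apply, natCast_zsmul]
    rw [← ofMul_pow, ha, ofMul_one]⟩ ((1 : ℤ) : ZMod p) = Additive.ofMul a := by
    rw [ZMod.lift_coe]
    simp
  rw [Int.cast_one] at h1
  exact congrArg Additive.toMul h1

theorem closure_gen : Subgroup.closure {(Multiplicative.ofAdd 1 : Cp p)} = ⊤ := by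
  rw [eq_top_iff]
  intro x _
  obtain ⟨n, hn⟩ := ZMod.intCast_surjective (Multiplicative.toAdd x)
  rw [Subgroup.mem_closure_singleton]
  refine ⟨n, ?_⟩
  apply Multiplicative.toAdd.injective
  rw [toAdd_zpow, toAdd_ofAdd, ← hn]
  simp

theorem rho_fromCp [DecidableEq ι] {a : ι → A} (hord : ∀ i, a i ^ p = 1) {ρ : A →* (ι → Cp p)}
    (hρ : ∀ i, ρ (a i) = Pi.mulSingle i (Multiplicative.ofAdd 1)) (i : ι) (c : Cp p) :
    ρ (fromCp (a i) (hord i) c) = Pi.mulSingle i c := by
  have h1 : (ρ.comp (fromCp (a i) (hord i))) = MonoidHom.mulSingle (fun _ : ι => Cp p) i := by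
    apply MonoidHom.eq_of_eqOn_dense closure_gen
    intro x hx
    rw [Set.mem_singleton_iff] at hx
    subst hx
    rw [MonoidHom.comp_apply, fromCp_one, hρ]
    rfl
  exact DFunLike.congr_fun h1 c

theorem iSup_range_fromCp {a : ι → A} (hgen : Subgroup.closure (Set.range a) = ⊤)
    (hord : ∀ i, a i ^ p = 1) : ⨆ i, (fromCp (a i) (hord i) : Cp p →* A).range = ⊤ := by
  rw [eq_top_iff, ← hgen, Subgroup.closure_le]
  rintro _ ⟨i, rfl⟩
  exact Subgroup.mem_iSup_of_mem i ⟨Multiplicative.ofAdd 1, fromCp_one _ _⟩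

/-- In the abelian case `ρ` is injective. -/
theorem rho_injective [Fintype ι] [DecidableEq ι] {a : ι → A} (hgen : Subgroup.closure (Set.range a) = ⊤)
    (hord : ∀ i, a i ^ p = 1) {ρ : A →* (ι → Cp p)}
    (hρ : ∀ i, ρ (a i) = Pi.mulSingle i (Multiplicative.ofAdd 1))
    (hab : ∀ x y : A, x * y = y * x) : Function.Injective ρ := by
  have hcomm : Pairwise fun i j => ∀ (x y : Cp p),
      Commute ((fromCp (a i) (hord i)) x) ((fromCp (a j) (hord j)) y) :=
    fun i j _ x y => hab _ _
  let σ : (ι → Cp p) →* A := MonoidHom.noncommPiCoprod (fun i => fromCp (a i) (hord i)) hcomm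
  have h1 : σ.comp ρ = MonoidHom.id A := by
    apply MonoidHom.eq_of_eqOn_dense hgen
    rintro _ ⟨i, rfl⟩
    rw [MonoidHom.comp_apply, hρ, MonoidHom.id_apply]
    exact (MonoidHom.noncommPiCoprod_mulSingle (ϕ := fun i => fromCp (a i) (hord i))
      (hcomm := hcomm) i (Multiplicative.ofAdd 1)).trans (fromCp_one _ _)
  intro x y hxy
  have h2 := DFunLike.congr_fun h1 x
  have h3 := DFunLike.congr_fun h1 y
  rw [MonoidHom.comp_apply] at h2 h3
  rw [hxy] at h2
  exact h2.symm.trans h3

theorem abelian_of_injective {ρ : A →* (ι → Cp p)} (h : Function.Injective ρ)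
    (x y : A) : x * y = y * x := by
  apply h
  rw [map_mul, map_mul, mul_comm]

/-- The minimal growth rate of `A ≀ ℤ`. -/
theorem lamps_minGrowthRate [Fact p.Prime] [Fintype ι] [DecidableEq ι] {a : ι → A} (hgen : Subgroup.closure (Set.range a) = ⊤)
    (hord : ∀ i, a i ^ p = 1) {ρ : A →* (ι → Cp p)}
    (hρ : ∀ i, ρ (a i) = Pi.mulSingle i (Multiplicative.ofAdd 1)) :
    minGrowthRate (Wreath A Cinf) = minGrowthRate (Lp p ι) := by
  have hfin : ∀ _ : ι, Group.FG (Cp p) := fun _ =>
    haveI : Finite (Cp p) := inferInstanceAs (Finite (ZMod p))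
    inferInstance
  exact Wreath.spread_minGrowthRate_eq (P := fun _ : ι => Cp p) (MonoidHom.id Cinf)
    (fun x => ⟨x, rfl⟩) inferInstance hfin (fun i => fromCp (a i) (hord i)) (iSup_range_fromCp hgen hord) ρ
    (rho_fromCp hord hρ)

/-- For `p ≤ 3` the group `A ≀ ℤ` attains its minimal growth rate if and only if `A` is
abelian. -/
theorem lamps_attains_iff [Fact p.Prime] [Fintype ι] [DecidableEq ι] (hp3 : p ≤ 3) {a : ι → A}
    (hgen : Subgroup.closure (Set.range a) = ⊤)
    (hord : ∀ i, a i ^ p = 1) {ρ : A →* (ι → Cp p)}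
    (hρ : ∀ i, ρ (a i) = Pi.mulSingle i (Multiplicative.ofAdd 1)) :
    AttainsMinGrowth (Wreath A Cinf) ↔ ∀ x y : A, x * y = y * x := by
  have hfin : ∀ _ : ι, Group.FG (Cp p) := fun _ =>
    haveI : Finite (Cp p) := inferInstanceAs (Finite (ZMod p))
    inferInstance
  constructor
  · intro h
    by_contra hab
    refine Wreath.spread_not_attains (P := fun _ : ι => Cp p) (MonoidHom.id Cinf)
      (fun x => ⟨x, rfl⟩) inferInstance hfin (fun i => fromCp (a i) (hord i)) (iSup_range_fromCp hgen hord) ρ
      (rho_fromCp hord hρ) ?_ h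
    intro hinj
    exact hab (abelian_of_injective hinj)
  · intro hab
    have hinj := rho_injective hgen hord hρ hab
    have hsurj : Function.Surjective ρ :=
      Wreath.pi_surjective (P := fun _ : ι => Cp p) (fun i => fromCp (a i) (hord i)) ρ (rho_fromCp hord hρ)
    let e : A ≃* (ι → Cp p) := MulEquiv.ofBijective ρ ⟨hinj, hsurj⟩
    exact (Lp.attains hp3).congr (Wreath.congr e.symm)

end lamps

end Pool.Agent.MinGrowth
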