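import Pool.Agent.MinGrowth.Wreath

/-!
# Moving the lamps far apart
-/

namespace Pool.Agent.MinGrowth

open Filter Topology

universe u v w z

section pick

variable {ι : Type*} {A : Type*} [Group A]

open Classical in
/-- The value of a function at some point where it is not `1` (and `1` if there is none). -/
noncomputable def pick (f : ι → A) : A := if h : ∃ i, f i ≠ 1 then f h.choose else 1

theorem pick_eq {f : ι → A} (i : ι) (h : ∀ i', i' ≠ i → f i' = 1) : pick f = f i := by
  unfold pick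
  split_ifs with hex
  · have h1 := hex.choose_spec
    have h2 : hex.choose = i := by
      by_contra hne
      exact h1 (h _ hne)
    rw [h2]
  · push Not at hex
    exact (hex i).symm

theorem pick_one {f : ι → A} (h : ∀ i, f i = 1) : pick f = 1 := by
  unfold pick
  rw [dif_neg]
  push Not
  exact h

end pick

namespace Wreath

variable {ι : Type w} {A : Type u} {B : Type v} {P : ι → Type z} [Group A] [Group B]
  [∀ i, Group (P i)] [Fintype ι]

/-- Move the lamps of type `i` by `c i`. -/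
noncomputable def spreadMap (j : ∀ i, P i →* A) (c : ι → B) (g : Wreath (∀ i, P i) B) :
    Wreath A B :=
  ⟨fun γ => pick (fun i => j i (g.lamp (γ * (c i)⁻¹) i)), g.pos, by
    refine (Set.finite_iUnion (fun i => g.finite.image (fun β => β * c i))).subset ?_
    intro γ hγ
    rw [Function.mem_mulSupport] at hγ
    have h1 : ∃ i, j i (g.lamp (γ * (c i)⁻¹) i) ≠ 1 := by
      by_contra h
      push Not at h
      exact hγ (pick_one h)
    obtain ⟨i, hi⟩ := h1
    rw [Set.mem_iUnion]
    refine ⟨i, γ * (c i)⁻¹, ?_, by simp⟩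
    rw [Function.mem_mulSupport]
    intro h
    apply hi
    rw [h]
    simp⟩

/-- The condition that the shifts of `F` are disjoint. -/
def Spread (c : ι → B) (F : Set B) : Prop :=
  ∀ β ∈ F, ∀ β' ∈ F, ∀ i i', β * c i = β' * c i' → i = i'

omit [Fintype ι] in
theorem Spread.eq {c : ι → B} {F : Set B} (h : Spread c F) {γ : B} {i i' : ι}
    (h1 : γ * (c i)⁻¹ ∈ F) (h2 : γ * (c i')⁻¹ ∈ F) : i = i' :=
  h _ h1 _ h2 i i' (by simp)

theorem spreadMap_mul (j : ∀ i, P i →* A) {c : ι → B} {F : Set B} (hF : Spread c F)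
    {g h : Wreath (∀ i, P i) B} (hg : ∀ β, g.lamp β ≠ 1 → β ∈ F)
    (hh : ∀ β, h.lamp (g.pos⁻¹ * β) ≠ 1 → β ∈ F) :
    spreadMap j c (g * h) = spreadMap j c g * spreadMap j c h := by
  apply Wreath.ext
  · funext γ
    simp only [spreadMap, mul_lamp, Pi.mul_apply, map_mul]
    by_cases hex : ∃ i, γ * (c i)⁻¹ ∈ F
    · obtain ⟨i, hi⟩ := hex
      have h1 : ∀ i', i' ≠ i → g.lamp (γ * (c i')⁻¹) = 1 := by
        intro i' hne
        by_contra hcon
        exact hne (hF.eq (hg _ hcon) hi)
      have h2 : ∀ i', i' ≠ i → h.lamp (g.pos⁻¹ * γ * (c i')⁻¹) = 1 := by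
        intro i' hne
        by_contra hcon
        rw [mul_assoc] at hcon
        exact hne (hF.eq (hh _ hcon) hi)
      rw [pick_eq i, pick_eq i, pick_eq i, mul_assoc g.pos⁻¹]
      · intro i' hne
        rw [h2 i' hne, Pi.one_apply, map_one]
      · intro i' hne
        rw [h1 i' hne, Pi.one_apply, map_one]
      · intro i' hne
        rw [h1 i' hne, ← mul_assoc g.pos⁻¹, h2 i' hne, Pi.one_apply, map_one, one_mul]
    · push Not at hex
      have h1 : ∀ i', g.lamp (γ * (c i')⁻¹) = 1 := by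
        intro i'
        by_contra hcon
        exact hex i' (hg _ hcon)
      have h2 : ∀ i', h.lamp (g.pos⁻¹ * γ * (c i')⁻¹) = 1 := by
        intro i'
        by_contra hcon
        rw [mul_assoc] at hcon
        exact hex i' (hh _ hcon)
      rw [pick_one, pick_one, pick_one, one_mul]
      · intro i'
        rw [h2 i', Pi.one_apply, map_one]
      · intro i'
        rw [h1 i', Pi.one_apply, map_one]
      · intro i'
        rw [h1 i', ← mul_assoc g.pos⁻¹, h2 i', Pi.one_apply, map_one, one_mul]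
  · rfl

theorem spreadMap_one (j : ∀ i, P i →* A) (c : ι → B) :
    spreadMap j c (1 : Wreath (∀ i, P i) B) = 1 := by
  apply Wreath.ext
  · funext γ
    exact pick_one (fun i => by simp)
  · rfl

theorem spreadMap_word (j : ∀ i, P i →* A) {c : ι → B} {F : Set B} (hF : Spread c F)
    {T : Set (Wreath (∀ i, P i) B)} {k : ℕ}
    (hT : ∀ g ∈ wordBall T k, ∀ β, g.lamp β ≠ 1 → β ∈ F)
    {w : List (Wreath (∀ i, P i) B)} (hw : Ltr T w) (hk : w.length ≤ k) :
    spreadMap j c w.prod = (w.map (spreadMap j c)).prod := by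
  induction w using List.reverseRecOn with
  | nil => simpa using spreadMap_one j c
  | append_singleton u s ih =>
    have hu : u.prod ∈ wordBall T k := by
      refine ⟨u, ?_, hw.append_left, rfl⟩
      rw [List.length_append] at hk; omega
    have hus : (u ++ [s]).prod ∈ wordBall T k := ⟨u ++ [s], hk, hw, rfl⟩
    rw [List.map_append, List.prod_append, List.prod_append, List.map_singleton,
      List.prod_singleton, List.prod_singleton, ← ih hw.append_left (by
        rw [List.length_append] at hk; omega)]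
    apply spreadMap_mul j hF (hT _ hu)
    intro β hβ
    by_cases h1 : u.prod.lamp β = 1
    · apply hT _ hus
      rw [List.prod_append, List.prod_singleton, mul_lamp, h1, one_mul]
      exact hβ
    · exact hT _ hu β h1

theorem spreadMap_inv (j : ∀ i, P i →* A) {c : ι → B} {F : Set B} (hF : Spread c F)
    {T : Set (Wreath (∀ i, P i) B)} {k : ℕ} (hk : 2 ≤ k)
    (hT : ∀ g ∈ wordBall T k, ∀ β, g.lamp β ≠ 1 → β ∈ F)
    {s : Wreath (∀ i, P i) B} (hs : s ∈ T) :
    spreadMap j c s⁻¹ = (spreadMap j c s)⁻¹ := by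
  have h := spreadMap_word j hF hT (w := [s, s⁻¹]) (by
    intro t ht
    simp only [List.mem_cons, List.not_mem_nil, or_false] at ht
    rcases ht with rfl | rfl
    · exact Or.inl hs
    · right; simpa using hs) (by simpa using hk)
  simp only [List.map_cons, List.map_nil, List.prod_cons, List.prod_nil, mul_one,
    mul_inv_cancel, spreadMap_one] at h
  exact (inv_eq_of_mul_eq_one_right h.symm).symm

theorem wordBall_spreadMap (j : ∀ i, P i →* A) {c : ι → B} {F : Set B} (hF : Spread c F)
    {T : Set (Wreath (∀ i, P i) B)} {k : ℕ} (hk : 2 ≤ k)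
    (hT : ∀ g ∈ wordBall T k, ∀ β, g.lamp β ≠ 1 → β ∈ F) :
    wordBall (spreadMap j c '' T) k ⊆ spreadMap j c '' wordBall T k := by
  rintro _ ⟨l, hl, hS, rfl⟩
  have h1 : ∃ l' : List (Wreath (∀ i, P i) B), l'.length = l.length ∧ Ltr T l' ∧
      l'.map (spreadMap j c) = l := by
    clear hl
    induction l with
    | nil => exact ⟨[], rfl, fun s hs => by simp at hs, rfl⟩
    | cons a l ih =>
      obtain ⟨l', h1, h2, h3⟩ := ih (fun s hs => hS s (List.mem_cons_of_mem _ hs))
      rcases hS a (by simp) with ⟨b, hb, hba⟩ | ⟨b, hb, hba⟩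
      · refine ⟨b :: l', by simp [h1], ?_, by simp [h3, hba]⟩
        intro s hs
        rcases List.mem_cons.mp hs with rfl | hs
        · exact Or.inl hb
        · exact h2 s hs
      · refine ⟨b⁻¹ :: l', by simp [h1], ?_, ?_⟩
        · intro s hs
          rcases List.mem_cons.mp hs with rfl | hs
          · right; simpa using hb
          · exact h2 s hs
        · rw [List.map_cons, h3, spreadMap_inv j hF hk hT hb, hba, inv_inv]
  obtain ⟨l', h1, h2, h3⟩ := h1
  refine ⟨l'.prod, ⟨l', by omega, h2, rfl⟩, ?_⟩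
  rw [spreadMap_word j hF hT h2 (by omega), h3]

theorem spreadMap_posEmb (j : ∀ i, P i →* A) (c : ι → B) (b : B) :
    spreadMap j c (posEmb b : Wreath (∀ i, P i) B) = posEmb b := by
  apply Wreath.ext
  · funext γ
    exact pick_one (fun i => by simp)
  · rfl

theorem spreadMap_lampEmb [DecidableEq ι] (j : ∀ i, P i →* A) (c : ι → B) (i : ι) (p : P i) :
    spreadMap j c (lampEmb (1 : B) (Pi.mulSingle i p : ∀ i, P i)) = lampEmb (c i) (j i p) := by
  apply Wreath.ext
  · funext γ
    simp only [spreadMap]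
    rw [pick_eq i]
    · by_cases h : γ = c i
      · subst h
        rw [mul_inv_cancel, lampEmb_lamp_same, lampEmb_lamp_same, Pi.mulSingle_eq_same]
      · rw [lampEmb_lamp_ne h, lampEmb_lamp_ne, Pi.one_apply, map_one]
        intro h1
        exact h (mul_inv_eq_one.mp h1)
    · intro i' hne
      by_cases h : γ * (c i')⁻¹ = 1
      · rw [h, lampEmb_lamp_same, Pi.mulSingle_eq_of_ne hne, map_one]
      · rw [lampEmb_lamp_ne h, Pi.one_apply, map_one]
  · rfl

/-- Far apart shifts. -/
theorem exists_spread (θ : B →* Multiplicative ℤ) (hθ : Function.Surjective θ) {F : Set B}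
    (hF : F.Finite) : ∃ c : ι → B, Spread c F := by
  obtain ⟨b, hb⟩ := hθ (Multiplicative.ofAdd 1)
  obtain ⟨E, hE⟩ : ∃ E : ℤ, ∀ β ∈ F, |ht θ β| ≤ E := by
    obtain ⟨E, hE⟩ := (hF.image (fun β => |ht θ β|)).bddAbove
    exact ⟨E, fun β hβ => hE ⟨β, hβ, rfl⟩⟩
  let e : ι ≃ Fin (Fintype.card ι) := Fintype.equivFin ι
  refine ⟨fun i => b ^ ((2 * E + 1) * ((e i : ℕ) : ℤ)), ?_⟩
  intro β hβ β' hβ' i i' h
  have h1 : ∀ n : ℤ, ht θ (b ^ n) = n := by
    intro n
    unfold ht
    rw [map_zpow, hb]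
    simp
  have h2 := congrArg (ht θ) h
  rw [ht_mul, ht_mul, h1, h1] at h2
  have h3 := abs_le.mp (hE β hβ)
  have h4 := abs_le.mp (hE β' hβ')
  have hE0 : 0 ≤ E := (abs_nonneg _).trans (hE β hβ)
  have h5 : (2 * E + 1) * (((e i : ℕ) : ℤ) - ((e i' : ℕ) : ℤ)) = ht θ β' - ht θ β := by
    linarith
  have h6 : |(2 * E + 1) * (((e i : ℕ) : ℤ) - ((e i' : ℕ) : ℤ))| ≤ 2 * E := by
    rw [h5, abs_le]
    constructor
    · linarith [h3.2, h4.1]
    · linarith [h3.1, h4.2]
  have h7 : ((e i : ℕ) : ℤ) - ((e i' : ℕ) : ℤ) = 0 := by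
    by_contra hne
    have h8 : 1 ≤ |((e i : ℕ) : ℤ) - ((e i' : ℕ) : ℤ)| := Int.one_le_abs hne
    rw [abs_mul, abs_of_pos (by linarith : 0 < 2 * E + 1)] at h6
    nlinarith
  have h9 : (e i : ℕ) = (e i' : ℕ) := by
    have : ((e i : ℕ) : ℤ) = ((e i' : ℕ) : ℤ) := by linarith
    exact_mod_cast this
  exact e.injective (Fin.ext h9)

theorem growthFn_spread_le [DecidableEq (Wreath A B)] (j : ∀ i, P i →* A) {c : ι → B}
    {F : Set B} (hF : Spread c F)
    (T : Finset (Wreath (∀ i, P i) B)) {k : ℕ} (hk : 2 ≤ k)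
    (hT : ∀ g ∈ wordBall (T : Set (Wreath (∀ i, P i) B)) k, ∀ β, g.lamp β ≠ 1 → β ∈ F) :
    growthFn (T.image (spreadMap j c)) k ≤ growthFn T k := by
  unfold growthFn
  rw [Finset.coe_image]
  refine (Set.ncard_le_ncard (wordBall_spreadMap j hF hk hT)
    ((wordBall_finite T.finite_toSet k).image _)).trans ?_
  exact Set.ncard_image_le (wordBall_finite T.finite_toSet k)

theorem exists_wordBall {G : Type*} [Group G] {T : Set G} (hT : Subgroup.closure T = ⊤)
    {Q : Set G} (hQ : Q.Finite) : ∃ k, Q ⊆ wordBall T k := by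
  have h1 : ∀ g : G, ∃ k, g ∈ wordBall T k := by
    intro g
    obtain ⟨w, hw, rfl⟩ := exists_word hT g
    exact ⟨w.length, w, le_rfl, hw, rfl⟩
  choose f hf using h1
  obtain ⟨k, hk⟩ := (hQ.image f).bddAbove
  exact ⟨k, fun g hg => wordBall_mono T (hk ⟨g, hg, rfl⟩) (hf g)⟩

/-- If the groups `P i` generate `A`, then for every finite generating set `T` of the wreath
product of `∏ P i` and `B` and all large `k` there is a finite generating set of the wreath product
of `A` and `B` whose growth function at `k` is at most that of `T`. -/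
theorem exists_spread_generating [DecidableEq ι] (θ : B →* Multiplicative ℤ)
    (hθ : Function.Surjective θ) (hB : Group.FG B) (hP : ∀ i, Group.FG (P i))
    (j : ∀ i, P i →* A) (hj : ⨆ i, (j i).range = ⊤)
    (T : Finset (Wreath (∀ i, P i) B))
    (hT : Subgroup.closure (T : Set (Wreath (∀ i, P i) B)) = ⊤) :
    ∃ k0 : ℕ, ∀ k, k0 ≤ k → ∃ S : Finset (Wreath A B),
      Subgroup.closure (S : Set (Wreath A B)) = ⊤ ∧ growthFn S k ≤ growthFn T k := by
  classical
  have hP' : ∀ i, ∃ S : Set (P i), Subgroup.closure S = ⊤ ∧ S.Finite :=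
    fun i => Group.fg_iff.mp (hP i)
  choose SP hSP hSPf using hP'
  obtain ⟨SB, hSB, hSBf⟩ := Group.fg_iff.mp hB
  -- the finite set of standard generators
  set Q : Set (Wreath (∀ i, P i) B) := ((posEmb : B →* Wreath (∀ i, P i) B) '' SB) ∪
    ⋃ i, (fun p : P i => lampEmb (1 : B) (Pi.mulSingle i p : ∀ i, P i)) '' SP i with hQ
  have hQf : Q.Finite :=
    (hSBf.image _).union (Set.finite_iUnion fun i => (hSPf i).image _)
  obtain ⟨k1, hk1⟩ := exists_wordBall hT hQf
  refine ⟨max 2 k1, fun k hk => ?_⟩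
  have hk2 : 2 ≤ k := (le_max_left _ _).trans hk
  have hkk1 : k1 ≤ k := (le_max_right _ _).trans hk
  set F : Set B := ⋃ g ∈ wordBall (T : Set (Wreath (∀ i, P i) B)) k,
    Function.mulSupport g.lamp with hF
  have hFf : F.Finite := by
    apply Set.Finite.biUnion (wordBall_finite T.finite_toSet k)
    intro g _
    exact g.finite
  have hTF : ∀ g ∈ wordBall (T : Set (Wreath (∀ i, P i) B)) k, ∀ β, g.lamp β ≠ 1 → β ∈ F := by
    intro g hg β hβ
    rw [hF]
    exact Set.mem_biUnion hg hβ
  obtain ⟨c, hc⟩ := exists_spread (ι := ι) θ hθ hFf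
  refine ⟨T.image (spreadMap j c), ?_, growthFn_spread_le j hc T hk2 hTF⟩
  set K := Subgroup.closure ((T.image (spreadMap j c) : Finset (Wreath A B)) :
    Set (Wreath A B)) with hK
  have hmem : ∀ g ∈ wordBall (T : Set (Wreath (∀ i, P i) B)) k, spreadMap j c g ∈ K := by
    rintro _ ⟨w, hwk, hw, rfl⟩
    rw [spreadMap_word j hc hTF hw hwk]
    apply Subgroup.list_prod_mem
    intro x hx
    obtain ⟨s, hs, rfl⟩ := List.mem_map.mp hx
    rcases hw s hs with h | h
    · apply Subgroup.subset_closure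
      rw [Finset.coe_image]
      exact ⟨s, h, rfl⟩
    · have h2 := spreadMap_inv j hc hk2 hTF h
      rw [inv_inv] at h2
      rw [h2]
      apply Subgroup.inv_mem
      apply Subgroup.subset_closure
      rw [Finset.coe_image]
      exact ⟨s⁻¹, h, rfl⟩
  have hQK : ∀ g ∈ Q, spreadMap j c g ∈ K := fun g hg =>
    hmem g (wordBall_mono _ hkk1 (hk1 hg))
  have hpos : ∀ b : B, (posEmb b : Wreath A B) ∈ K := by
    intro b
    have : (⊤ : Subgroup B).map (posEmb : B →* Wreath A B) ≤ K := by
      rw [← hSB, MonoidHom.map_closure, Subgroup.closure_le]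
      rintro _ ⟨x, hx, rfl⟩
      have := hQK (posEmb x) (Or.inl ⟨x, hx, rfl⟩)
      rwa [spreadMap_posEmb] at this
    exact this (Subgroup.mem_map_of_mem _ (Subgroup.mem_top b))
  apply eq_top_of_mem hpos
  have hlamp : ∀ i (p : P i), lampEmb (1 : B) (j i p) ∈ K := by
    intro i p
    have h1 : lampEmb (c i) (j i p) ∈ K := by
      have : (⊤ : Subgroup (P i)).map ((lampEmb (c i)).comp (j i)) ≤ K := by
        rw [← hSP i, MonoidHom.map_closure, Subgroup.closure_le]
        rintro _ ⟨x, hx, rfl⟩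
        have := hQK _ (Or.inr (Set.mem_iUnion.mpr ⟨i, x, hx, rfl⟩))
        rw [spreadMap_lampEmb] at this
        exact this
      exact this (Subgroup.mem_map_of_mem ((lampEmb (c i)).comp (j i)) (Subgroup.mem_top p))
    have h2 := posEmb_conj (c i)⁻¹ (c i) (j i p)
    rw [inv_mul_cancel] at h2
    rw [← h2]
    exact K.mul_mem (K.mul_mem (hpos _) h1) (K.inv_mem (hpos _))
  intro a
  have h1 : (⊤ : Subgroup A) ≤ K.comap (lampEmb (1 : B)) := by
    rw [← hj]
    apply iSup_le
    rintro i _ ⟨p, rfl⟩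
    exact hlamp i p
  exact h1 (Subgroup.mem_top a)

/-- The minimal growth rate of `A ≀ B` is at most every growth rate of `(∏ P i) ≀ B`. -/
theorem minGrowthRate_le [DecidableEq ι] (θ : B →* Multiplicative ℤ)
    (hθ : Function.Surjective θ) (hB : Group.FG B) (hP : ∀ i, Group.FG (P i))
    (j : ∀ i, P i →* A) (hj : ⨆ i, (j i).range = ⊤)
    (T : Finset (Wreath (∀ i, P i) B))
    (hT : Subgroup.closure (T : Set (Wreath (∀ i, P i) B)) = ⊤) :
    minGrowthRate (Wreath A B) ≤ growthRate T := by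
  obtain ⟨k0, hk0⟩ := exists_spread_generating θ hθ hB hP j hj T hT
  refine ge_of_tendsto (tendsto_growthRate T) ?_
  filter_upwards [eventually_ge_atTop k0, eventually_gt_atTop 0] with k hk hkpos
  obtain ⟨S, hS, hSk⟩ := hk0 k hk
  have h1 : minGrowthRate (Wreath A B) ≤ growthRate S :=
    csInf_le (bddBelow_rates _) ⟨S, hS, rfl⟩
  refine h1.trans ?_
  have h2 := growthRate_pow_le S k
  have hk' : (k : ℝ) ≠ 0 := by exact_mod_cast hkpos.ne'
  have h3 : growthRate S = (growthRate S ^ k) ^ (1 / (k : ℝ)) := by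
    rw [← Real.rpow_natCast, ← Real.rpow_mul (growthRate_pos S).le, mul_one_div_cancel hk',
      Real.rpow_one]
  rw [h3]
  apply Real.rpow_le_rpow (pow_nonneg (growthRate_pos S).le _)
  · exact h2.trans (by exact_mod_cast hSk)
  · positivity

theorem pi_surjective [DecidableEq ι] (j : ∀ i, P i →* A) (ρ : A →* ∀ i, P i)
    (hρ : ∀ i p, ρ (j i p) = Pi.mulSingle i p) : Function.Surjective ρ := by
  rw [← MonoidHom.range_eq_top, eq_top_iff]
  intro f _
  apply Subgroup.pi_mem_of_mulSingle_mem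
  intro i
  exact ⟨j i (f i), hρ i (f i)⟩

/-- Growth tightness together with the limit argument: the minimal growth rate is not attained. -/
theorem spread_not_attains [DecidableEq ι] (θ : B →* Multiplicative ℤ)
    (hθ : Function.Surjective θ) (hB : Group.FG B) (hP : ∀ i, Group.FG (P i))
    (j : ∀ i, P i →* A) (hj : ⨆ i, (j i).range = ⊤) (ρ : A →* ∀ i, P i)
    (hρ : ∀ i p, ρ (j i p) = Pi.mulSingle i p) (hinj : ¬ Function.Injective ρ) :
    ¬ AttainsMinGrowth (Wreath A B) := by
  classical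
  have hA : Nontrivial A := by
    rw [← not_subsingleton_iff_nontrivial]
    intro h
    exact hinj (Function.injective_of_subsingleton _)
  rintro ⟨S, hS, hmin⟩
  have h1 := growthRate_lt θ hθ (map ρ : Wreath A B →* Wreath (∀ i, P i) B)
    (map_not_injective hinj) S hS
  have h2 : Subgroup.closure ((S.image (map ρ : Wreath A B →* Wreath (∀ i, P i) B) :
      Finset (Wreath (∀ i, P i) B)) : Set (Wreath (∀ i, P i) B)) = ⊤ := by
    rw [Finset.coe_image, ← MonoidHom.map_closure, hS, ← MonoidHom.range_eq_map]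
    exact MonoidHom.range_eq_top.mpr (map_surjective (pi_surjective j ρ hρ))
  have h3 := minGrowthRate_le θ hθ hB hP j hj _ h2
  linarith

omit [Fintype ι] in
theorem fg_of_ranges [Finite ι] (hP : ∀ i, Group.FG (P i)) (j : ∀ i, P i →* A)
    (hj : ⨆ i, (j i).range = ⊤) : Group.FG A := by
  rw [Group.fg_iff]
  have hP' : ∀ i, ∃ S : Set (P i), Subgroup.closure S = ⊤ ∧ S.Finite :=
    fun i => Group.fg_iff.mp (hP i)
  choose SP hSP hSPf using hP'
  refine ⟨⋃ i, j i '' SP i, ?_, Set.finite_iUnion fun i => (hSPf i).image _⟩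
  rw [eq_top_iff, ← hj]
  apply iSup_le
  intro i
  rw [MonoidHom.range_eq_map, ← hSP i, MonoidHom.map_closure]
  exact Subgroup.closure_mono (Set.subset_iUnion (fun i => j i '' SP i) i)

/-- The minimal growth rates of `A ≀ B` and `(∏ P i) ≀ B` agree. -/
theorem spread_minGrowthRate_eq [DecidableEq ι] (θ : B →* Multiplicative ℤ)
    (hθ : Function.Surjective θ) (hB : Group.FG B) (hP : ∀ i, Group.FG (P i))
    (j : ∀ i, P i →* A) (hj : ⨆ i, (j i).range = ⊤) (ρ : A →* ∀ i, P i)
    (hρ : ∀ i p, ρ (j i p) = Pi.mulSingle i p) :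
    minGrowthRate (Wreath A B) = minGrowthRate (Wreath (∀ i, P i) B) := by
  classical
  have hA : Group.FG A := fg_of_ranges hP j hj
  have hsurj := map_surjective (B := B) (pi_surjective j ρ hρ)
  have hAB : Group.FG (Wreath A B) := fg hA hB
  have hfin : ∃ S : Finset (Wreath A B), Subgroup.closure (S : Set (Wreath A B)) = ⊤ := by
    obtain ⟨S, hS⟩ := hAB
    exact ⟨S, hS⟩
  obtain ⟨S0, hS0⟩ := hfin
  have himg : ∀ S : Finset (Wreath A B), Subgroup.closure (S : Set (Wreath A B)) = ⊤ →
      Subgroup.closure ((S.image (map ρ : Wreath A B →* Wreath (∀ i, P i) B) :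
      Finset (Wreath (∀ i, P i) B)) : Set (Wreath (∀ i, P i) B)) = ⊤ := by
    intro S hS
    rw [Finset.coe_image, ← MonoidHom.map_closure, hS, ← MonoidHom.range_eq_map]
    exact MonoidHom.range_eq_top.mpr hsurj
  apply le_antisymm
  · apply le_csInf
    · exact ⟨_, _, himg S0 hS0, rfl⟩
    · rintro r ⟨T, hT, rfl⟩
      exact minGrowthRate_le θ hθ hB hP j hj T hT
  · apply le_csInf
    · exact ⟨_, S0, hS0, rfl⟩
    · rintro r ⟨S, hS, rfl⟩
      refine le_trans ?_ (growthRate_image_le (map ρ : Wreath A B →* Wreath (∀ i, P i) B) S)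
      exact csInf_le (bddBelow_rates _) ⟨_, himg S hS, rfl⟩

end Wreath

end Pool.Agent.MinGrowth
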