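import Pool.Agent.MinGrowth.Cocycle

/-!
# The lower bound for `(ℤ/p)^ι ≀ ℤ`, `p ≤ 3`
-/

namespace Pool.Agent.MinGrowth

open Filter Topology

namespace Lp

open Wreath

variable {p : ℕ} [hp : Fact p.Prime] {ι : Type}

/-- The power `s ^ c` for `c = 0, 1, -1`. -/
def pw (s : Lp p ι) (c : ZMod p) : Lp p ι := if c = 0 then 1 else if c = 1 then s else s⁻¹

theorem sh_pw {s : Lp p ι} (hs : sh s = 0) (c : ZMod p) : sh (pw s c) = 0 := by
  unfold pw
  split_ifs
  · rfl
  · exact hs
  · rw [sh_inv, hs, neg_zero]

theorem zmod2_cases (c : ZMod 2) : c = 0 ∨ c = 1 ∨ c = -1 := by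
  revert c; decide

theorem zmod3_cases (c : ZMod 3) : c = 0 ∨ c = 1 ∨ c = -1 := by
  revert c; decide

theorem zmod_cases (hp3 : p ≤ 3) (c : ZMod p) : c = 0 ∨ c = 1 ∨ c = -1 := by
  have h2 := hp.out.two_le
  have h3 : p = 2 ∨ p = 3 := by omega
  rcases h3 with rfl | rfl
  · exact zmod2_cases c
  · exact zmod3_cases c

theorem coc_pw (hp3 : p ≤ 3) (q : ι → LaurentSeries (ZMod p)) {s : Lp p ι} (hs : sh s = 0)
    (c : ZMod p) :
    coc q (pw s c) = (HahnSeries.C c : LaurentSeries (ZMod p)) • coc q s := by
  unfold pw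
  split_ifs with h1 h2
  · rw [h1, coc_one, map_zero, zero_smul]
  · rw [h2, map_one, one_smul]
  · have h3 : c = -1 := by
      rcases zmod_cases hp3 c with h | h | h
      · exact absurd h h1
      · exact absurd h h2
      · exact h
    rw [coc_inv, hs, h3, map_neg, map_one, neg_zero, T_zero, one_smul, neg_smul, one_smul]

theorem coc_list (q : ι → LaurentSeries (ZMod p)) (l : List (Lp p ι)) (hl : ∀ s ∈ l, sh s = 0) :
    sh l.prod = 0 ∧ coc q l.prod = (l.map (coc q)).sum := by
  induction l with
  | nil => exact ⟨rfl, by simp [coc_one]⟩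
  | cons s l ih =>
    obtain ⟨h1, h2⟩ := ih (fun t ht => hl t (List.mem_cons_of_mem _ ht))
    have h3 := hl s (by simp)
    refine ⟨by rw [List.prod_cons, sh_mul, h3, h1, add_zero], ?_⟩
    rw [List.prod_cons, coc_mul, h3, T_zero, one_smul, h2]
    simp

section code

variable {κ : Type} [Fintype κ]

/-- The block element. -/
noncomputable def blk (a : κ → Lp p ι) (s0 : Lp p ι)
    (c : ({v : κ // sh (a v) = 0} → ZMod p) × Option {v : κ // sh (a v) ≠ 0}) : Lp p ι :=
  ((Finset.univ.toList.map fun v : {v : κ // sh (a v) = 0} => pw (a v.1) (c.1 v)).prod) *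
    (match c.2 with
      | none => s0
      | some v => a v.1)

/-- The length of a block. -/
noncomputable def blkLen (a : κ → Lp p ι)
    (c : ({v : κ // sh (a v) = 0} → ZMod p) × Option {v : κ // sh (a v) ≠ 0}) : ℕ :=
  (Finset.univ.filter fun v => c.1 v ≠ 0).card + 1

theorem blk_mem {S : Set (Lp p ι)} {a : κ → Lp p ι} {s0 : Lp p ι}
    (h0 : s0 ∈ S ∨ s0⁻¹ ∈ S) (ha : ∀ v, a v ∈ S ∨ (a v)⁻¹ ∈ S)
    (c : ({v : κ // sh (a v) = 0} → ZMod p) × Option {v : κ // sh (a v) ≠ 0}) :
    blk a s0 c ∈ wordBall S (blkLen a c) := by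
  classical
  have h1 : ∀ l : List {v : κ // sh (a v) = 0}, (l.map fun v => pw (a v.1) (c.1 v)).prod ∈
      wordBall S (l.filter fun v => c.1 v ≠ 0).length := by
    intro l
    induction l with
    | nil => exact ⟨[], by simp, by simp, by simp⟩
    | cons v l ih =>
      obtain ⟨w, hw1, hw2, hw3⟩ := ih
      by_cases hv : c.1 v = 0
      · refine ⟨w, ?_, hw2, ?_⟩
        · rw [List.filter_cons_of_neg (by simpa using hv)]; exact hw1
        · rw [List.map_cons, List.prod_cons, ← hw3]
          simp [pw, hv]
      · refine ⟨pw (a v.1) (c.1 v) :: w, ?_, ?_, ?_⟩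
        · rw [List.filter_cons_of_pos (by simpa using hv)]
          simp only [List.length_cons]
          omega
        · intro s hs
          rcases List.mem_cons.mp hs with rfl | hs
          · unfold pw
            rw [if_neg hv]
            split_ifs
            · exact ha v.1
            · rcases ha v.1 with h | h
              · right; simpa using h
              · left; exact h
          · exact hw2 s hs
        · rw [List.prod_cons, hw3, List.map_cons, List.prod_cons]
  obtain ⟨w, hw1, hw2, hw3⟩ := h1 Finset.univ.toList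
  have hlen : (Finset.univ.toList.filter fun v : {v : κ // sh (a v) = 0} => c.1 v ≠ 0).length =
      (Finset.univ.filter fun v => c.1 v ≠ 0).card := by
    rw [← Multiset.coe_card, ← Multiset.filter_coe, Finset.coe_toList]
    rfl
  have hs : ∀ t : Lp p ι, (t ∈ S ∨ t⁻¹ ∈ S) → w.prod * t ∈ wordBall S (blkLen a c) := by
    intro t ht
    refine ⟨w ++ [t], ?_, ?_, by simp⟩
    · rw [List.length_append, List.length_singleton]
      unfold blkLen
      rw [← hlen]
      omega
    · intro s hs
      rcases List.mem_append.mp hs with hs | hs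
      · exact hw2 s hs
      · rw [List.mem_singleton.mp hs]; exact ht
  unfold blk
  rw [← hw3]
  cases c.2 with
  | none => exact hs _ h0
  | some v => exact hs _ (ha v.1)

/-- The coordinates of a block. -/
noncomputable def crd {a : κ → Lp p ι}
    (c : ({v : κ // sh (a v) = 0} → ZMod p) × Option {v : κ // sh (a v) ≠ 0}) (v : κ) : ZMod p :=
  open Classical in
  if h : sh (a v) = 0 then c.1 ⟨v, h⟩ else if c.2 = some ⟨v, h⟩ then 1 else 0

omit [Fintype κ] in
theorem crd_injective {a : κ → Lp p ι} : Function.Injective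
    (crd (a := a) : ({v : κ // sh (a v) = 0} → ZMod p) × Option {v : κ // sh (a v) ≠ 0} →
      κ → ZMod p) := by
  classical
  rintro ⟨E, j⟩ ⟨E', j'⟩ h
  have h1 : E = E' := by
    funext v
    have := congrFun h v.1
    unfold crd at this
    rw [dif_pos v.2, dif_pos v.2] at this
    exact this
  have h2 : ∀ v : {v : κ // sh (a v) ≠ 0}, j = some v ↔ j' = some v := by
    intro v
    have := congrFun h v.1
    unfold crd at this
    rw [dif_neg v.2, dif_neg v.2] at this
    by_cases h3 : j = some v
    · rw [if_pos h3] at this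
      by_cases h4 : j' = some v
      · exact ⟨fun _ => h4, fun _ => h3⟩
      · rw [if_neg h4] at this
        exact absurd this one_ne_zero
    · rw [if_neg h3] at this
      by_cases h4 : j' = some v
      · rw [if_pos h4] at this
        exact absurd this.symm one_ne_zero
      · exact ⟨fun h => absurd h h3, fun h => absurd h h4⟩
  have h3 : j = j' := by
    cases j with
    | none =>
      cases j' with
      | none => rfl
      | some v => exact absurd ((h2 v).mpr rfl) (by simp)
    | some v => exact ((h2 v).mp rfl).symm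
  rw [h1, h3]

theorem coord_blk (hp3 : p ≤ 3) {q : ι → LaurentSeries (ZMod p)} {a : κ → Lp p ι} {s0 : Lp p ι}
    (hq : coc q s0 = 0)
    (b : Module.Basis κ (LaurentSeries (ZMod p)) (ι → LaurentSeries (ZMod p)))
    (hb : ∀ v, b v = coc q (a v))
    (c : ({v : κ // sh (a v) = 0} → ZMod p) × Option {v : κ // sh (a v) ≠ 0}) (v : κ) :
    b.coord v (coc q (blk a s0 c)) = HahnSeries.C (crd c v) := by
  classical
  have h1 := coc_list q ((Finset.univ.toList.map
    fun v : {v : κ // sh (a v) = 0} => pw (a v.1) (c.1 v))) (by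
      intro s hs
      obtain ⟨v, -, rfl⟩ := List.mem_map.mp hs
      exact sh_pw v.2 _)
  have h2 : coc q (Finset.univ.toList.map
      fun v : {v : κ // sh (a v) = 0} => pw (a v.1) (c.1 v)).prod =
      ∑ v : {v : κ // sh (a v) = 0}, (HahnSeries.C (c.1 v) : LaurentSeries (ZMod p)) • b v.1 := by
    rw [h1.2, List.map_map, Finset.sum_map_toList]
    refine Finset.sum_congr rfl fun v _ => ?_
    simp only [Function.comp]
    rw [coc_pw hp3 q v.2, hb]
  have h3 : coc q (blk a s0 c) = ∑ v : {v : κ // sh (a v) = 0},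
      (HahnSeries.C (c.1 v) : LaurentSeries (ZMod p)) • b v.1 +
      (match c.2 with
        | none => 0
        | some v => b v.1) := by
    unfold blk
    rw [coc_mul, h1.1, T_zero, one_smul, h2]
    congr 1
    cases c.2 with
    | none => exact hq
    | some v => exact (hb v.1).symm
  rw [h3, map_add, map_sum]
  have h4 : ∀ u : {v : κ // sh (a v) = 0},
      b.coord v ((HahnSeries.C (c.1 u) : LaurentSeries (ZMod p)) • b u.1) =
      if u.1 = v then HahnSeries.C (c.1 u) else 0 := by
    intro u
    rw [map_smul, Module.Basis.coord_apply, Module.Basis.repr_self, Finsupp.single_apply]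
    split_ifs <;> simp
  rw [Finset.sum_congr rfl fun u _ => h4 u]
  unfold crd
  by_cases hv : sh (a v) = 0
  · rw [dif_pos hv, Finset.sum_eq_single ⟨v, hv⟩]
    · rw [if_pos rfl]
      cases hc : c.2 with
      | none => simp
      | some w =>
        simp only
        rw [Module.Basis.coord_apply, Module.Basis.repr_self, Finsupp.single_apply, if_neg, add_zero]
        intro h
        exact w.2 (h ▸ hv)
    · intro u _ hu
      rw [if_neg]
      intro h
      exact hu (Subtype.ext h)
    · intro h
      exact absurd (Finset.mem_univ _) h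
  · rw [dif_neg hv, Finset.sum_eq_zero, zero_add]
    · cases hc : c.2 with
      | none => simp
      | some w =>
        simp only
        rw [Module.Basis.coord_apply, Module.Basis.repr_self, Finsupp.single_apply]
        by_cases h : w.1 = v
        · rw [if_pos h, if_pos, map_one]
          congr 1
          exact Subtype.ext h
        · rw [if_neg h, if_neg, map_zero]
          intro h2
          apply h
          have := Option.some.inj h2
          rw [this]
    · intro u _
      rw [if_neg]
      intro h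
      exact hv (h ▸ u.2)

theorem blk_free (hp3 : p ≤ 3) {q : ι → LaurentSeries (ZMod p)} {a : κ → Lp p ι} {s0 : Lp p ι}
    (hs0 : 0 < sh s0) (ha : ∀ v, 0 ≤ sh (a v)) (hq : coc q s0 = 0)
    (b : Module.Basis κ (LaurentSeries (ZMod p)) (ι → LaurentSeries (ZMod p)))
    (hb : ∀ v, b v = coc q (a v)) :
    Function.Injective (fun l : List (({v : κ // sh (a v) = 0} → ZMod p) ×
      Option {v : κ // sh (a v) ≠ 0}) => (l.map (blk a s0)).prod) := by
  classical
  have hsh : ∀ c, 0 < sh (blk a s0 c) := by
    intro c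
    have h1 := (coc_list q ((Finset.univ.toList.map
      fun v : {v : κ // sh (a v) = 0} => pw (a v.1) (c.1 v))) (by
        intro s hs
        obtain ⟨v, -, rfl⟩ := List.mem_map.mp hs
        exact sh_pw v.2 _)).1
    unfold blk
    rw [sh_mul, h1, zero_add]
    cases c.2 with
    | none => exact hs0
    | some v => exact lt_of_le_of_ne (ha v.1) (Ne.symm v.2)
  have hshl : ∀ l : List (({v : κ // sh (a v) = 0} → ZMod p) ×
      Option {v : κ // sh (a v) ≠ 0}), 0 ≤ sh ((l.map (blk a s0)).prod) := by
    intro l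
    induction l with
    | nil => simp
    | cons c l ih =>
      rw [List.map_cons, List.prod_cons, sh_mul]
      have := hsh c
      linarith
  have hneg : ∀ (l : List (({v : κ // sh (a v) = 0} → ZMod p) ×
      Option {v : κ // sh (a v) ≠ 0})) (v : κ) (n : ℤ), n < 0 →
      (b.coord v (coc q ((l.map (blk a s0)).prod))).coeff n = 0 := by
    intro l
    induction l with
    | nil => intro v n _; simp [coc_one]
    | cons c l ih =>
      intro v n hn
      rw [List.map_cons, List.prod_cons, coc_mul, map_add, map_smul, smul_eq_mul,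
        HahnSeries.coeff_add, T_coeff_mul, coord_blk hp3 hq b hb, ih v _ (by linarith [hsh c]),
        add_zero, HahnSeries.C_apply, HahnSeries.coeff_single_of_ne hn.ne]
  have hzero : ∀ c (l : List (({v : κ // sh (a v) = 0} → ZMod p) ×
      Option {v : κ // sh (a v) ≠ 0})) (v : κ),
      (b.coord v (coc q (((c :: l).map (blk a s0)).prod))).coeff 0 = crd c v := by
    intro c l v
    rw [List.map_cons, List.prod_cons, coc_mul, map_add, map_smul, smul_eq_mul,
      HahnSeries.coeff_add, T_coeff_mul, coord_blk hp3 hq b hb, hneg l v _ (by linarith [hsh c]),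
      add_zero, HahnSeries.C_apply, HahnSeries.coeff_single_same]
  intro l l' hll
  simp only at hll
  induction l generalizing l' with
  | nil =>
    cases l' with
    | nil => rfl
    | cons c l' =>
      exfalso
      have h1 := hsh c
      have h2 := hshl l'
      have h3 := congrArg sh hll
      rw [List.map_cons, List.prod_cons, sh_mul] at h3
      simp at h3
      linarith
  | cons c l ih =>
    cases l' with
    | nil =>
      exfalso
      have h1 := hsh c
      have h2 := hshl l
      have h3 := congrArg sh hll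
      rw [List.map_cons, List.prod_cons, sh_mul] at h3
      simp at h3
      linarith
    | cons c' l' =>
      have hcc : c = c' := by
        apply crd_injective
        funext v
        rw [← hzero c l v, ← hzero c' l' v, hll]
      subst hcc
      rw [List.map_cons, List.prod_cons, List.map_cons, List.prod_cons] at hll
      rw [ih (mul_left_cancel hll)]

end code

/-- The weighted number of blocks. -/
theorem sum_blkLen {κ : Type} [Fintype κ] [DecidableEq κ] (a : κ → Lp p ι) (x : ℝ) :
    ∑ c : ({v : κ // sh (a v) = 0} → ZMod p) × Option {v : κ // sh (a v) ≠ 0},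
      x ^ blkLen a c =
      (Fintype.card {v : κ // sh (a v) ≠ 0} + 1) * x *
        (1 + (p - 1) * x) ^ Fintype.card {v : κ // sh (a v) = 0} := by
  classical
  set f : ({v : κ // sh (a v) = 0} → ZMod p) → ℝ :=
    fun E => (∏ v, if E v ≠ 0 then x else 1) * x with hf
  have h1 : ∀ c : ({v : κ // sh (a v) = 0} → ZMod p) × Option {v : κ // sh (a v) ≠ 0},
      x ^ blkLen a c = f c.1 := by
    intro c
    rw [hf]
    unfold blkLen
    simp only
    rw [pow_succ, Finset.prod_ite, Finset.prod_const, Finset.prod_const_one, mul_one]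
  have h2 : ∑ E : {v : κ // sh (a v) = 0} → ZMod p, ∏ v, (if E v ≠ 0 then x else 1) =
      (1 + (p - 1) * x) ^ Fintype.card {v : κ // sh (a v) = 0} := by
    have h3 : (1 + ((p : ℝ) - 1) * x) = ∑ c : ZMod p, (if c ≠ 0 then x else 1) := by
      rw [Finset.sum_ite, Finset.sum_const, Finset.sum_const]
      have h4 : (Finset.univ.filter fun c : ZMod p => ¬ c ≠ 0) = {0} := by
        ext c; simp
      have h5 : (Finset.univ.filter fun c : ZMod p => c ≠ 0).card = p - 1 := by
        rw [Finset.filter_ne', Finset.card_erase_of_mem (Finset.mem_univ _), Finset.card_univ,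
          ZMod.card]
      rw [h4, h5, Finset.card_singleton, nsmul_eq_mul, nsmul_eq_mul,
        Nat.cast_sub hp.out.one_le]
      push_cast
      ring
    rw [h3]
    rw [← Finset.card_univ, ← Finset.prod_const, Finset.prod_univ_sum, Fintype.piFinset_univ]
  rw [Finset.sum_congr rfl fun c _ => h1 c, Fintype.sum_prod_type]
  change ∑ E, ∑ _j : Option {v : κ // sh (a v) ≠ 0}, f E = _
  simp only [Finset.sum_const, Finset.card_univ, Fintype.card_option, nsmul_eq_mul]
  rw [← Finset.mul_sum, hf]
  simp only
  rw [← Finset.sum_mul, h2]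
  push_cast
  ring

theorem pow_bound (q : ℕ) : (1 + 2 / ((q : ℝ) + 1)) ^ q ≤ q + 1 := by
  by_cases hq : q ≤ 6
  · interval_cases q <;> norm_num
  · push Not at hq
    have h1 : (1 + 2 / ((q : ℝ) + 1)) ≤ Real.exp (2 / ((q : ℝ) + 1)) := by
      have := Real.add_one_le_exp (2 / ((q : ℝ) + 1))
      linarith
    have h2 : (1 + 2 / ((q : ℝ) + 1)) ^ q ≤ Real.exp (2 / ((q : ℝ) + 1)) ^ q :=
      pow_le_pow_left₀ (by positivity) h1 q
    have h3 : Real.exp (2 / ((q : ℝ) + 1)) ^ q ≤ Real.exp 2 := by
      rw [← Real.exp_nat_mul]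
      apply Real.exp_le_exp.mpr
      rw [mul_div_assoc', div_le_iff₀ (by positivity)]
      linarith
    have h4 : Real.exp 2 ≤ 8 := by
      have h5 : Real.exp 2 = Real.exp 1 ^ 2 := by
        rw [← Real.exp_nat_mul]; norm_num
      have h6 := Real.exp_one_lt_d9
      have h7 := Real.exp_pos 1
      rw [h5]
      nlinarith
    have h5 : (7 : ℝ) ≤ q := by exact_mod_cast hq
    linarith

theorem num_bound {P x : ℝ} (hP : P ≤ 3) (hP1 : 1 ≤ P) (hx0 : 0 < x) (q r : ℕ)
    (h : (q + 1) * x * (1 + (P - 1) * x) ^ r ≤ 1) : x * (1 + (P - 1) * x) ^ (r + q) ≤ 1 := by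
  set y := 1 + (P - 1) * x with hy
  have hy1 : 1 ≤ y := by
    rw [hy]; nlinarith
  have hyr : 1 ≤ y ^ r := one_le_pow₀ hy1
  have hq : (0 : ℝ) < (q : ℝ) + 1 := by positivity
  have hx1 : x ≤ 1 / ((q : ℝ) + 1) := by
    rw [le_div_iff₀ hq]
    have : ((q : ℝ) + 1) * x * 1 ≤ ((q : ℝ) + 1) * x * y ^ r :=
      mul_le_mul_of_nonneg_left hyr (by positivity)
    linarith
  have hy2 : y ≤ 1 + 2 / ((q : ℝ) + 1) := by
    rw [hy]
    have h1 : (P - 1) * x ≤ 2 * (1 / ((q : ℝ) + 1)) := by
      apply mul_le_mul _ hx1 hx0.le (by norm_num)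
      linarith
    have h2 : 2 * (1 / ((q : ℝ) + 1)) = 2 / ((q : ℝ) + 1) := by ring
    linarith
  have hyq : y ^ q ≤ q + 1 :=
    (pow_le_pow_left₀ (by linarith) hy2 q).trans (pow_bound q)
  calc x * y ^ (r + q) = x * y ^ r * y ^ q := by rw [pow_add]; ring
    _ ≤ x * y ^ r * (q + 1) := mul_le_mul_of_nonneg_left hyq (by positivity)
    _ = (q + 1) * x * y ^ r := by ring
    _ ≤ 1 := h

/-- **Lower bound** for the growth rates of `(ℤ/p)^ι ≀ ℤ`, `p ≤ 3`. -/
theorem prime_lower [Fintype ι] (hp3 : p ≤ 3) (S : Finset (Lp p ι))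
    (hS : Subgroup.closure (S : Set (Lp p ι)) = ⊤) {x : ℝ} (hx0 : 0 < x)
    (hx : x * growthRate S < 1) : x * (1 + (p - 1) * x) ^ Fintype.card ι ≤ 1 := by
  classical
  -- a generator with positive translation
  obtain ⟨s0, hs0, hs0p⟩ : ∃ s : Lp p ι, (s ∈ (S : Set (Lp p ι)) ∨ s⁻¹ ∈ (S : Set (Lp p ι))) ∧
      0 < sh s := by
    by_contra hno
    push Not at hno
    have hz : ∀ s ∈ (S : Set (Lp p ι)), sh s = 0 := by
      intro s hs
      have h1 := hno s (Or.inl hs)
      have h2 := hno s⁻¹ (Or.inr (by simpa using hs))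
      rw [sh_inv] at h2
      linarith
    have hall : ∀ g : Lp p ι, sh g = 0 := by
      intro g
      have hg : g ∈ Subgroup.closure (S : Set (Lp p ι)) := by rw [hS]; trivial
      induction hg using Subgroup.closure_induction with
      | mem g hg => exact hz g hg
      | one => rfl
      | mul a b _ _ iha ihb => rw [sh_mul, iha, ihb, add_zero]
      | inv a _ iha => rw [sh_inv, iha, neg_zero]
    have h1 := hall (posEmb (Multiplicative.ofAdd 1))
    have h2 : sh (posEmb (Multiplicative.ofAdd 1) : Lp p ι) = 1 := rfl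
    rw [h2] at h1
    exact one_ne_zero h1
  obtain ⟨q, hq⟩ := exists_base s0 hs0p.ne'
  -- the letters with nonnegative translation
  set Tn : Set (Lp p ι) := {s | (s ∈ (S : Set (Lp p ι)) ∨ s⁻¹ ∈ (S : Set (Lp p ι))) ∧ 0 ≤ sh s}
    with hTn
  have hT : ∀ s ∈ (S : Set (Lp p ι)), s ∈ Tn ∨ s⁻¹ ∈ Tn := by
    intro s hs
    rcases le_or_gt 0 (sh s) with h | h
    · exact Or.inl ⟨Or.inl hs, h⟩
    · right
      refine ⟨Or.inr (by simpa using hs), ?_⟩
      rw [sh_inv]; linarith
  have hspan := span_coc q hS hT
  obtain ⟨κ, a, -, hsp, hli⟩ := exists_linearIndependent' (LaurentSeries (ZMod p))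
    (fun s : Tn => coc q s.1)
  rw [hspan] at hsp
  let b : Module.Basis κ (LaurentSeries (ZMod p)) (ι → LaurentSeries (ZMod p)) :=
    Module.Basis.mk hli (by rw [hsp])
  have hb : ∀ v, b v = coc q (a v).1 := by
    intro v
    rw [Module.Basis.mk_apply]
    rfl
  have hfin : Finite κ := Module.Finite.finite_basis b
  let _ : Fintype κ := Fintype.ofFinite κ
  have hcard : Fintype.card κ = Fintype.card ι := by
    have h1 := Module.finrank_eq_card_basis b
    rw [Module.finrank_fintype_fun_eq_card] at h1
    exact h1.symm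
  have hfree := blk_free hp3 (a := fun v => (a v).1) hs0p (fun v => (a v).2.2) hq b hb
  have hlen := blk_mem (S := (S : Set (Lp p ι))) (a := fun v => (a v).1) hs0 (fun v => (a v).2.1)
  have hsum := free_bound_general S _ _ hlen hfree hx0 hx
  rw [sum_blkLen] at hsum
  have hcard2 : Fintype.card {v : κ // sh (a v).1 = 0} + Fintype.card {v : κ // sh (a v).1 ≠ 0} =
      Fintype.card ι := by
    rw [← hcard, Fintype.card_subtype_compl, Nat.add_sub_cancel' (Fintype.card_subtype_le _)]
  rw [← hcard2]
  apply num_bound _ _ hx0 _ _ hsum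
  · exact_mod_cast hp3
  · exact_mod_cast hp.out.one_le

end Lp

end Pool.Agent.MinGrowth
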