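import Pool.Agent.MinGrowth.PrimeLower

/-!
# `(ℤ/p)^ι ≀ ℤ` attains its minimal growth rate for `p ≤ 3`
-/

namespace Pool.Agent.MinGrowth

open Filter Topology
open scoped ENNReal

namespace Lp

open Wreath

variable {p : ℕ} [hp : Fact p.Prime] {ι : Type} [Fintype ι] [DecidableEq ι]

variable (p) in
/-- The lamp generators. -/
noncomputable def gA (i : ι) : Lp p ι := lampEmb 1 (Pi.mulSingle i (Multiplicative.ofAdd 1))

variable (p ι) in
/-- The translation generator. -/
def gT : Lp p ι := posEmb (Multiplicative.ofAdd 1)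

open Classical in
variable (p ι) in
/-- The standard generating set. -/
noncomputable def stdGen : Finset (Lp p ι) := insert (gT p ι) (Finset.univ.image (gA p))

theorem stdGen_closure : Subgroup.closure (stdGen p ι : Set (Lp p ι)) = ⊤ := by
  classical
  have hA : ∀ i, gA p i ∈ Subgroup.closure (stdGen p ι : Set (Lp p ι)) := fun i =>
    Subgroup.subset_closure (by simp [stdGen])
  have hT : gT p ι ∈ Subgroup.closure (stdGen p ι : Set (Lp p ι)) :=
    Subgroup.subset_closure (by simp [stdGen])
  apply eq_top_of_mem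
  · intro b
    have h1 : (posEmb b : Lp p ι) = gT p ι ^ (Multiplicative.toAdd b) := by
      rw [gT, ← map_zpow]
      congr 1
      apply Multiplicative.toAdd.injective
      simp
    rw [h1]
    exact Subgroup.zpow_mem _ hT _
  · intro a
    have h1 : (⊤ : Subgroup (ι → Cp p)) ≤
        (Subgroup.closure (stdGen p ι : Set (Lp p ι))).comap (lampEmb (1 : Cinf)) := by
      intro f _
      apply Subgroup.pi_mem_of_mulSingle_mem
      intro i
      rw [Subgroup.mem_comap]
      have h2 : (Pi.mulSingle i (f i) : ι → Cp p) =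
          (Pi.mulSingle i (Multiplicative.ofAdd (1 : ZMod p))) ^
            (ZMod.val (Multiplicative.toAdd (f i))) := by
        rw [← Pi.mulSingle_pow]
        congr 1
        apply Multiplicative.toAdd.injective
        rw [toAdd_pow, toAdd_ofAdd, nsmul_eq_mul, mul_one, ZMod.natCast_zmod_val]
      rw [h2, map_pow]
      exact Subgroup.pow_mem _ (hA i) _
    exact h1 (Subgroup.mem_top a)

omit [Fintype ι] in
theorem letters [Fintype ι] {s : Lp p ι}
    (hs : s ∈ (stdGen p ι : Set (Lp p ι)) ∨ s⁻¹ ∈ (stdGen p ι : Set (Lp p ι))) :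
    (∃ i c, s = lampEmb 1 (Pi.mulSingle i c)) ∨ s = gT p ι ∨ s = (gT p ι)⁻¹ := by
  simp only [stdGen, Finset.coe_insert, Finset.coe_image, Finset.coe_univ, Set.image_univ,
    Set.mem_insert_iff, Set.mem_range] at hs
  rcases hs with (h | ⟨i, h⟩) | (h | ⟨i, h⟩)
  · exact Or.inr (Or.inl h)
  · left; exact ⟨i, _, h.symm⟩
  · right; right; rw [← h, inv_inv]
  · left
    refine ⟨i, (Multiplicative.ofAdd 1)⁻¹, ?_⟩
    rw [Pi.mulSingle_inv, map_inv, ← inv_inv s, ← h]
    rfl

/-- The support, with coordinates. -/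
noncomputable def supp (g : Lp p ι) : Finset (Cinf × ι) :=
  open Classical in
  (g.finite.toFinset ×ˢ Finset.univ).filter fun x => g.lamp x.1 x.2 ≠ 1

omit [DecidableEq ι] in
theorem mem_supp {g : Lp p ι} {x : Cinf × ι} : x ∈ supp g ↔ g.lamp x.1 x.2 ≠ 1 := by
  classical
  unfold supp
  rw [Finset.mem_filter, Finset.mem_product, Set.Finite.mem_toFinset, Function.mem_mulSupport]
  constructor
  · exact fun h => h.2
  · intro h
    exact ⟨⟨fun h1 => h (by rw [h1]; rfl), Finset.mem_univ _⟩, h⟩

omit [DecidableEq ι] in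
theorem supp_one : supp (1 : Lp p ι) = ∅ := by
  ext x
  rw [mem_supp]
  simp

theorem supp_mul_lamp (g : Lp p ι) (i : ι) (c : Cp p) :
    supp (g * lampEmb 1 (Pi.mulSingle i c)) ⊆ insert (g.pos, i) (supp g) := by
  intro x hx
  rw [mem_supp, mul_lamp, Pi.mul_apply] at hx
  rw [Finset.mem_insert, mem_supp]
  by_cases h : x = (g.pos, i)
  · exact Or.inl h
  · right
    intro h1
    apply hx
    rw [h1, one_mul]
    by_cases h2 : x.1 = g.pos
    · rw [h2, inv_mul_cancel, lampEmb_lamp_same, Pi.mulSingle_eq_of_ne]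
      intro h3
      exact h (Prod.ext h2 h3)
    · rw [lampEmb_lamp_ne]
      · rfl
      · intro h3
        rw [inv_mul_eq_one] at h3
        exact h2 h3.symm

omit [DecidableEq ι] in
theorem supp_mul_posEmb (g : Lp p ι) (b : Cinf) : supp (g * posEmb b) = supp g := by
  ext x
  rw [mem_supp, mem_supp, mul_lamp, posEmb_lamp, mul_one]

omit hp [Fintype ι] [DecidableEq ι] in
theorem gT_inv : (gT p ι)⁻¹ = posEmb (Multiplicative.ofAdd (-1 : ℤ)) := by
  rw [gT, ← map_inv]; rfl

theorem length_ge {w : List (Lp p ι)} (hw : Ltr (stdGen p ι : Set (Lp p ι)) w) :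
    (sh w.prod).natAbs + (supp w.prod).card ≤ w.length := by
  classical
  induction w using List.reverseRecOn with
  | nil => rw [List.prod_nil, supp_one]; rfl
  | append_singleton u s ih =>
    have ih' := ih hw.append_left
    rw [List.prod_append, List.prod_singleton, List.length_append, List.length_singleton]
    rcases letters (hw s (by simp)) with ⟨i, c, rfl⟩ | rfl | rfl
    · have h1 := (Finset.card_le_card (supp_mul_lamp u.prod i c)).trans
        (Finset.card_insert_le _ _)
      have h2 : sh (u.prod * lampEmb 1 (Pi.mulSingle i c)) = sh u.prod := by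
        rw [sh_mul]
        change sh u.prod + 0 = _
        ring
      rw [h2]; omega
    · have h1 : supp (u.prod * gT p ι) = supp u.prod := supp_mul_posEmb _ _
      have h2 : sh (u.prod * gT p ι) = sh u.prod + 1 := by rw [sh_mul]; rfl
      rw [h1, h2]; omega
    · have h1 : supp (u.prod * (gT p ι)⁻¹) = supp u.prod := by
        rw [gT_inv]; exact supp_mul_posEmb _ _
      have h2 : sh (u.prod * (gT p ι)⁻¹) = sh u.prod - 1 := by
        rw [sh_mul, gT_inv]; rfl
      rw [h1, h2]; omega

/-- The height homomorphism. -/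
def πh : Lp p ι →* Multiplicative ℤ := (MonoidHom.id Cinf).comp posHom

/-- The support of a bridge of span `m` lies in `[0, m]`. -/
theorem supp_strip {m : ℕ} {w : List (Lp p ι)} (hw : Ltr (stdGen p ι : Set (Lp p ι)) w)
    (hst : Strip (πh (p := p) (ι := ι)) 0 m 0 w) :
    ∀ x ∈ supp w.prod, 0 ≤ Multiplicative.toAdd x.1 ∧ Multiplicative.toAdd x.1 ≤ (m : ℤ) := by
  classical
  induction w using List.reverseRecOn with
  | nil => rw [List.prod_nil, supp_one]; intro x hx; simp at hx
  | append_singleton u s ih =>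
    have ih' := ih hw.append_left hst.left
    rw [List.prod_append, List.prod_singleton]
    rcases letters (hw s (by simp)) with ⟨i, c, rfl⟩ | rfl | rfl
    · intro x hx
      have h1 := supp_mul_lamp u.prod i c hx
      rw [Finset.mem_insert] at h1
      rcases h1 with h1 | h1
      · have h4 := hst u _ rfl
        rw [zero_add] at h4
        rw [h1]
        exact h4
      · exact ih' x h1
    · have h1 : supp (u.prod * gT p ι) = supp u.prod := supp_mul_posEmb _ _
      rw [h1]; exact ih'
    · have h1 : supp (u.prod * (gT p ι)⁻¹) = supp u.prod := by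
        rw [gT_inv]; exact supp_mul_posEmb _ _
      rw [h1]; exact ih'

/-- The element with the given lamps on `[0, m]` and position `m`. -/
noncomputable def elem (m : ℕ) (f : Fin (m + 1) → ι → Cp p) : Lp p ι where
  lamp β := open Classical in
    if h : 0 ≤ Multiplicative.toAdd β ∧ Multiplicative.toAdd β ≤ (m : ℤ) then
      f ⟨(Multiplicative.toAdd β).toNat, by omega⟩ else 1
  pos := Multiplicative.ofAdd (m : ℤ)
  finite := by
    refine ((Set.finite_Icc (0 : ℤ) m).image Multiplicative.ofAdd).subset ?_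
    intro β hβ
    rw [Function.mem_mulSupport] at hβ
    by_cases h : 0 ≤ Multiplicative.toAdd β ∧ Multiplicative.toAdd β ≤ (m : ℤ)
    · exact ⟨Multiplicative.toAdd β, h, rfl⟩
    · rw [dif_neg h] at hβ
      exact absurd rfl hβ

/-- The cost of a lamp configuration. -/
noncomputable def cost (m : ℕ) (f : Fin (m + 1) → ι → Cp p) : ℕ :=
  (Finset.univ.filter fun x : Fin (m + 1) × ι => f x.1 x.2 ≠ 1).card

theorem sum_cost (m : ℕ) (y : ℝ≥0∞) :
    ∑ f : Fin (m + 1) → ι → Cp p, y ^ cost m f =
      ((1 + ((p - 1 : ℕ) : ℝ≥0∞) * y) ^ Fintype.card ι) ^ (m + 1) := by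
  classical
  have h1 : ∀ f : Fin (m + 1) → ι → Cp p, y ^ cost m f =
      ∏ n, ∏ i, (if f n i ≠ 1 then y else 1) := by
    intro f
    unfold cost
    rw [← Finset.prod_product', Finset.univ_product_univ, Finset.prod_ite, Finset.prod_const,
      Finset.prod_const_one, mul_one]
  have h2 : (1 + ((p - 1 : ℕ) : ℝ≥0∞) * y) = ∑ c : Cp p, (if c ≠ 1 then y else 1) := by
    rw [Finset.sum_ite, Finset.sum_const, Finset.sum_const]
    have h4 : (Finset.univ.filter fun c : Cp p => ¬ c ≠ 1) = {1} := by
      ext c; simp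
    have h5 : (Finset.univ.filter fun c : Cp p => c ≠ 1).card = p - 1 := by
      rw [Finset.filter_ne', Finset.card_erase_of_mem (Finset.mem_univ _), Finset.card_univ,
        Fintype.card_multiplicative, ZMod.card]
    rw [h4, h5, Finset.card_singleton, nsmul_eq_mul, nsmul_eq_mul, Nat.cast_one, one_mul,
      add_comm]
  have h3 : (1 + ((p - 1 : ℕ) : ℝ≥0∞) * y) ^ Fintype.card ι =
      ∑ v : ι → Cp p, ∏ i, (if v i ≠ 1 then y else 1) := by
    rw [h2, ← Finset.card_univ, ← Finset.prod_const, Finset.prod_univ_sum,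
      Fintype.piFinset_univ]
  rw [Finset.sum_congr rfl fun f _ => h1 f, h3]
  have h6 : (∑ v : ι → Cp p, ∏ i, (if v i ≠ 1 then y else 1)) ^ (m + 1) =
      ∏ _n : Fin (m + 1), ∑ v : ι → Cp p, ∏ i, (if v i ≠ 1 then y else 1) := by
    rw [Finset.prod_const, Finset.card_univ, Fintype.card_fin]
  rw [h6, Finset.prod_univ_sum, Fintype.piFinset_univ]

theorem gf_Br_le {y : ℝ≥0∞} (hy : y ≤ 1) (m : ℕ) :
    gf (MonoidHom.id (Lp p ι)) (Br πh (stdGen p ι : Set (Lp p ι)) m) y ≤
      y ^ m * ((1 + ((p - 1 : ℕ) : ℝ≥0∞) * y) ^ Fintype.card ι) ^ (m + 1) := by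
  classical
  rw [← sum_cost, Finset.mul_sum]
  have hle : gf (MonoidHom.id (Lp p ι)) (Br πh (stdGen p ι : Set (Lp p ι)) m) y ≤
      ∑' g : Lp p ι, ∑ f : Fin (m + 1) → ι → Cp p,
        (if g = elem m f then y ^ m * y ^ cost m f else 0) := by
    refine ENNReal.tsum_le_tsum fun g => wt_le fun w hw hwg => ?_
    have hwg' : w.prod = g := hwg
    subst hwg'
    have h1 := supp_strip hw.1 hw.2.1
    have h2 : sh w.prod = m := hw.2.2
    have h3 : w.prod.pos = Multiplicative.ofAdd (m : ℤ) := Multiplicative.toAdd.injective h2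
    have h4 := length_ge hw.1
    rw [h2, Int.natAbs_natCast] at h4
    set f : Fin (m + 1) → ι → Cp p := fun n => w.prod.lamp (Multiplicative.ofAdd (n : ℤ)) with hf
    have h5 : w.prod = elem m f := by
      apply Wreath.ext _ h3
      funext β
      unfold elem
      simp only
      split_ifs with h
      · rw [hf]
        simp only
        congr 1
        apply Multiplicative.toAdd.injective
        rw [toAdd_ofAdd, Int.toNat_of_nonneg h.1]
      · by_contra hne
        apply h
        obtain ⟨i, hi⟩ : ∃ i, w.prod.lamp β i ≠ 1 := by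
          by_contra hcon
          push Not at hcon
          exact hne (funext hcon)
        exact h1 (β, i) (mem_supp.mpr hi)
    have h6 : cost m f ≤ (supp w.prod).card := by
      unfold cost
      refine Finset.card_le_card_of_injOn
        (fun x : Fin (m + 1) × ι => (Multiplicative.ofAdd ((x.1 : ℕ) : ℤ), x.2)) ?_ ?_
      · intro x hx
        rw [Finset.mem_coe, Finset.mem_filter] at hx
        rw [Finset.mem_coe, mem_supp]
        exact hx.2
      · intro x _ x' _ hxx
        simp only [Prod.mk.injEq, EmbeddingLike.apply_eq_iff_eq, Nat.cast_inj] at hxx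
        exact Prod.ext (Fin.ext hxx.1) hxx.2
    refine le_trans ?_ (Finset.single_le_sum (f := fun f => if w.prod = elem m f then
      y ^ m * y ^ cost m f else 0) (fun _ _ => zero_le) (Finset.mem_univ f))
    rw [if_pos h5, ← pow_add]
    exact pow_le_pow_right_of_le_one' hy (by omega)
  refine hle.trans ?_
  rw [Summable.tsum_finsetSum (fun _ _ => ENNReal.summable)]
  refine Finset.sum_le_sum fun f _ => ?_
  rw [tsum_ite_eq]

/-- Below the root of `x (1 + (p - 1) x)^r = 1` the growth series converges. -/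
theorem key_upper {x : ℝ} (hx0 : 0 < x) (hx1 : x < 1)
    (hx : x * (1 + (p - 1) * x) ^ Fintype.card ι < 1) : x * growthRate (stdGen p ι) < 1 := by
  classical
  by_contra hcon
  push Not at hcon
  set y := ENNReal.ofReal x with hy
  have hy1 : y ≤ 1 := by
    rw [hy, ← ENNReal.ofReal_one]; exact ENNReal.ofReal_le_ofReal hx1.le
  have hp1 : (1 : ℝ) ≤ p := by exact_mod_cast hp.out.one_le
  have hPx : 0 < 1 + ((p : ℝ) - 1) * x := by nlinarith
  have hfin : ∑' m : ℕ, gf (MonoidHom.id (Lp p ι))
      (Br πh (stdGen p ι : Set (Lp p ι)) m) y ≠ ∞ := by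
    refine ne_top_of_le_ne_top ?_ (ENNReal.tsum_le_tsum fun m => gf_Br_le hy1 m)
    have h1 : ∀ m : ℕ, y ^ m * ((1 + ((p - 1 : ℕ) : ℝ≥0∞) * y) ^ Fintype.card ι) ^ (m + 1) =
        ENNReal.ofReal ((x * (1 + (p - 1) * x) ^ Fintype.card ι) ^ m *
          (1 + (p - 1) * x) ^ Fintype.card ι) := by
      intro m
      have h2 : (1 + ((p - 1 : ℕ) : ℝ≥0∞) * y) = ENNReal.ofReal (1 + (p - 1) * x) := by
        rw [hy, ENNReal.ofReal_add zero_le_one (mul_nonneg (by linarith) hx0.le),
          ENNReal.ofReal_one, ENNReal.ofReal_mul (by linarith)]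
        congr 2
        have h3 : ((p : ℝ) - 1) = ((p - 1 : ℕ) : ℝ) := by
          rw [Nat.cast_sub hp.out.one_le]; simp
        rw [h3, ENNReal.ofReal_natCast]
      rw [h2, hy, ← ENNReal.ofReal_pow hx0.le, ← ENNReal.ofReal_pow hPx.le,
        ← ENNReal.ofReal_pow (by positivity), ← ENNReal.ofReal_mul (by positivity)]
      congr 1
      rw [mul_pow, pow_succ]
      ring
    rw [tsum_congr h1]
    apply Summable.tsum_ofReal_ne_top
    apply Summable.mul_right
    exact summable_geometric_of_lt_one (by positivity) hx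
  have h3 := gf_Ltr_ne_top πh (stdGen p ι : Set (Lp p ι))
    (MonoidHom.id (Lp p ι)) y hfin
  apply h3
  apply gf_Ltr_eq_top (MonoidHom.id (Lp p ι)) (stdGen p ι) hx0 hx1
  have h4 : (stdGen p ι).image (MonoidHom.id (Lp p ι)) = stdGen p ι := by
    ext g; simp
  rw [h4]
  exact hcon

/-- The function whose value at `1 / ω` is `1`. -/
noncomputable def hfun (P : ℝ) (r : ℕ) (x : ℝ) : ℝ := x * (1 + (P - 1) * x) ^ r

theorem hfun_strictMono {P : ℝ} (hP : 1 ≤ P) (r : ℕ) {x y : ℝ} (hx : 0 < x) (hxy : x < y) :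
    hfun P r x < hfun P r y := by
  unfold hfun
  have h1 : (1 + (P - 1) * x) ^ r ≤ (1 + (P - 1) * y) ^ r := by
    apply pow_le_pow_left₀
    · nlinarith
    · nlinarith
  have h2 : 0 < (1 + (P - 1) * x) ^ r := by
    have : 0 < 1 + (P - 1) * x := by nlinarith
    positivity
  calc x * (1 + (P - 1) * x) ^ r < y * (1 + (P - 1) * x) ^ r :=
        mul_lt_mul_of_pos_right hxy h2
    _ ≤ y * (1 + (P - 1) * y) ^ r := mul_le_mul_of_nonneg_left h1 (hx.trans hxy).le

omit [DecidableEq ι] in
theorem lower_at (hp3 : p ≤ 3) (S : Finset (Lp p ι))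
    (hS : Subgroup.closure (S : Set (Lp p ι)) = ⊤) :
    hfun p (Fintype.card ι) (1 / growthRate S) ≤ 1 := by
  have h0 : (0 : ℝ) < 1 / growthRate S := by
    have := growthRate_pos S
    positivity
  have hc : Tendsto (hfun p (Fintype.card ι)) (𝓝[<] (1 / growthRate S))
      (𝓝 (hfun p (Fintype.card ι) (1 / growthRate S))) := by
    have : Continuous (hfun p (Fintype.card ι)) := by
      unfold hfun
      fun_prop
    exact (this.tendsto _).mono_left nhdsWithin_le_nhds
  refine le_of_tendsto hc ?_
  filter_upwards [Ioo_mem_nhdsLT h0] with x hx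
  apply prime_lower hp3 S hS hx.1
  have := hx.2
  rwa [lt_div_iff₀ (growthRate_pos S)] at this

theorem upper_at : 1 ≤ hfun p (Fintype.card ι) (1 / growthRate (stdGen p ι)) := by
  by_contra hcon
  push Not at hcon
  have hlam1 : 1 ≤ growthRate (stdGen p ι) := one_le_growthRate _
  have hlam0 : 0 < growthRate (stdGen p ι) := by linarith
  rcases hlam1.lt_or_eq with h | h
  · have h1 := key_upper (p := p) (ι := ι) (x := 1 / growthRate (stdGen p ι)) (by positivity)
      (by rw [div_lt_one hlam0]; exact h) hcon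
    rw [one_div, inv_mul_cancel₀ hlam0.ne'] at h1
    exact lt_irrefl _ h1
  · rw [← h] at hcon
    unfold hfun at hcon
    have hp1 : (1 : ℝ) ≤ p := by exact_mod_cast hp.out.one_le
    have h2 : (1 : ℝ) ≤ (1 + ((p : ℝ) - 1) * (1 / 1)) ^ Fintype.card ι := by
      apply one_le_pow₀
      have h3 : (1 + ((p : ℝ) - 1) * (1 / 1)) = p := by ring
      rw [h3]
      exact hp1
    rw [one_div_one, one_mul] at hcon
    rw [one_div_one] at h2
    exact absurd h2 (not_le.mpr hcon)

theorem stdGen_min (hp3 : p ≤ 3) (S : Finset (Lp p ι))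
    (hS : Subgroup.closure (S : Set (Lp p ι)) = ⊤) :
    growthRate (stdGen p ι) ≤ growthRate S := by
  by_contra hcon
  push Not at hcon
  have hp1 : (1 : ℝ) ≤ p := by exact_mod_cast hp.out.one_le
  have h0 := growthRate_pos S
  have h1 := growthRate_pos (stdGen p ι)
  have h2 : 1 / growthRate (stdGen p ι) < 1 / growthRate S := one_div_lt_one_div_of_lt h0 hcon
  have h3 := hfun_strictMono hp1 (Fintype.card ι) (by positivity) h2
  have h4 := lower_at hp3 S hS
  have h5 := upper_at (p := p) (ι := ι)
  linarith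

theorem minGrowthRate_eq (hp3 : p ≤ 3) :
    minGrowthRate (Lp p ι) = growthRate (stdGen p ι) := by
  apply le_antisymm
  · exact csInf_le (bddBelow_rates _) ⟨stdGen p ι, stdGen_closure, rfl⟩
  · apply le_csInf
    · exact ⟨_, stdGen p ι, stdGen_closure, rfl⟩
    · rintro r ⟨S, hS, rfl⟩
      exact stdGen_min hp3 S hS

/-- The group `(ℤ/p)^ι ≀ ℤ` attains its minimal growth rate (`p ≤ 3`). -/
theorem attains (hp3 : p ≤ 3) : AttainsMinGrowth (Lp p ι) :=
  ⟨stdGen p ι, stdGen_closure, (minGrowthRate_eq hp3).symm⟩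

/-- The value of the minimal growth rate. -/
theorem minGrowthRate_root (hp3 : p ≤ 3) :
    minGrowthRate (Lp p ι) ^ (Fintype.card ι + 1) =
      (minGrowthRate (Lp p ι) + (p - 1)) ^ Fintype.card ι := by
  rw [minGrowthRate_eq hp3]
  have h1 := lower_at hp3 (stdGen p ι) (stdGen_closure (p := p) (ι := ι))
  have h2 := upper_at (p := p) (ι := ι)
  have h3 : hfun p (Fintype.card ι) (1 / growthRate (stdGen p ι)) = 1 := le_antisymm h1 h2
  have h0 := growthRate_pos (stdGen p ι)
  unfold hfun at h3
  have h4 : 1 / growthRate (stdGen p ι) *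
      (1 + ((p : ℝ) - 1) * (1 / growthRate (stdGen p ι))) ^ Fintype.card ι =
      (growthRate (stdGen p ι) + (p - 1)) ^ Fintype.card ι /
        growthRate (stdGen p ι) ^ (Fintype.card ι + 1) := by
    have h5 : (1 + ((p : ℝ) - 1) * (1 / growthRate (stdGen p ι))) =
        (growthRate (stdGen p ι) + (p - 1)) / growthRate (stdGen p ι) := by
      field_simp
    rw [h5, div_pow, pow_succ]
    field_simp
  rw [h4, div_eq_one_iff_eq (by positivity)] at h3
  exact h3.symm

end Lp

end Pool.Agent.MinGrowth
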