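import Pool.Agent.MinGrowth.Unfold

/-!
# Growth rates and the generating function of all words
-/

namespace Pool.Agent.MinGrowth

open Filter Topology
open scoped ENNReal

universe u v

variable {G : Type u} {H : Type v} [Group G] [Group H]

theorem tsum_ite_mem {α : Type*} {s : Set α} [DecidablePred (· ∈ s)] (hs : s.Finite) (c : ℝ≥0∞) :
    ∑' a : α, (if a ∈ s then c else 0) = s.ncard * c := by
  rw [tsum_eq_sum (s := hs.toFinset)]
  · rw [Finset.sum_congr rfl (g := fun _ => c)]
    · rw [Finset.sum_const, nsmul_eq_mul, Set.ncard_eq_toFinset_card s hs]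
    · intro a ha
      rw [if_pos (hs.mem_toFinset.mp ha)]
  · intro a ha
    rw [if_neg]
    intro h
    exact ha (hs.mem_toFinset.mpr h)

/-- Below the critical point the generating function of all words is finite. -/
theorem gf_Ltr_ne_top_of_lt (S : Finset G) {x : ℝ} (hx0 : 0 < x)
    (hx : x * growthRate S < 1) :
    gf (MonoidHom.id G) (Ltr (S : Set G)) (ENNReal.ofReal x) ≠ ∞ := by
  classical
  have hle : gf (MonoidHom.id G) (Ltr (S : Set G)) (ENNReal.ofReal x) ≤
      ∑' n : ℕ, (growthFn S n : ℝ≥0∞) * ENNReal.ofReal x ^ n := by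
    have h1 : ∀ n : ℕ, (growthFn S n : ℝ≥0∞) * ENNReal.ofReal x ^ n =
        ∑' g : G, (if g ∈ wordBall (S : Set G) n then ENNReal.ofReal x ^ n else 0) := by
      intro n
      rw [tsum_ite_mem (wordBall_finite S.finite_toSet n)]
      rfl
    rw [tsum_congr h1, ENNReal.tsum_comm]
    refine ENNReal.tsum_le_tsum fun g => wt_le fun w hw hh => ?_
    refine le_trans ?_ (ENNReal.le_tsum w.length)
    rw [if_pos]
    exact ⟨w, le_rfl, hw, hh⟩
  refine ne_top_of_le_ne_top ?_ hle
  obtain ⟨r, hr1, hr2⟩ : ∃ r : ℝ, growthRate S < r ∧ x * r < 1 := by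
    refine ⟨(growthRate S + 1 / x) / 2, ?_, ?_⟩
    · have : growthRate S < 1 / x := by rw [lt_div_iff₀ hx0]; linarith
      linarith
    · have : x * (1 / x) = 1 := by field_simp
      nlinarith
  have hr0 : 0 < r := (growthRate_pos S).trans hr1
  have hsum : Summable (fun n : ℕ => (growthFn S n : ℝ) * x ^ n) := by
    refine Summable.of_norm_bounded_eventually_nat (g := fun n => (x * r) ^ n)
      (summable_geometric_of_lt_one (by positivity) hr2) ?_
    filter_upwards [growthFn_eventually_le S hr1] with n hn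
    rw [Real.norm_of_nonneg (by positivity), mul_pow, mul_comm (x ^ n)]
    exact mul_le_mul_of_nonneg_right hn (by positivity)
  have h2 : ∀ n : ℕ, (growthFn S n : ℝ≥0∞) * ENNReal.ofReal x ^ n =
      ENNReal.ofReal ((growthFn S n : ℝ) * x ^ n) := by
    intro n
    rw [ENNReal.ofReal_mul (Nat.cast_nonneg _), ENNReal.ofReal_natCast,
      ENNReal.ofReal_pow hx0.le]
  rw [tsum_congr h2]
  exact hsum.tsum_ofReal_ne_top

/-- At the critical point the generating function of all words is infinite. -/
theorem gf_Ltr_eq_top [DecidableEq H] (φ : G →* H) (S : Finset G) {x : ℝ} (hx0 : 0 < x)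
    (hx1 : x < 1) (hx : 1 ≤ x * growthRate (S.image φ)) :
    gf φ (Ltr (S : Set G)) (ENNReal.ofReal x) = ∞ := by
  classical
  by_contra hcon
  set y := ENNReal.ofReal x with hy
  have hy1 : y < 1 := by rw [hy, ENNReal.ofReal_lt_one]; exact hx1
  -- the sum over all balls
  have hle : ∑' n : ℕ, (growthFn (S.image φ) n : ℝ≥0∞) * y ^ n ≤
      gf φ (Ltr (S : Set G)) y * (1 - y)⁻¹ := by
    have h1 : ∀ n : ℕ, (growthFn (S.image φ) n : ℝ≥0∞) * y ^ n =
        ∑' g : H, (if g ∈ wordBall ((S.image φ : Finset H) : Set H) n then y ^ n else 0) := by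
      intro n
      rw [tsum_ite_mem (wordBall_finite (S.image φ).finite_toSet n)]
      rfl
    rw [tsum_congr h1, ENNReal.tsum_comm]
    unfold gf
    rw [← ENNReal.tsum_mul_right]
    refine ENNReal.tsum_le_tsum fun g => ?_
    by_cases hg : ∃ n, g ∈ wordBall ((S.image φ : Finset H) : Set H) n
    · have hspec := Nat.find_spec hg
      have hmin : ∀ n, g ∈ wordBall ((S.image φ : Finset H) : Set H) n → Nat.find hg ≤ n :=
        fun n hn => Nat.find_min' hg hn
      set n0 := Nat.find hg
      have h2 : y ^ n0 ≤ wt φ (Ltr (S : Set G)) y g := by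
        have h3 : g ∈ φ '' wordBall (S : Set G) n0 := by
          rw [← wordBall_image, ← Finset.coe_image]; exact hspec
        obtain ⟨_, ⟨l, hl, hS, rfl⟩, hlg⟩ := h3
        refine le_trans ?_ (le_wt y (w := l) hS hlg)
        exact pow_le_pow_right_of_le_one' hy1.le hl
      calc ∑' n : ℕ, (if g ∈ wordBall ((S.image φ : Finset H) : Set H) n then y ^ n else 0)
          ≤ ∑' n : ℕ, (if n0 ≤ n then y ^ n else 0) := by
            refine ENNReal.tsum_le_tsum fun n => ?_
            split_ifs with h4 h5
            · exact le_rfl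
            · exact absurd (hmin n h4) h5
            · exact zero_le
            · exact le_rfl
        _ = ∑' k : ℕ, y ^ (k + n0) := by
            rw [← Summable.sum_add_tsum_nat_add'
              (f := fun n : ℕ => if n0 ≤ n then y ^ n else 0) (k := n0) ENNReal.summable]
            rw [Finset.sum_eq_zero, zero_add]
            · refine tsum_congr fun k => ?_
              rw [if_pos (Nat.le_add_left _ _)]
            · intro i hi
              rw [if_neg (not_le.mpr (Finset.mem_range.mp hi))]
        _ = y ^ n0 * (1 - y)⁻¹ := by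
            rw [← ENNReal.tsum_geometric, ← ENNReal.tsum_mul_left]
            refine tsum_congr fun k => ?_
            rw [pow_add, mul_comm]
        _ ≤ _ := mul_le_mul' h2 le_rfl
    · push Not at hg
      have : ∑' n : ℕ, (if g ∈ wordBall ((S.image φ : Finset H) : Set H) n then y ^ n else 0)
          = 0 := by
        rw [ENNReal.tsum_eq_zero]
        intro n
        rw [if_neg (hg n)]
      rw [this]
      exact zero_le
  have h1y : (1 - y)⁻¹ ≠ ∞ := by
    rw [ENNReal.inv_ne_top]
    exact (tsub_pos_of_lt hy1).ne'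
  have hfin : ∑' n : ℕ, (growthFn (S.image φ) n : ℝ≥0∞) * y ^ n ≠ ∞ :=
    ne_top_of_le_ne_top (ENNReal.mul_ne_top hcon h1y) hle
  apply hfin
  refine top_le_iff.mp ?_
  rw [← ENNReal.tsum_const_eq_top_of_ne_zero (α := ℕ) one_ne_zero]
  refine ENNReal.tsum_le_tsum fun n => ?_
  have h2 : (growthFn (S.image φ) n : ℝ≥0∞) * y ^ n =
      ENNReal.ofReal ((growthFn (S.image φ) n : ℝ) * x ^ n) := by
    rw [ENNReal.ofReal_mul (Nat.cast_nonneg _), ENNReal.ofReal_natCast,
      ENNReal.ofReal_pow hx0.le]
  rw [h2, ← ENNReal.ofReal_one]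
  apply ENNReal.ofReal_le_ofReal
  calc (1 : ℝ) ≤ (x * growthRate (S.image φ)) ^ n := one_le_pow₀ hx
    _ = growthRate (S.image φ) ^ n * x ^ n := by rw [mul_pow, mul_comm]
    _ ≤ _ := mul_le_mul_of_nonneg_right (growthRate_pow_le _ n) (by positivity)

end Pool.Agent.MinGrowth
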