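import Pool.Agent.MinGrowth.Rates

/-!
# A criterion for growth tightness
-/

namespace Pool.Agent.MinGrowth

open Filter Topology
open scoped ENNReal

universe u v

variable {G : Type u} {H : Type v} [Group G] [Group H]

theorem wt_mul_le {φ : G →* H} {P : List G → Prop} {x : ℝ≥0∞} {h : H} {C D : ℝ≥0∞}
    (hC : ∀ w, P w → φ w.prod = h → x ^ w.length * C ≤ D) : wt φ P x h * C ≤ D := by
  unfold wt
  rw [ENNReal.iSup_mul]
  refine iSup_le fun w => ?_
  rw [ENNReal.iSup_mul]
  exact iSup_le fun hw => hC w hw.1 hw.2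

theorem exists_of_wt_ne_zero {φ : G →* H} {P : List G → Prop} {x : ℝ≥0∞} {h : H}
    (hw : wt φ P x h ≠ 0) : ∃ w, P w ∧ φ w.prod = h := by
  by_contra hcon
  push Not at hcon
  apply hw
  unfold wt
  simp only [ENNReal.iSup_eq_zero]
  intro w hw
  exact absurd hw.2 (hcon w hw.1)

/-- Free concatenation of bridges forces the bridge generating functions to be bounded. -/
theorem br_bound (π : G →* Multiplicative ℤ) (S : Set G) {x : ℝ≥0∞}
    (hfin : gf (MonoidHom.id G) (Ltr S) x ≠ ∞) (hx0 : x ≠ 0)
    {τ : List G} (hτ : Ltr S τ) {Y : Set G} (hY : ∃ w, Ltr S w ∧ w.prod ∈ Y)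
    (hcl : ∀ m w y, Br π S m w → y ∈ Y → w.prod * τ.prod * y ∈ Y)
    (hinj : ∀ m w w' y y', Br π S m w → Br π S m w' → y ∈ Y → y' ∈ Y →
      w.prod * τ.prod * y = w'.prod * τ.prod * y' → w.prod = w'.prod) (m : ℕ) :
    gf (MonoidHom.id G) (Br π S m) x * x ^ τ.length ≤ 1 := by
  set PY : List G → Prop := fun w => Ltr S w ∧ w.prod ∈ Y with hPY
  have hkey : gf (MonoidHom.id G) (Br π S m) x * x ^ τ.length * gf (MonoidHom.id G) PY x ≤
      gf (MonoidHom.id G) PY x := by
    set f : G × G → ℝ≥0∞ := fun p => wt (MonoidHom.id G) (Br π S m) x p.1 *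
      (wt (MonoidHom.id G) PY x p.2 * x ^ τ.length) with hf
    have h1 : gf (MonoidHom.id G) (Br π S m) x * x ^ τ.length * gf (MonoidHom.id G) PY x =
        ∑' p : G × G, f p := by
      rw [ENNReal.tsum_prod']
      unfold gf
      rw [mul_assoc, mul_comm (x ^ τ.length), ← ENNReal.tsum_mul_right, ← ENNReal.tsum_mul_right]
      refine tsum_congr fun a => ?_
      rw [← ENNReal.tsum_mul_left]
    rw [h1, ← tsum_subtype_support f]
    have hsupp : ∀ p : Function.support f, (∃ w, Br π S m w ∧ w.prod = p.1.1) ∧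
        (∃ w, PY w ∧ w.prod = p.1.2) := by
      intro p
      have hp := p.2
      rw [Function.mem_support] at hp
      constructor
      · exact exists_of_wt_ne_zero (φ := MonoidHom.id G) (left_ne_zero_of_mul hp)
      · exact exists_of_wt_ne_zero (φ := MonoidHom.id G)
          (left_ne_zero_of_mul (right_ne_zero_of_mul hp))
    calc ∑' p : Function.support f, f p
        ≤ ∑' p : Function.support f,
            wt (MonoidHom.id G) PY x (p.1.1 * τ.prod * p.1.2) := by
          refine ENNReal.tsum_le_tsum fun p => ?_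
          simp only [hf]
          refine wt_mul_le fun w hw hwp => ?_
          rw [mul_comm]
          rw [mul_assoc]
          refine wt_mul_le fun w' hw' hwp' => ?_
          rw [← pow_add, ← pow_add]
          have hlen : w'.length + (τ.length + w.length) = (w ++ τ ++ w').length := by
            simp only [List.length_append]; omega
          rw [hlen]
          have hprod : (w ++ τ ++ w').prod = p.1.1 * τ.prod * p.1.2 := by
            rw [List.prod_append, List.prod_append]
            have h2 : w.prod = p.1.1 := hwp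
            have h3 : w'.prod = p.1.2 := hwp'
            rw [h2, h3]
          refine le_wt x ⟨(hw.1.append hτ).append hw'.1, ?_⟩ hprod
          rw [List.prod_append, List.prod_append]
          exact hcl m w _ hw hw'.2
      _ ≤ ∑' g : G, wt (MonoidHom.id G) PY x g := by
          refine ENNReal.tsum_comp_le_tsum_of_injective
            (f := fun p : Function.support f => p.1.1 * τ.prod * p.1.2) ?_
            (fun g => wt (MonoidHom.id G) PY x g)
          intro p q hpq
          simp only at hpq
          obtain ⟨⟨w, hw, hwp⟩, ⟨y, hy, hyp⟩⟩ := hsupp p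
          obtain ⟨⟨w', hw', hwq⟩, ⟨y', hy', hyq⟩⟩ := hsupp q
          have h1 : w.prod = w'.prod := by
            apply hinj m w w' y.prod y'.prod hw hw' hy.2 hy'.2
            rw [hwp, hyp, hwq, hyq]
            exact hpq
          have h2 : p.1.1 = q.1.1 := by rw [← hwp, ← hwq, h1]
          have h3 : p.1.2 = q.1.2 := by
            rw [h2] at hpq
            exact mul_left_cancel hpq
          exact Subtype.ext (Prod.ext h2 h3)
  have hfin2 : gf (MonoidHom.id G) PY x ≠ ∞ :=
    ne_top_of_le_ne_top hfin (gf_mono x fun w hw => hw.1)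
  have hpos : gf (MonoidHom.id G) PY x ≠ 0 := by
    obtain ⟨w, hw1, hw2⟩ := hY
    have := le_gf (φ := MonoidHom.id G) (P := PY) x (w := w) ⟨hw1, hw2⟩
    intro h0
    rw [h0] at this
    exact (pow_ne_zero _ hx0) (le_zero_iff.mp this)
  by_contra hcon
  push Not at hcon
  have h5 : gf (MonoidHom.id G) PY x <
      gf (MonoidHom.id G) (Br π S m) x * x ^ τ.length * gf (MonoidHom.id G) PY x := by
    conv_lhs => rw [← one_mul (gf (MonoidHom.id G) PY x)]
    exact ENNReal.mul_lt_mul_left hpos hfin2 hcon
  exact absurd hkey (not_le.mpr h5)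

/-- The subgroup generated by the conjugates of `ν` by elements of height at least `n`. -/
def NN (π : G →* Multiplicative ℤ) (ν : G) (n : ℤ) : Subgroup G :=
  Subgroup.closure {k | ∃ g, n ≤ ht π g ∧ k = g * ν * g⁻¹}

theorem NN_anti (π : G →* Multiplicative ℤ) (ν : G) {m n : ℤ} (h : m ≤ n) :
    NN π ν n ≤ NN π ν m :=
  Subgroup.closure_mono fun _ ⟨g, hg, hk⟩ => ⟨g, h.trans hg, hk⟩

theorem conj_mem_NN (π : G →* Multiplicative ℤ) (ν : G) {n : ℤ} {k : G} (hk : k ∈ NN π ν n)
    (u : G) : u * k * u⁻¹ ∈ NN π ν (ht π u + n) := by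
  unfold NN at hk ⊢
  induction hk using Subgroup.closure_induction with
  | mem k hk =>
    obtain ⟨g, hg, rfl⟩ := hk
    apply Subgroup.subset_closure
    refine ⟨u * g, ?_, ?_⟩
    · rw [ht_mul]; linarith
    · group
  | one => simp
  | mul a b _ _ iha ihb =>
    have : u * (a * b) * u⁻¹ = (u * a * u⁻¹) * (u * b * u⁻¹) := by group
    rw [this]
    exact Subgroup.mul_mem _ iha ihb
  | inv a _ iha =>
    have : u * a⁻¹ * u⁻¹ = (u * a * u⁻¹)⁻¹ := by group
    rw [this]
    exact Subgroup.inv_mem _ iha

/-- A path that passes from `c` to a height at least `j` visits `[j, j + D]`. -/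
theorem exists_crossing (π : G →* Multiplicative ℤ) {D : ℤ} (w : List G)
    (hD : ∀ s ∈ w, |ht π s| ≤ D) (hD0 : 0 ≤ D) (c j : ℤ) (hc : c ≤ j)
    (hj : j ≤ c + ht π w.prod) :
    ∃ u v, w = u ++ v ∧ j ≤ c + ht π u.prod ∧ c + ht π u.prod ≤ j + D := by
  induction w generalizing c with
  | nil =>
    refine ⟨[], [], rfl, hj, ?_⟩
    simp; linarith
  | cons s w ih =>
    by_cases hs : j ≤ c + ht π s
    · refine ⟨[s], w, rfl, by simpa using hs, ?_⟩
      have := abs_le.mp (hD s (by simp))
      simp; linarith [this.2]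
    · push Not at hs
      obtain ⟨u, v, huv, h1, h2⟩ := ih (fun t ht => hD t (List.mem_cons_of_mem _ ht))
        (c + ht π s) hs.le (by rw [List.prod_cons, ht_mul] at hj; linarith)
      refine ⟨s :: u, v, by rw [huv]; rfl, ?_, ?_⟩
      · rw [List.prod_cons, ht_mul]; linarith
      · rw [List.prod_cons, ht_mul]; linarith

/-- Inserting a kernel element at `q` spaced heights. -/
theorem insertion (π : G →* Multiplicative ℤ) (φ : G →* H) (S : Set G) {D : ℤ} (hD0 : 0 ≤ D)
    (hD : ∀ s, s ∈ S ∨ s⁻¹ ∈ S → |ht π s| ≤ D) {wν : List G} (hν : Ltr S wν)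
    (hφν : φ wν.prod = 1) (hν0 : ht π wν.prod = 0) {e : ℤ}
    (he : ∀ u v, wν = u ++ v → |ht π u.prod| ≤ e) {Δ : ℤ} (hΔ : D ≤ Δ)
    (hνN : wν.prod ∉ NN π wν.prod (Δ - D)) (lo hi : ℤ) (x : ℝ≥0∞) (q : ℕ) :
    ∀ (c j : ℤ) (w : List G), Ltr S w → Strip π lo hi c w → c ≤ j → lo ≤ j - e →
      j + q * Δ ≤ c + ht π w.prod → j + q * Δ + D + e ≤ hi →
      ∃ (ι : Type) (_ : Fintype ι) (W : ι → List G),
        (∀ i, Ltr S (W i) ∧ Strip π lo hi c (W i) ∧ ht π (W i).prod = ht π w.prod ∧
          φ (W i).prod = φ w.prod ∧ (W i).prod * w.prod⁻¹ ∈ NN π wν.prod (j - c)) ∧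
        Function.Injective (fun i => (W i).prod) ∧
        ∑ i, x ^ (W i).length = x ^ w.length * (1 + x ^ wν.length) ^ q := by
  induction q with
  | zero =>
    intro c j w hw hst _ _ _ _
    refine ⟨Unit, inferInstance, fun _ => w, fun _ => ⟨hw, hst, rfl, rfl, ?_⟩, ?_, ?_⟩
    · rw [mul_inv_cancel]; exact Subgroup.one_mem _
    · intro a b _; rfl
    · simp
  | succ q ih =>
    intro c j w hw hst hcj hlo hend hhi
    have hΔ0 : 0 ≤ Δ := hD0.trans hΔ
    have hqΔ : 0 ≤ (q : ℤ) * Δ := mul_nonneg (Nat.cast_nonneg _) hΔ0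
    push_cast at hend hhi
    have hj1 : j ≤ c + ht π w.prod := by nlinarith
    obtain ⟨u, v, rfl, hu1, hu2⟩ := exists_crossing π w (fun s hs => hD s (hw s hs)) hD0 c j
      hcj hj1
    obtain ⟨ι, hι, W, hW, hinj, hsum⟩ := ih (c + ht π u.prod) (j + Δ) v hw.append_right
      hst.right (by linarith) (by linarith)
      (by rw [List.prod_append, ht_mul] at hend; linarith)
      (by linarith)
    refine ⟨ι ⊕ ι, inferInstance, Sum.elim (fun i => u ++ W i) (fun i => u ++ (wν ++ W i)),
      ?_, ?_, ?_⟩
    · have hNu : ∀ i, u.prod * ((W i).prod * v.prod⁻¹) * u.prod⁻¹ ∈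
          NN π wν.prod (j - c) := by
        intro i
        have h1 := conj_mem_NN π wν.prod (hW i).2.2.2.2 u.prod
        refine NN_anti π wν.prod ?_ h1
        linarith
      rintro (i | i)
      · obtain ⟨h1, h2, h3, h4, h5⟩ := hW i
        refine ⟨hw.append_left.append h1, hst.left.append h2, ?_, ?_, ?_⟩
        · simp only [Sum.elim_inl, List.prod_append, ht_mul, h3]
        · simp only [Sum.elim_inl, List.prod_append, map_mul, h4]
        · have : (Sum.elim (fun i => u ++ W i) (fun i => u ++ (wν ++ W i)) (Sum.inl i)).prod *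
              (u ++ v).prod⁻¹ = u.prod * ((W i).prod * v.prod⁻¹) * u.prod⁻¹ := by
            simp only [Sum.elim_inl, List.prod_append]; group
          rw [this]
          exact hNu i
      · obtain ⟨h1, h2, h3, h4, h5⟩ := hW i
        refine ⟨hw.append_left.append (hν.append h1), hst.left.append (Strip.append ?_ ?_),
          ?_, ?_, ?_⟩
        · intro p r hpr
          have := abs_le.mp (he p r hpr)
          constructor
          · linarith [this.1]
          · linarith [this.2]
        · rw [hν0, add_zero]; exact h2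
        · simp only [Sum.elim_inr, List.prod_append, ht_mul, h3, hν0, zero_add]
        · simp only [Sum.elim_inr, List.prod_append, map_mul, h4, hφν, one_mul]
        · have : (Sum.elim (fun i => u ++ W i) (fun i => u ++ (wν ++ W i)) (Sum.inr i)).prod *
              (u ++ v).prod⁻¹ = (u.prod * wν.prod * u.prod⁻¹) *
                (u.prod * ((W i).prod * v.prod⁻¹) * u.prod⁻¹) := by
            simp only [Sum.elim_inr, List.prod_append]; group
          rw [this]
          refine Subgroup.mul_mem _ (Subgroup.subset_closure ⟨u.prod, by linarith, rfl⟩) (hNu i)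
    · have hno : ∀ i i', (u ++ W i).prod ≠ (u ++ (wν ++ W i')).prod := by
        intro i i' h
        apply hνN
        have h1 : wν.prod = ((W i).prod * v.prod⁻¹) * ((W i').prod * v.prod⁻¹)⁻¹ := by
          rw [List.prod_append, List.prod_append, List.prod_append] at h
          have h2 := mul_left_cancel h
          rw [h2]; group
        have h3 : ((W i).prod * v.prod⁻¹) * ((W i').prod * v.prod⁻¹)⁻¹ ∈
            NN π wν.prod (Δ - D) := by
          refine Subgroup.mul_mem _ ?_ (Subgroup.inv_mem _ ?_)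
          · exact NN_anti π wν.prod (by linarith) (hW i).2.2.2.2
          · exact NN_anti π wν.prod (by linarith) (hW i').2.2.2.2
        rwa [← h1] at h3
      rintro (i | i) (i' | i') h
      · simp only [Sum.elim_inl, List.prod_append] at h
        rw [hinj (mul_left_cancel h)]
      · exact absurd h (hno i i')
      · exact absurd h.symm (hno i' i)
      · simp only [Sum.elim_inr, List.prod_append] at h
        rw [hinj (mul_left_cancel (mul_left_cancel h))]
    · rw [Fintype.sum_sum_type]
      simp only [Sum.elim_inl, Sum.elim_inr, List.length_append, pow_add, ← Finset.mul_sum, hsum]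
      ring

theorem tsum_fiber [DecidableEq H] (φ : G →* H) (f : G → ℝ≥0∞) :
    ∑' h : H, ∑' g : G, (if φ g = h then f g else 0) = ∑' g : G, f g := by
  rw [ENNReal.tsum_comm]
  refine tsum_congr fun g => ?_
  rw [tsum_eq_single (φ g)]
  · simp
  · intro h hh
    rw [if_neg (Ne.symm hh)]

theorem gf_le_gf_id (φ : G →* H) (P : List G → Prop) (x : ℝ≥0∞) :
    gf φ P x ≤ gf (MonoidHom.id G) P x := by
  classical
  unfold gf
  rw [← tsum_fiber φ]
  refine ENNReal.tsum_le_tsum fun h => wt_le fun w hw hh => ?_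
  refine le_trans ?_ (ENNReal.le_tsum w.prod)
  rw [if_pos hh]
  exact le_wt x hw rfl

/-- The insertion inequality for bridge generating functions. -/
theorem gf_Br_insertion (π : G →* Multiplicative ℤ) (φ : G →* H) (S : Set G) {D : ℤ}
    (hD0 : 0 ≤ D)
    (hD : ∀ s, s ∈ S ∨ s⁻¹ ∈ S → |ht π s| ≤ D) {wν : List G} (hν : Ltr S wν)
    (hφν : φ wν.prod = 1) (hν0 : ht π wν.prod = 0) {e : ℤ} (he0 : 0 ≤ e)
    (he : ∀ u v, wν = u ++ v → |ht π u.prod| ≤ e) {Δ : ℤ} (hΔ : D ≤ Δ)
    (hνN : wν.prod ∉ NN π wν.prod (Δ - D)) (x : ℝ≥0∞) (q m : ℕ)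
    (hm : e + q * Δ + D + e ≤ m) :
    gf φ (Br π S m) x * (1 + x ^ wν.length) ^ q ≤ gf (MonoidHom.id G) (Br π S m) x := by
  classical
  unfold gf
  rw [← tsum_fiber φ, ← ENNReal.tsum_mul_right]
  refine ENNReal.tsum_le_tsum fun h => wt_mul_le fun w hw hh => ?_
  have hqΔ : 0 ≤ (q : ℤ) * Δ := mul_nonneg (Nat.cast_nonneg _) (hD0.trans hΔ)
  obtain ⟨ι, hι, W, hW, hinj, hsum⟩ := insertion π φ S hD0 hD hν hφν hν0 he hΔ hνN 0 m x q
    0 e w hw.1 hw.2.1 he0 (by linarith) (by rw [hw.2.2]; linarith) hm
  rw [← hsum]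
  calc ∑ i, x ^ (W i).length
      ≤ ∑ i, (fun g : G => if φ g = h then wt (MonoidHom.id G) (Br π S m) x g else 0)
          ((W i).prod) := by
        refine Finset.sum_le_sum fun i _ => ?_
        obtain ⟨h1, h2, h3, h4, -⟩ := hW i
        simp only
        rw [if_pos (h4.trans hh)]
        exact le_wt x ⟨h1, h2, h3.trans hw.2.2⟩ rfl
    _ = ∑' i, (fun g : G => if φ g = h then wt (MonoidHom.id G) (Br π S m) x g else 0)
          ((W i).prod) := (tsum_fintype _).symm
    _ ≤ _ := ENNReal.tsum_comp_le_tsum_of_injective hinj _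

theorem exists_word {S : Set G} (hS : Subgroup.closure S = ⊤) (g : G) :
    ∃ w, Ltr S w ∧ w.prod = g := by
  have hg : g ∈ Subgroup.closure S := by rw [hS]; trivial
  clear hS
  induction hg using Subgroup.closure_induction with
  | mem g hg => exact ⟨[g], fun s hs => by simp at hs; rw [hs]; exact Or.inl hg, by simp⟩
  | one => exact ⟨[], fun s hs => by simp at hs, rfl⟩
  | mul a b _ _ iha ihb =>
    obtain ⟨u, hu, rfl⟩ := iha
    obtain ⟨v, hv, rfl⟩ := ihb
    exact ⟨u ++ v, hu.append hv, List.prod_append⟩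
  | inv a _ iha =>
    obtain ⟨u, hu, rfl⟩ := iha
    exact ⟨rv u, hu.rv, rv_prod u⟩

theorem ht_word_le (π : G →* Multiplicative ℤ) {S : Set G} {D : ℤ}
    (hD : ∀ s, s ∈ S ∨ s⁻¹ ∈ S → |ht π s| ≤ D) {w : List G} (hw : Ltr S w) :
    |ht π w.prod| ≤ w.length * D := by
  induction w with
  | nil => simp
  | cons s w ih =>
    have h1 := ih (fun t ht => hw t (List.mem_cons_of_mem _ ht))
    have h2 := hD s (hw s (by simp))
    rw [List.prod_cons, ht_mul, List.length_cons]
    push_cast
    calc |ht π s + ht π w.prod| ≤ |ht π s| + |ht π w.prod| := abs_add_le _ _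
      _ ≤ D + w.length * D := add_le_add h2 h1
      _ = _ := by ring

/-- **Criterion for growth tightness.** -/
theorem growthRate_image_lt [DecidableEq H] (π : G →* Multiplicative ℤ) (φ : G →* H)
    (S : Finset G) (hS : Subgroup.closure (S : Set G) = ⊤) (hπ : ∃ g, ht π g ≠ 0)
    {ν : G} (hν0 : ht π ν = 0) (hφν : φ ν = 1) {a : ℤ} (hνa : ν ∉ NN π ν a)
    {τ : G} {Y : Set G} (hY : Y.Nonempty)
    (hcl : ∀ m w y, Br π (S : Set G) m w → y ∈ Y → w.prod * τ * y ∈ Y)
    (hinj : ∀ m w w' y y', Br π (S : Set G) m w → Br π (S : Set G) m w' → y ∈ Y → y' ∈ Y →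
      w.prod * τ * y = w'.prod * τ * y' → w.prod = w'.prod) :
    growthRate (S.image φ) < growthRate S := by
  by_contra hcon
  push Not at hcon
  obtain ⟨wν, hwν, rfl⟩ := exists_word hS ν
  obtain ⟨wτ, hwτ, rfl⟩ := exists_word hS τ
  obtain ⟨y0, hy0⟩ := hY
  obtain ⟨wy, hwy, rfl⟩ := exists_word hS y0
  -- the bound on the heights of letters
  obtain ⟨D, hD1, hD⟩ : ∃ D : ℕ, 1 ≤ D ∧ ∀ s, s ∈ (S : Set G) ∨ s⁻¹ ∈ (S : Set G) →
      |ht π s| ≤ (D : ℤ) := by
    refine ⟨(∑ s ∈ S, (ht π s).natAbs) + 1, by omega, ?_⟩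
    have h1 : ∀ s ∈ S, |ht π s| ≤ ((∑ s ∈ S, (ht π s).natAbs : ℕ) : ℤ) := by
      intro s hs
      rw [Int.abs_eq_natAbs]
      exact_mod_cast Finset.single_le_sum (f := fun s => (ht π s).natAbs)
        (fun _ _ => Nat.zero_le _) hs
    intro s hs
    push_cast at h1 ⊢
    rcases hs with hs | hs
    · have := h1 s hs; linarith
    · have := h1 _ hs
      rw [ht_inv, abs_neg] at this
      linarith
  have hD0 : (0 : ℤ) ≤ D := Nat.cast_nonneg _
  set L := wν.length with hL
  set c := wτ.length with hc
  set e : ℕ := L * D with he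
  have hebound : ∀ u v, wν = u ++ v → |ht π u.prod| ≤ (e : ℤ) := by
    intro u v huv
    have h1 := ht_word_le π hD (w := u) (by rw [huv] at hwν; exact hwν.append_left)
    refine h1.trans ?_
    rw [he]
    push_cast
    apply mul_le_mul_of_nonneg_right _ hD0
    have : u.length ≤ L := by rw [hL, huv, List.length_append]; omega
    exact_mod_cast this
  set Δ : ℕ := D + a.toNat with hΔ
  have hΔD : (D : ℤ) ≤ (Δ : ℤ) := by rw [hΔ]; push_cast; linarith [Int.natCast_nonneg a.toNat]
  have hΔpos : 0 < Δ := by omega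
  have hνN : wν.prod ∉ NN π wν.prod ((Δ : ℤ) - D) := by
    intro h
    apply hνa
    refine NN_anti π wν.prod ?_ h
    rw [hΔ]; push_cast
    have := Int.self_le_toNat a
    linarith
  set K : ℕ := 2 * e + D with hK
  -- the critical point
  set lam := growthRate (S.image φ) with hlam
  have hlam1 : 1 ≤ lam := one_le_growthRate _
  have hlam0 : 0 < lam := by linarith
  set xc : ℝ := 1 / lam with hxc
  have hxc0 : 0 < xc := by positivity
  have hxc1 : xc ≤ 1 := by rw [hxc, div_le_one hlam0]; exact hlam1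
  set y : ℝ := xc / 2 with hy
  have hy0' : 0 < y := by positivity
  have hyxc : y < xc := by rw [hy]; linarith
  -- the rate of decay
  set ρ : ℝ := (1 + y ^ L) ^ (1 / (Δ : ℝ)) with hρ
  have hbase : 1 < 1 + y ^ L := by have : 0 < y ^ L := by positivity
                                   linarith
  have hρ1 : 1 < ρ := Real.one_lt_rpow hbase (by positivity)
  have hρΔ : ρ ^ Δ = 1 + y ^ L := by
    rw [hρ, ← Real.rpow_natCast, ← Real.rpow_mul (by positivity), one_div,
      inv_mul_cancel₀ (by exact_mod_cast hΔpos.ne'), Real.rpow_one]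
  -- main estimate at `z` in `(y, xc)`
  have hmain : ∀ z : ℝ, y < z → z < xc → ∀ m : ℕ,
      gf φ (Br π (S : Set G) m) (ENNReal.ofReal z) ≤
        ENNReal.ofReal (ρ ^ (K + Δ) / (y ^ c) * (ρ⁻¹) ^ m) := by
    intro z hz1 hz2 m
    have hz0 : 0 < z := hy0'.trans hz1
    have hfin : gf (MonoidHom.id G) (Ltr (S : Set G)) (ENNReal.ofReal z) ≠ ∞ := by
      apply gf_Ltr_ne_top_of_lt S hz0
      calc z * growthRate S ≤ z * lam := mul_le_mul_of_nonneg_left hcon hz0.le
        _ < xc * lam := mul_lt_mul_of_pos_right hz2 hlam0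
        _ = 1 := by rw [hxc]; field_simp
    have hx0 : ENNReal.ofReal z ≠ 0 := by
      rw [Ne, ENNReal.ofReal_eq_zero]; linarith
    have h1 := br_bound π (S : Set G) hfin hx0 hwτ ⟨wy, hwy, hy0⟩ hcl hinj m
    -- number of sites
    set q : ℕ := (m - K) / Δ with hq
    have h2 : gf φ (Br π (S : Set G) m) (ENNReal.ofReal z) * (1 + ENNReal.ofReal z ^ L) ^ q ≤
        gf (MonoidHom.id G) (Br π (S : Set G) m) (ENNReal.ofReal z) := by
      rcases Nat.lt_or_ge m K with hmK | hmK
      · have : q = 0 := by rw [hq, Nat.sub_eq_zero_of_le hmK.le, Nat.zero_div]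
        rw [this, pow_zero, mul_one]
        exact gf_le_gf_id φ _ _
      · apply gf_Br_insertion π φ (S : Set G) hD0 hD hwν hφν hν0
          (Nat.cast_nonneg e) hebound hΔD hνN
        have h3 : q * Δ ≤ m - K := Nat.div_mul_le_self _ _
        have h4 : e + q * Δ + D + e ≤ m := by omega
        exact_mod_cast h4
    have h3 : m ≤ Δ * q + K + Δ := by
      have := Nat.lt_mul_div_succ (m - K) hΔpos
      rw [← hq] at this
      have h5 : Δ * (q + 1) = Δ * q + Δ := by ring
      omega
    -- combine
    have h4 : gf φ (Br π (S : Set G) m) (ENNReal.ofReal z) *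
        (ENNReal.ofReal (ρ ^ (Δ * q)) * ENNReal.ofReal (y ^ c)) ≤ 1 := by
      refine le_trans ?_ h1
      rw [← mul_assoc]
      refine mul_le_mul' (le_trans (mul_le_mul' le_rfl ?_) h2) ?_
      · rw [pow_mul, hρΔ, ENNReal.ofReal_pow (by positivity)]
        apply pow_le_pow_left'
        rw [ENNReal.ofReal_add zero_le_one (by positivity), ENNReal.ofReal_one,
          ENNReal.ofReal_pow hy0'.le]
        exact add_le_add le_rfl (pow_le_pow_left' (ENNReal.ofReal_le_ofReal hz1.le) _)
      · rw [ENNReal.ofReal_pow hy0'.le]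
        exact pow_le_pow_left' (ENNReal.ofReal_le_ofReal hz1.le) _
    rw [← ENNReal.ofReal_mul (by positivity)] at h4
    have h6 : 0 < ρ ^ (Δ * q) * y ^ c := by positivity
    have h7 : gf φ (Br π (S : Set G) m) (ENNReal.ofReal z) ≤
        ENNReal.ofReal (1 / (ρ ^ (Δ * q) * y ^ c)) := by
      rw [one_div, ENNReal.ofReal_inv_of_pos h6]
      rw [ENNReal.le_inv_iff_mul_le]
      exact h4
    refine h7.trans (ENNReal.ofReal_le_ofReal ?_)
    rw [inv_pow, ← div_eq_mul_inv, div_div, one_div, le_div_iff₀ (by positivity)]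
    rw [← div_eq_inv_mul, div_le_iff₀ h6]
    calc y ^ c * ρ ^ m ≤ y ^ c * ρ ^ (Δ * q + K + Δ) := by
          apply mul_le_mul_of_nonneg_left _ (by positivity)
          exact pow_le_pow_right₀ hρ1.le h3
      _ = ρ ^ (K + Δ) * (ρ ^ (Δ * q) * y ^ c) := by ring
  -- the same at the critical point
  have hcrit : ∀ m : ℕ, gf φ (Br π (S : Set G) m) (ENNReal.ofReal xc) ≤
        ENNReal.ofReal (ρ ^ (K + Δ) / (y ^ c) * (ρ⁻¹) ^ m) := by
    intro m
    refine gf_le_of_lt (y := ENNReal.ofReal y)
      ((ENNReal.ofReal_lt_ofReal_iff hxc0).mpr hyxc) ?_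
    intro z hz1 hz2
    have hzt : z ≠ ∞ := (hz2.trans ENNReal.ofReal_lt_top).ne
    rw [← ENNReal.ofReal_toReal hzt] at hz1 hz2 ⊢
    refine hmain z.toReal ?_ ?_ m
    · by_contra h
      push Not at h
      exact absurd (ENNReal.ofReal_le_ofReal h) (not_le.mpr hz1)
    · exact (ENNReal.ofReal_lt_ofReal_iff hxc0).mp hz2
  have hsum : ∑' m : ℕ, gf φ (Br π (S : Set G) m) (ENNReal.ofReal xc) ≠ ∞ := by
    refine ne_top_of_le_ne_top ?_ (ENNReal.tsum_le_tsum hcrit)
    apply Summable.tsum_ofReal_ne_top
    apply Summable.mul_left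
    exact summable_geometric_of_lt_one (by positivity) (inv_lt_one_of_one_lt₀ hρ1)
  rcases lt_or_eq_of_le hxc1 with hlt | heq
  · have h1 := gf_Ltr_ne_top π (S : Set G) φ (ENNReal.ofReal xc) hsum
    apply h1
    apply gf_Ltr_eq_top φ S hxc0 hlt
    rw [hxc, ← hlam]
    field_simp
    exact le_rfl
  · -- there are bridges of arbitrarily large span
    obtain ⟨s, hs, hs0⟩ : ∃ s, (s ∈ (S : Set G) ∨ s⁻¹ ∈ (S : Set G)) ∧ 0 < ht π s := by
      by_contra hno
      push Not at hno
      obtain ⟨g, hg⟩ := hπ
      apply hg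
      have hz : ∀ s ∈ (S : Set G), ht π s = 0 := by
        intro s hs
        have h1 := hno s (Or.inl hs)
        have h2 := hno s⁻¹ (Or.inr (by simpa using hs))
        rw [ht_inv] at h2
        linarith
      obtain ⟨w, hw, rfl⟩ := exists_word hS g
      have h3 : ∀ s, s ∈ (S : Set G) ∨ s⁻¹ ∈ (S : Set G) → |ht π s| ≤ 0 := by
        rintro s (hs | hs)
        · rw [hz s hs, abs_zero]
        · have := hz _ hs
          rw [ht_inv, neg_eq_zero] at this
          rw [this, abs_zero]
      have h4 := ht_word_le π h3 hw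
      rw [mul_zero] at h4
      exact abs_nonpos_iff.mp h4
    obtain ⟨k, hk⟩ := Int.eq_ofNat_of_zero_le hs0.le
    have hk : ht π s = (k : ℤ) := hk
    have hkpos : 0 < k := by
      have : (0 : ℤ) < k := by rw [← hk]; exact hs0
      exact_mod_cast this
    apply hsum
    refine top_le_iff.mp ?_
    rw [← ENNReal.tsum_const_eq_top_of_ne_zero (α := ℕ) one_ne_zero]
    calc ∑' _ : ℕ, (1 : ℝ≥0∞)
        ≤ ∑' n : ℕ, gf φ (Br π (S : Set G) (n * k)) (ENNReal.ofReal xc) := by
          refine ENNReal.tsum_le_tsum fun n => ?_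
          have hrep : Br π (S : Set G) (n * k) (List.replicate n s) := by
            refine ⟨?_, ?_, ?_⟩
            · intro t ht
              rw [List.mem_replicate] at ht
              rw [ht.2]; exact hs
            · intro u v huv
              have hu : u = List.replicate u.length s := by
                rw [List.eq_replicate_iff]
                refine ⟨rfl, fun b hb => ?_⟩
                have : b ∈ List.replicate n s := by rw [huv]; exact List.mem_append_left _ hb
                exact (List.mem_replicate.mp this).2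
              have hlen : u.length ≤ n := by
                have := congrArg List.length huv
                rw [List.length_replicate, List.length_append] at this
                omega
              have hht : ht π u.prod = u.length * (k : ℤ) := by
                rw [hu, List.prod_replicate]
                simp only [List.length_replicate]
                rw [← hk]
                simp [ht]
              rw [hht]
              constructor
              · positivity
              · push_cast
                rw [zero_add]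
                apply mul_le_mul_of_nonneg_right _ (by positivity)
                exact_mod_cast hlen
            · rw [List.prod_replicate]
              push_cast
              rw [← hk]
              simp [ht]
          have h2 := le_gf (φ := φ) (ENNReal.ofReal xc) hrep
          rw [heq, ENNReal.ofReal_one, one_pow] at h2
          rw [heq, ENNReal.ofReal_one]
          exact h2
      _ ≤ ∑' m : ℕ, gf φ (Br π (S : Set G) m) (ENNReal.ofReal xc) :=
          ENNReal.tsum_comp_le_tsum_of_injective (f := fun n : ℕ => n * k)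
            (fun a b h => Nat.eq_of_mul_eq_mul_right hkpos h)
            (fun m => gf φ (Br π (S : Set G) m) (ENNReal.ofReal xc))

end Pool.Agent.MinGrowth
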