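import Pool.Agent.MinGrowth.Weights

/-!
# Hammersley-Welsh unfolding

Words over `S ∪ S⁻¹` are read as paths in `ℤ` through a homomorphism `π` to `ℤ`.
If the sum over all `m` of the generating functions of bridges of span `m` is finite, then so is
the generating function of all words.
-/

namespace Pool.Agent.MinGrowth

open Filter Topology
open scoped ENNReal

universe u v

variable {G : Type u} {H : Type v} [Group G] [Group H]

/-- The height of an element. -/
def ht (π : G →* Multiplicative ℤ) (g : G) : ℤ := Multiplicative.toAdd (π g)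

@[simp] theorem ht_one (π : G →* Multiplicative ℤ) : ht π 1 = 0 := by simp [ht]

@[simp] theorem ht_mul (π : G →* Multiplicative ℤ) (g h : G) :
    ht π (g * h) = ht π g + ht π h := by simp [ht]

@[simp] theorem ht_inv (π : G →* Multiplicative ℤ) (g : G) :
    ht π g⁻¹ = - ht π g := by simp [ht]

/-- All letters of the word are in `S ∪ S⁻¹`. -/
def Ltr (S : Set G) (w : List G) : Prop := ∀ s ∈ w, s ∈ S ∨ s⁻¹ ∈ S

theorem Ltr.append_left {S : Set G} {u v : List G} (h : Ltr S (u ++ v)) : Ltr S u :=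
  fun s hs => h s (List.mem_append_left _ hs)

theorem Ltr.append_right {S : Set G} {u v : List G} (h : Ltr S (u ++ v)) : Ltr S v :=
  fun s hs => h s (List.mem_append_right _ hs)

theorem Ltr.append {S : Set G} {u v : List G} (hu : Ltr S u) (hv : Ltr S v) : Ltr S (u ++ v) :=
  fun s hs => (List.mem_append.mp hs).elim (hu s) (hv s)

theorem Ltr.rv {S : Set G} {u : List G} (h : Ltr S u) : Ltr S (rv u) := by
  intro s hs
  unfold MinGrowth.rv at hs
  rw [List.mem_reverse, List.mem_map] at hs
  obtain ⟨a, ha, rfl⟩ := hs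
  rcases h a ha with h | h
  · right; simpa using h
  · left; exact h

/-- The path of the word `w` starting at height `c` stays in `[lo, hi]`. -/
def Strip (π : G →* Multiplicative ℤ) (lo hi c : ℤ) (w : List G) : Prop :=
  ∀ u v, w = u ++ v → lo ≤ c + ht π u.prod ∧ c + ht π u.prod ≤ hi

theorem Strip.left {π : G →* Multiplicative ℤ} {lo hi c : ℤ} {u v : List G}
    (h : Strip π lo hi c (u ++ v)) : Strip π lo hi c u := by
  intro p r hpr
  exact h p (r ++ v) (by rw [hpr, List.append_assoc])

theorem Strip.right {π : G →* Multiplicative ℤ} {lo hi c : ℤ} {u v : List G}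
    (h : Strip π lo hi c (u ++ v)) : Strip π lo hi (c + ht π u.prod) v := by
  intro p r hpr
  have := h (u ++ p) r (by rw [hpr, List.append_assoc])
  rw [List.prod_append, ht_mul] at this
  constructor <;> linarith [this.1, this.2]

theorem Strip.append {π : G →* Multiplicative ℤ} {lo hi c : ℤ} {u v : List G}
    (hu : Strip π lo hi c u) (hv : Strip π lo hi (c + ht π u.prod) v) :
    Strip π lo hi c (u ++ v) := by
  intro p r hpr
  rcases List.append_eq_append_iff.mp hpr with ⟨a, rfl, rfl⟩ | ⟨b, rfl, rfl⟩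
  · have := hv a r rfl
    rw [List.prod_append, ht_mul]
    constructor <;> linarith [this.1, this.2]
  · exact hu p b rfl

/-- Upward words: the path stays in `[0, m]`. -/
def Up (π : G →* Multiplicative ℤ) (S : Set G) (m : ℕ) (w : List G) : Prop :=
  Ltr S w ∧ Strip π 0 m 0 w

/-- Upward words without upper bound. -/
def UpInf (π : G →* Multiplicative ℤ) (S : Set G) (w : List G) : Prop :=
  Ltr S w ∧ ∀ u v, w = u ++ v → 0 ≤ ht π u.prod

/-- Bridges of span `m`: the path stays in `[0, m]`, from `0` to `m`. -/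
def Br (π : G →* Multiplicative ℤ) (S : Set G) (m : ℕ) (w : List G) : Prop :=
  Ltr S w ∧ Strip π 0 m 0 w ∧ ht π w.prod = m

/-- Downward bridges of span `m`. -/
def Dn (π : G →* Multiplicative ℤ) (S : Set G) (m : ℕ) (w : List G) : Prop :=
  Ltr S w ∧ Strip π (-m) 0 0 w ∧ ht π w.prod = -m

theorem Dn.rv {π : G →* Multiplicative ℤ} {S : Set G} {m : ℕ} {w : List G} (h : Dn π S m w) :
    Br π S m (rv w) := by
  obtain ⟨h1, h2, h3⟩ := h
  refine ⟨h1.rv, ?_, ?_⟩
  · intro u v huv
    have hw : w = MinGrowth.rv v ++ MinGrowth.rv u := by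
      rw [← rv_append, ← huv, rv_rv]
    have h4 := h2 (MinGrowth.rv v) (MinGrowth.rv u) hw
    have h5 : ht π w.prod = ht π (MinGrowth.rv v).prod + ht π (MinGrowth.rv u).prod := by
      rw [← ht_mul, ← List.prod_append, ← hw]
    have h6 : ht π (MinGrowth.rv u).prod = - ht π u.prod := by rw [rv_prod, ht_inv]
    constructor
    · linarith [h4.2]
    · linarith [h4.1]
  · rw [rv_prod, ht_inv, h3, neg_neg]

theorem gf_Dn_le (π : G →* Multiplicative ℤ) (S : Set G) (m : ℕ) (φ : G →* H) (x : ℝ≥0∞) :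
    gf φ (Dn π S m) x ≤ gf φ (Br π S m) x :=
  gf_rv x fun _ h => h.rv

/-- Splitting at the last maximum. -/
theorem exists_last_max (π : G →* Multiplicative ℤ) (w : List G) :
    ∃ u v, w = u ++ v ∧ (∀ p r, w = p ++ r → ht π p.prod ≤ ht π u.prod) ∧
      (∀ p r, v = p ++ r → p ≠ [] → ht π p.prod < 0) := by
  induction w with
  | nil =>
    refine ⟨[], [], rfl, ?_, ?_⟩
    · intro p r h
      have : p = [] := (List.append_eq_nil_iff.mp h.symm).1
      simp [this]
    · intro p r h hp
      exact absurd (List.append_eq_nil_iff.mp h.symm).1 hp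
  | cons s w ih =>
    obtain ⟨u, v, huv, h1, h2⟩ := ih
    by_cases hs : 0 ≤ ht π s + ht π u.prod
    · refine ⟨s :: u, v, by rw [huv]; rfl, ?_, h2⟩
      intro p r hpr
      cases p with
      | nil => simpa using hs
      | cons a p =>
        rw [List.cons_append, List.cons.injEq] at hpr
        obtain ⟨rfl, hpr⟩ := hpr
        have := h1 p r hpr
        simp only [List.prod_cons, ht_mul]
        linarith
    · push Not at hs
      refine ⟨[], s :: w, rfl, ?_, ?_⟩
      · intro p r hpr
        cases p with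
        | nil => exact le_rfl
        | cons a p =>
          rw [List.cons_append, List.cons.injEq] at hpr
          obtain ⟨rfl, hpr⟩ := hpr
          have := h1 p r hpr
          simp only [List.prod_cons, ht_mul, List.prod_nil, ht_one]
          linarith
      · intro p r hpr hp
        cases p with
        | nil => exact absurd rfl hp
        | cons a p =>
          rw [List.cons_append, List.cons.injEq] at hpr
          obtain ⟨rfl, hpr⟩ := hpr
          have := h1 p r hpr
          simp only [List.prod_cons, ht_mul]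
          linarith

/-- Splitting at the last minimum. -/
theorem exists_last_min (π : G →* Multiplicative ℤ) (w : List G) :
    ∃ u v, w = u ++ v ∧ (∀ p r, w = p ++ r → ht π u.prod ≤ ht π p.prod) ∧
      (∀ p r, v = p ++ r → p ≠ [] → 0 < ht π p.prod) := by
  obtain ⟨u, v, h0, h1, h2⟩ := exists_last_max (π⁻¹) w
  have hh : ∀ g, ht (π⁻¹) g = - ht π g := by intro g; simp [ht]
  refine ⟨u, v, h0, ?_, ?_⟩
  · intro p r h
    have := h1 p r h
    rw [hh, hh] at this
    linarith
  · intro p r h hp
    have := h2 p r h hp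
    rw [hh] at this
    linarith

/-- What follows a bridge in the decomposition of an upward word. -/
def Tail (π : G →* Multiplicative ℤ) (S : Set G) (k : ℕ) (w : List G) : Prop :=
  ∃ u v, w = u ++ v ∧ Dn π S (k + 1) u ∧ Up π S k v

theorem upInf_decomp (π : G →* Multiplicative ℤ) (S : Set G) {w : List G} (h : UpInf π S w) :
    ∃ M : ℕ, ∃ u v, w = u ++ v ∧ Br π S M u ∧
      (v = [] ∨ ∃ k : ℕ, k < M ∧ Tail π S k v) := by
  obtain ⟨hl, hw⟩ := h
  obtain ⟨u, v, rfl, h1, h2⟩ := exists_last_max π w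
  have hM : 0 ≤ ht π u.prod := by
    have := h1 [] (u ++ v) rfl
    simpa using this
  obtain ⟨M, hM'⟩ := Int.eq_ofNat_of_zero_le hM
  have hM' : ht π u.prod = (M : ℤ) := hM'
  refine ⟨M, u, v, rfl, ⟨hl.append_left, ?_, hM'⟩, ?_⟩
  · intro p r hpr
    have h3 := h1 p (r ++ v) (by rw [hpr, List.append_assoc])
    have h4 := hw p (r ++ v) (by rw [hpr, List.append_assoc])
    constructor
    · linarith
    · linarith
  · obtain ⟨a, b, rfl, h3, h4⟩ := exists_last_min π v
    by_cases hab : a ++ b = []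
    · exact Or.inl hab
    · right
      have ha0 : ht π a.prod ≤ 0 := by
        have := h3 [] (a ++ b) rfl
        simpa using this
      have ha : a ≠ [] := by
        rintro rfl
        have h5 := h4 b [] (by simp) (by simpa using hab)
        have h6 := h2 b [] (by simp) (by simpa using hab)
        linarith
      have ha1 : ht π a.prod < 0 := h2 a b rfl ha
      have haM : - (M : ℤ) ≤ ht π a.prod := by
        have := hw (u ++ a) b (by simp)
        rw [List.prod_append, ht_mul, hM'] at this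
        linarith
      obtain ⟨k, hk⟩ : ∃ k : ℕ, ht π a.prod = -((k : ℤ) + 1) := by
        obtain ⟨k, hk⟩ := Int.eq_ofNat_of_zero_le (a := - ht π a.prod - 1) (by linarith)
        refine ⟨k, ?_⟩
        have : - ht π a.prod - 1 = (k : ℤ) := hk
        linarith
      refine ⟨k, ?_, a, b, rfl, ⟨(hl.append_right).append_left, ?_, ?_⟩,
        (hl.append_right).append_right, ?_⟩
      · have : (k : ℤ) < M := by linarith
        exact_mod_cast this
      · intro p r hpr
        have h5 := h3 p (r ++ b) (by rw [hpr, List.append_assoc])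
        constructor
        · push_cast; linarith
        · rcases eq_or_ne p [] with rfl | hp
          · simp
          · have := h2 p (r ++ b) (by rw [hpr, List.append_assoc]) hp
            linarith
      · push_cast; linarith
      · intro p r hpr
        constructor
        · rcases eq_or_ne p [] with rfl | hp
          · simp
          · have := h4 p r hpr hp
            linarith
        · have h5 := h2 (a ++ p) r (by rw [hpr, List.append_assoc]) (by simp [ha])
          rw [List.prod_append, ht_mul] at h5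
          linarith

theorem Up.upInf {π : G →* Multiplicative ℤ} {S : Set G} {m : ℕ} {w : List G}
    (h : Up π S m w) : UpInf π S w :=
  ⟨h.1, fun u v huv => by have := (h.2 u v huv).1; linarith⟩

theorem up_decomp (π : G →* Multiplicative ℤ) (S : Set G) {m : ℕ} {w : List G}
    (h : Up π S m w) :
    ∃ M : ℕ, ∃ u v, w = u ++ v ∧ Br π S M u ∧
      (v = [] ∨ ∃ k : Fin m, Tail π S k v) := by
  obtain ⟨M, u, v, huv, hB, hv⟩ := upInf_decomp π S h.upInf
  refine ⟨M, u, v, huv, hB, ?_⟩
  rcases hv with hv | ⟨k, hk, hv⟩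
  · exact Or.inl hv
  · right
    have hMm : (M : ℤ) ≤ m := by
      have := (h.2 u v huv).2
      rw [hB.2.2] at this
      linarith
    exact ⟨⟨k, lt_of_lt_of_le hk (by exact_mod_cast hMm)⟩, hv⟩

theorem gf_Tail_le (π : G →* Multiplicative ℤ) (S : Set G) (k : ℕ) (φ : G →* H) (x : ℝ≥0∞) :
    gf φ (Tail π S k) x ≤ gf φ (Br π S (k + 1)) x * gf φ (Up π S k) x :=
  (gf_mul x fun _ h => h).trans (mul_le_mul' (gf_Dn_le π S (k + 1) φ x) le_rfl)

/-- Recursion for upward words. -/
theorem gf_Up_le (π : G →* Multiplicative ℤ) (S : Set G) (m : ℕ) (φ : G →* H) (x : ℝ≥0∞) :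
    gf φ (Up π S m) x ≤ (∑' M : ℕ, gf φ (Br π S M) x) *
      (1 + ∑ k ∈ Finset.range m, gf φ (Br π S (k + 1)) x * gf φ (Up π S k) x) := by
  rw [← ENNReal.tsum_mul_right]
  refine (gf_exists x fun w hw => up_decomp π S hw).trans ?_
  refine ENNReal.tsum_le_tsum fun M => ?_
  refine (gf_mul (Q := Br π S M) (R := fun v => v = [] ∨ ∃ k : Fin m, Tail π S k v) x
    (fun w ⟨u, v, h1, h2, h3⟩ => ⟨u, v, h1, h2, h3⟩)).trans ?_
  refine mul_le_mul' le_rfl ?_
  refine (gf_or (Q := fun v => v = []) (R := fun v => ∃ k : Fin m, Tail π S k v) x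
    (fun w h => h)).trans ?_
  refine add_le_add (gf_nil x) ?_
  refine (gf_exists x fun w hw => hw).trans ?_
  rw [tsum_fintype, Finset.sum_range]
  exact Finset.sum_le_sum fun k _ => gf_Tail_le π S k φ x

theorem gf_UpInf_le (π : G →* Multiplicative ℤ) (S : Set G) (φ : G →* H) (x : ℝ≥0∞) :
    gf φ (UpInf π S) x ≤ (∑' M : ℕ, gf φ (Br π S M) x) *
      (1 + ∑' k : ℕ, gf φ (Br π S (k + 1)) x * gf φ (Up π S k) x) := by
  rw [← ENNReal.tsum_mul_right]
  refine (gf_exists x fun w hw => upInf_decomp π S hw).trans ?_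
  refine ENNReal.tsum_le_tsum fun M => ?_
  refine (gf_mul (Q := Br π S M) (R := fun v => v = [] ∨ ∃ k : ℕ, Tail π S k v) x
    (fun w ⟨u, v, h1, h2, h3⟩ => ⟨u, v, h1, h2, h3.imp id (fun ⟨k, _, hk⟩ => ⟨k, hk⟩)⟩)).trans ?_
  refine mul_le_mul' le_rfl ?_
  refine (gf_or (Q := fun v => v = []) (R := fun v => ∃ k : ℕ, Tail π S k v) x
    (fun w h => h)).trans ?_
  refine add_le_add (gf_nil x) ?_
  refine (gf_exists x fun w hw => hw).trans ?_
  exact ENNReal.tsum_le_tsum fun k => gf_Tail_le π S k φ x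

theorem gf_Ltr_le (π : G →* Multiplicative ℤ) (S : Set G) (φ : G →* H) (x : ℝ≥0∞) :
    gf φ (Ltr S) x ≤ gf φ (UpInf π S) x * gf φ (UpInf π S) x := by
  refine (gf_mul (Q := fun u => UpInf π S (rv u)) (R := UpInf π S) x ?_).trans ?_
  · intro w hw
    obtain ⟨u, v, rfl, h1, h2⟩ := exists_last_min π w
    refine ⟨u, v, rfl, ⟨hw.append_left.rv, ?_⟩, hw.append_right, ?_⟩
    · intro p r hpr
      have hu : u = rv r ++ rv p := by rw [← rv_append, ← hpr, rv_rv]
      have h3 := h1 (rv r) (rv p ++ v) (by rw [hu, List.append_assoc])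
      have h4 : ht π u.prod = ht π (rv r).prod + ht π (rv p).prod := by
        rw [hu, List.prod_append, ht_mul]
      have h5 : ht π (rv p).prod = - ht π p.prod := by rw [rv_prod, ht_inv]
      linarith
    · intro p r hpr
      rcases eq_or_ne p [] with rfl | hp
      · simp
      · exact (h2 p r hpr hp).le
  · exact mul_le_mul' (gf_rv x fun w h => h) le_rfl

theorem prod_telescope (a : ℕ → ℝ≥0∞) (m : ℕ) :
    1 + ∑ k ∈ Finset.range m, a k * ∏ i ∈ Finset.range k, (1 + a i) =
      ∏ i ∈ Finset.range m, (1 + a i) := by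
  induction m with
  | zero => simp
  | succ m ih =>
    rw [Finset.sum_range_succ, ← add_assoc, ih, Finset.prod_range_succ]
    ring

theorem gronwall {U β : ℕ → ℝ≥0∞} {b : ℝ≥0∞}
    (h : ∀ m, U m ≤ b * (1 + ∑ k ∈ Finset.range m, β k * U k)) (m : ℕ) :
    U m ≤ b * ∏ k ∈ Finset.range m, (1 + b * β k) := by
  induction m using Nat.strong_induction_on with
  | _ m ih =>
    refine (h m).trans ?_
    rw [← prod_telescope]
    refine mul_le_mul' le_rfl (add_le_add le_rfl ?_)
    refine Finset.sum_le_sum fun k hk => ?_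
    rw [mul_comm b (β k), mul_assoc]
    exact mul_le_mul' le_rfl (ih k (Finset.mem_range.mp hk))

theorem one_add_le_exp {c : ℝ≥0∞} (hc : c ≠ ∞) :
    1 + c ≤ ENNReal.ofReal (Real.exp c.toReal) := by
  conv_lhs => rw [← ENNReal.ofReal_toReal hc, ← ENNReal.ofReal_one]
  rw [← ENNReal.ofReal_add zero_le_one ENNReal.toReal_nonneg]
  apply ENNReal.ofReal_le_ofReal
  rw [add_comm]
  exact Real.add_one_le_exp _

theorem prod_le_exp {a : ℕ → ℝ≥0∞} (ha : ∑' k, a k ≠ ∞) (m : ℕ) :
    ∏ k ∈ Finset.range m, (1 + a k) ≤ ENNReal.ofReal (Real.exp (∑' k, a k).toReal) := by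
  have hfin : ∀ k, a k ≠ ∞ := fun k => ENNReal.ne_top_of_tsum_ne_top ha k
  calc ∏ k ∈ Finset.range m, (1 + a k)
      ≤ ∏ k ∈ Finset.range m, ENNReal.ofReal (Real.exp (a k).toReal) :=
        Finset.prod_le_prod' fun k _ => one_add_le_exp (hfin k)
    _ = ENNReal.ofReal (Real.exp (∑ k ∈ Finset.range m, (a k).toReal)) := by
        rw [Real.exp_sum, ENNReal.ofReal_prod_of_nonneg fun k _ => (Real.exp_pos _).le]
    _ ≤ _ := by
        apply ENNReal.ofReal_le_ofReal
        apply Real.exp_le_exp.mpr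
        rw [← ENNReal.toReal_sum fun k _ => hfin k]
        exact ENNReal.toReal_mono ha (ENNReal.sum_le_tsum _)

/-- **Hammersley-Welsh**: if the bridge generating functions are summable, then the generating
function of all words is finite. -/
theorem gf_Ltr_ne_top (π : G →* Multiplicative ℤ) (S : Set G) (φ : G →* H) (x : ℝ≥0∞)
    (hb : ∑' M : ℕ, gf φ (Br π S M) x ≠ ∞) : gf φ (Ltr S) x ≠ ∞ := by
  set b := ∑' M : ℕ, gf φ (Br π S M) x with hbdef
  have hβ : ∑' k : ℕ, gf φ (Br π S (k + 1)) x ≤ b := by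
    rw [hbdef]
    exact ENNReal.tsum_comp_le_tsum_of_injective (f := fun k : ℕ => k + 1)
      (fun a b h => by simpa using h) (fun M => gf φ (Br π S M) x)
  have hU : ∀ m, gf φ (Up π S m) x ≤
      b * ∏ k ∈ Finset.range m, (1 + b * gf φ (Br π S (k + 1)) x) :=
    gronwall (U := fun m => gf φ (Up π S m) x) (β := fun k => gf φ (Br π S (k + 1)) x)
      (fun m => gf_Up_le π S m φ x)
  have ha : ∑' k : ℕ, b * gf φ (Br π S (k + 1)) x ≠ ∞ := by
    rw [ENNReal.tsum_mul_left]
    exact ENNReal.mul_ne_top hb (ne_top_of_le_ne_top hb hβ)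
  set C := b * ENNReal.ofReal (Real.exp (∑' k : ℕ, b * gf φ (Br π S (k + 1)) x).toReal) with hC
  have hCfin : C ≠ ∞ := ENNReal.mul_ne_top hb ENNReal.ofReal_ne_top
  have hU2 : ∀ m, gf φ (Up π S m) x ≤ C := fun m =>
    (hU m).trans (mul_le_mul' le_rfl (prod_le_exp ha m))
  have hInf : gf φ (UpInf π S) x ≠ ∞ := by
    refine ne_top_of_le_ne_top ?_ (gf_UpInf_le π S φ x)
    refine ENNReal.mul_ne_top hb ?_
    refine ENNReal.add_ne_top.mpr ⟨ENNReal.one_ne_top, ?_⟩
    refine ne_top_of_le_ne_top (b := b * C) (ENNReal.mul_ne_top hb hCfin) ?_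
    calc ∑' k : ℕ, gf φ (Br π S (k + 1)) x * gf φ (Up π S k) x
        ≤ ∑' k : ℕ, gf φ (Br π S (k + 1)) x * C :=
          ENNReal.tsum_le_tsum fun k => mul_le_mul' le_rfl (hU2 k)
      _ = (∑' k : ℕ, gf φ (Br π S (k + 1)) x) * C := ENNReal.tsum_mul_right
      _ ≤ b * C := mul_le_mul' hβ le_rfl
  exact ne_top_of_le_ne_top (ENNReal.mul_ne_top hInf hInf) (gf_Ltr_le π S φ x)

end Pool.Agent.MinGrowth
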