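import Pool.Agent.MinGrowth.Defs

/-!
# Generating functions of classes of words
-/

namespace Pool.Agent.MinGrowth

open Filter Topology
open scoped ENNReal

universe u v

variable {G : Type u} {H : Type v} [Group G] [Group H]

/-- The supremum of `x ^ |w|` over all words `w` in the class `P` whose product is mapped to `h`. -/
noncomputable def wt (φ : G →* H) (P : List G → Prop) (x : ℝ≥0∞) (h : H) : ℝ≥0∞ :=
  ⨆ (w : List G) (_ : P w ∧ φ w.prod = h), x ^ w.length

/-- The generating function of the class `P`: the sum over all elements of the target of the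
weights. -/
noncomputable def gf (φ : G →* H) (P : List G → Prop) (x : ℝ≥0∞) : ℝ≥0∞ :=
  ∑' h : H, wt φ P x h

theorem le_wt {φ : G →* H} {P : List G → Prop} (x : ℝ≥0∞) {w : List G} {h : H} (hw : P w)
    (hh : φ w.prod = h) : x ^ w.length ≤ wt φ P x h :=
  le_iSup₂_of_le (f := fun (w : List G) (_ : P w ∧ φ w.prod = h) => x ^ w.length) w ⟨hw, hh⟩ le_rfl

theorem wt_le {φ : G →* H} {P : List G → Prop} {x : ℝ≥0∞} {h : H} {C : ℝ≥0∞}
    (hC : ∀ w, P w → φ w.prod = h → x ^ w.length ≤ C) : wt φ P x h ≤ C :=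
  iSup₂_le fun w hw => hC w hw.1 hw.2

theorem wt_mono {φ : G →* H} {P Q : List G → Prop} (x : ℝ≥0∞) (h : H)
    (hPQ : ∀ w, P w → Q w) : wt φ P x h ≤ wt φ Q x h :=
  wt_le fun w hw hh => le_wt x (hPQ w hw) hh

theorem gf_mono {φ : G →* H} {P Q : List G → Prop} (x : ℝ≥0∞)
    (hPQ : ∀ w, P w → Q w) : gf φ P x ≤ gf φ Q x :=
  ENNReal.tsum_le_tsum fun h => wt_mono x h hPQ

theorem gf_mono_x {φ : G →* H} {P : List G → Prop} {x y : ℝ≥0∞} (hxy : x ≤ y) :
    gf φ P x ≤ gf φ P y :=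
  ENNReal.tsum_le_tsum fun _ => wt_le fun _ hw hh => (pow_le_pow_left' hxy _).trans (le_wt y hw hh)

theorem gf_exists {ι : Type*} {φ : G →* H} {P : List G → Prop} {Q : ι → List G → Prop}
    (x : ℝ≥0∞) (hPQ : ∀ w, P w → ∃ i, Q i w) : gf φ P x ≤ ∑' i, gf φ (Q i) x := by
  unfold gf
  rw [ENNReal.tsum_comm]
  refine ENNReal.tsum_le_tsum fun h => wt_le fun w hw hh => ?_
  obtain ⟨i, hi⟩ := hPQ w hw
  exact (le_wt x hi hh).trans (ENNReal.le_tsum i)

theorem gf_or {φ : G →* H} {P Q R : List G → Prop}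
    (x : ℝ≥0∞) (hPQ : ∀ w, P w → Q w ∨ R w) : gf φ P x ≤ gf φ Q x + gf φ R x := by
  unfold gf
  rw [← ENNReal.tsum_add]
  refine ENNReal.tsum_le_tsum fun h => wt_le fun w hw hh => ?_
  rcases hPQ w hw with h1 | h1
  · exact (le_wt x h1 hh).trans le_self_add
  · exact (le_wt x h1 hh).trans le_add_self

theorem gf_mul {φ : G →* H} {P Q R : List G → Prop} (x : ℝ≥0∞)
    (hP : ∀ w, P w → ∃ u v, w = u ++ v ∧ Q u ∧ R v) : gf φ P x ≤ gf φ Q x * gf φ R x := by
  have h1 : gf φ Q x * gf φ R x = ∑' h : H, ∑' a : H, wt φ Q x a * wt φ R x (a⁻¹ * h) := by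
    rw [ENNReal.tsum_comm]
    unfold gf
    rw [← ENNReal.tsum_mul_right]
    refine tsum_congr fun a => ?_
    rw [← ENNReal.tsum_mul_left]
    exact ((Equiv.mulLeft a⁻¹).tsum_eq (fun b => wt φ Q x a * wt φ R x b)).symm
  rw [h1]
  refine ENNReal.tsum_le_tsum fun h => wt_le fun w hw hh => ?_
  obtain ⟨u, v, rfl, hu, hv⟩ := hP w hw
  refine le_trans ?_ (ENNReal.le_tsum (φ u.prod))
  rw [List.length_append, pow_add]
  refine mul_le_mul' (le_wt x hu rfl) (le_wt x hv ?_)
  rw [← hh, List.prod_append, map_mul, inv_mul_cancel_left]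

/-- The reversed word of inverses. -/
def rv (w : List G) : List G := (w.map (·⁻¹)).reverse

theorem rv_length (w : List G) : (rv w).length = w.length := by simp [rv]

theorem rv_prod (w : List G) : (rv w).prod = w.prod⁻¹ := by
  rw [rv, List.prod_inv_reverse]

theorem rv_append (u w : List G) : rv (u ++ w) = rv w ++ rv u := by
  simp [rv]

theorem rv_rv (w : List G) : rv (rv w) = w := by
  simp [rv, List.map_reverse]

theorem gf_rv {φ : G →* H} {P Q : List G → Prop} (x : ℝ≥0∞)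
    (hP : ∀ w, P w → Q (rv w)) : gf φ P x ≤ gf φ Q x := by
  unfold gf
  rw [← (Equiv.inv H).tsum_eq (fun h => wt φ Q x h)]
  refine ENNReal.tsum_le_tsum fun h => wt_le fun w hw hh => ?_
  rw [← rv_length w]
  refine le_wt x (hP w hw) ?_
  rw [rv_prod, map_inv, hh]
  rfl

theorem gf_nil {φ : G →* H} (x : ℝ≥0∞) : gf φ (fun w => w = []) x ≤ 1 := by
  classical
  unfold gf
  calc ∑' h : H, wt φ (fun w => w = []) x h ≤ ∑' h : H, (if h = 1 then (1 : ℝ≥0∞) else 0) := by
        refine ENNReal.tsum_le_tsum fun h => wt_le fun w hw hh => ?_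
        subst hw
        simp at hh
        subst hh
        simp
    _ = 1 := by rw [tsum_ite_eq]

theorem le_gf {φ : G →* H} {P : List G → Prop} (x : ℝ≥0∞) {w : List G} (hw : P w) :
    x ^ w.length ≤ gf φ P x :=
  (le_wt x hw rfl).trans (ENNReal.le_tsum (φ w.prod))

theorem lowerSemicontinuous_gf (φ : G →* H) (P : List G → Prop) :
    LowerSemicontinuous (fun x => gf φ P x) := by
  apply lowerSemicontinuous_tsum
  intro h
  apply lowerSemicontinuous_iSup
  intro w
  apply lowerSemicontinuous_iSup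
  intro _
  exact (ENNReal.continuous_pow w.length).lowerSemicontinuous

theorem gf_le_of_lt {φ : G →* H} {P : List G → Prop} {x y : ℝ≥0∞} {C : ℝ≥0∞} (hyx : y < x)
    (h : ∀ z, y < z → z < x → gf φ P z ≤ C) : gf φ P x ≤ C := by
  by_contra hcon
  push Not at hcon
  have h1 := lowerSemicontinuous_gf φ P x C hcon
  have h2 : ∀ᶠ z in 𝓝[<] x, C < gf φ P z := nhdsWithin_le_nhds h1
  have h3 : ∀ᶠ z in 𝓝[<] x, z ∈ Set.Ioo y x := Ioo_mem_nhdsLT hyx
  have : (𝓝[<] x).NeBot := nhdsLT_neBot_of_exists_lt ⟨y, hyx⟩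
  obtain ⟨z, hz1, hz2⟩ := (h2.and h3).exists
  exact absurd (h z hz2.1 hz2.2) (not_le.mpr hz1)

end Pool.Agent.MinGrowth
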