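import Pool.Agent.MinGrowth.Tight

/-!
# Growth tightness of wreath products
-/

namespace Pool.Agent.MinGrowth

open Filter Topology
open scoped ENNReal

universe u v w

/-- The restricted wreath product `A ≀ B`: finitely supported functions `B → A` together with an
element of `B`. -/
@[ext]
structure Wreath (A : Type u) (B : Type v) [Group A] [Group B] : Type (max u v) where
  /-- the function `B → A` (the lamps) -/
  lamp : B → A
  /-- the element of `B` (the position) -/
  pos : B
  /-- only finitely many lamps are nontrivial -/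
  finite : (Function.mulSupport lamp).Finite

namespace Wreath

variable {A : Type u} {A' : Type w} {B : Type v} [Group A] [Group A'] [Group B]

instance : Mul (Wreath A B) where
  mul g h := ⟨fun β => g.lamp β * h.lamp (g.pos⁻¹ * β), g.pos * h.pos, by
    refine (g.finite.union (h.finite.image (fun β => g.pos * β))).subset ?_
    intro β hβ
    rw [Function.mem_mulSupport] at hβ
    by_cases h1 : g.lamp β = 1
    · right
      refine ⟨g.pos⁻¹ * β, ?_, by simp⟩
      rw [Function.mem_mulSupport]
      intro h2
      exact hβ (by rw [h1, h2, one_mul])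
    · left; exact h1⟩

instance : One (Wreath A B) where
  one := ⟨fun _ => 1, 1, by simp⟩

instance : Inv (Wreath A B) where
  inv g := ⟨fun β => (g.lamp (g.pos * β))⁻¹, g.pos⁻¹, by
    refine (g.finite.image (fun β => g.pos⁻¹ * β)).subset ?_
    intro β hβ
    rw [Function.mem_mulSupport] at hβ
    refine ⟨g.pos * β, ?_, by simp⟩
    rw [Function.mem_mulSupport]
    intro h2
    exact hβ (by rw [h2, inv_one])⟩

@[simp] theorem mul_lamp (g h : Wreath A B) (β : B) :
    (g * h).lamp β = g.lamp β * h.lamp (g.pos⁻¹ * β) := rfl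

@[simp] theorem mul_pos (g h : Wreath A B) : (g * h).pos = g.pos * h.pos := rfl

@[simp] theorem one_lamp (β : B) : (1 : Wreath A B).lamp β = 1 := rfl

@[simp] theorem one_pos : (1 : Wreath A B).pos = 1 := rfl

@[simp] theorem inv_lamp (g : Wreath A B) (β : B) :
    (g⁻¹).lamp β = (g.lamp (g.pos * β))⁻¹ := rfl

@[simp] theorem inv_pos (g : Wreath A B) : (g⁻¹).pos = g.pos⁻¹ := rfl

instance : Group (Wreath A B) where
  mul_assoc a b c := by
    apply Wreath.ext
    · funext β
      simp [mul_assoc]
    · simp [mul_assoc]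
  one_mul a := by
    apply Wreath.ext
    · funext β
      simp
    · simp
  mul_one a := by
    apply Wreath.ext
    · funext β
      simp
    · simp
  inv_mul_cancel a := by
    apply Wreath.ext
    · funext β
      simp
    · simp

/-- The projection to `B`. -/
def posHom : Wreath A B →* B where
  toFun g := g.pos
  map_one' := rfl
  map_mul' _ _ := rfl

/-- The embedding of `B`. -/
def posEmb : B →* Wreath A B where
  toFun b := ⟨fun _ => 1, b, by simp⟩
  map_one' := rfl
  map_mul' b c := by
    apply Wreath.ext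
    · funext β; simp
    · rfl

open Classical in
/-- The embedding of `A` at the site `β`. -/
noncomputable def lampEmb (β : B) : A →* Wreath A B where
  toFun a := ⟨Pi.mulSingle β a, 1, by
    refine (Set.finite_singleton β).subset ?_
    intro γ hγ
    rw [Function.mem_mulSupport] at hγ
    by_contra h
    exact hγ (Pi.mulSingle_eq_of_ne h _)⟩
  map_one' := by
    apply Wreath.ext
    · funext γ; simp
    · rfl
  map_mul' a b := by
    apply Wreath.ext
    · funext γ
      simp [Pi.mulSingle_mul]
    · simp

theorem lampEmb_lamp_same (β : B) (a : A) : (lampEmb β a).lamp β = a := by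
  simp [lampEmb]

open Classical in
theorem lampEmb_lamp_ne {β γ : B} (h : γ ≠ β) (a : A) : (lampEmb β a).lamp γ = 1 :=
  Pi.mulSingle_eq_of_ne (M := fun _ : B => A) h a

@[simp] theorem lampEmb_pos (β : B) (a : A) : (lampEmb β a).pos = 1 := rfl

@[simp] theorem posEmb_pos (b : B) : (posEmb b : Wreath A B).pos = b := rfl

@[simp] theorem posEmb_lamp (b β : B) : (posEmb b : Wreath A B).lamp β = 1 := rfl

theorem posEmb_conj (b β : B) (a : A) :
    (posEmb b : Wreath A B) * lampEmb β a * (posEmb b)⁻¹ = lampEmb (b * β) a := by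
  apply Wreath.ext
  · funext γ
    simp only [mul_lamp, posEmb_lamp, posEmb_pos, one_mul, inv_lamp, inv_one, mul_one]
    by_cases h : γ = b * β
    · subst h
      rw [inv_mul_cancel_left, lampEmb_lamp_same, lampEmb_lamp_same]
    · rw [lampEmb_lamp_ne h, lampEmb_lamp_ne]
      intro h2
      exact h (by rw [← h2, mul_inv_cancel_left])
  · simp

/-- A subgroup containing all positions and all lamps at the identity is everything. -/
theorem eq_top_of_mem {K : Subgroup (Wreath A B)} (h2 : ∀ b : B, (posEmb b : Wreath A B) ∈ K)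
    (h1 : ∀ a : A, lampEmb (1 : B) a ∈ K) : K = ⊤ := by
  classical
  have h3 : ∀ (β : B) (a : A), lampEmb β a ∈ K := by
    intro β a
    have h := posEmb_conj β (1 : B) a
    rw [mul_one] at h
    rw [← h]
    exact K.mul_mem (K.mul_mem (h2 β) (h1 a)) (K.inv_mem (h2 β))
  have h4 : ∀ (s : Finset B) (g : Wreath A B), g.pos = 1 → Function.mulSupport g.lamp ⊆ s →
      g ∈ K := by
    intro s
    induction s using Finset.induction_on with
    | empty =>
      intro g hg1 hg2
      have : g = 1 := by
        apply Wreath.ext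
        · funext β
          by_contra h
          have := hg2 (Function.mem_mulSupport.mpr h)
          simp at this
        · exact hg1
      rw [this]; exact K.one_mem
    | insert β s hβ ih =>
      intro g hg1 hg2
      have h5 : (lampEmb β (g.lamp β))⁻¹ * g ∈ K := by
        apply ih
        · simp [hg1]
        · intro γ hγ
          rw [Function.mem_mulSupport] at hγ
          simp only [mul_lamp, inv_lamp, inv_pos, lampEmb_pos, one_mul, inv_one] at hγ
          by_cases h6 : γ = β
          · subst h6
            rw [lampEmb_lamp_same, inv_mul_cancel] at hγ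
            exact absurd rfl hγ
          · rw [lampEmb_lamp_ne h6, inv_one, one_mul] at hγ
            have := hg2 (Function.mem_mulSupport.mpr hγ)
            rw [Finset.coe_insert] at this
            rcases this with h7 | h7
            · exact absurd h7 h6
            · exact h7
      have : g = lampEmb β (g.lamp β) * ((lampEmb β (g.lamp β))⁻¹ * g) := by group
      rw [this]
      exact K.mul_mem (h3 _ _) h5
  rw [eq_top_iff]
  intro g _
  have h6 : g = (g * (posEmb g.pos)⁻¹) * posEmb g.pos := by group
  rw [h6]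
  refine K.mul_mem (h4 g.finite.toFinset _ ?_ ?_) (h2 _)
  · simp
  · intro γ hγ
    rw [Function.mem_mulSupport] at hγ
    simp only [mul_lamp, inv_lamp, posEmb_lamp, inv_one, mul_one] at hγ
    rw [Set.Finite.coe_toFinset]
    exact hγ

/-- The wreath product of finitely generated groups is finitely generated. -/
theorem fg (hA : Group.FG A) (hB : Group.FG B) : Group.FG (Wreath A B) := by
  classical
  rw [Group.fg_iff] at hA hB ⊢
  obtain ⟨SA, hSA, hSAf⟩ := hA
  obtain ⟨SB, hSB, hSBf⟩ := hB
  refine ⟨(lampEmb (1 : B) '' SA) ∪ ((posEmb : B →* Wreath A B) '' SB), ?_,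
    (hSAf.image _).union (hSBf.image _)⟩
  apply eq_top_of_mem
  · intro b
    have : (⊤ : Subgroup B).map (posEmb : B →* Wreath A B) ≤
        Subgroup.closure ((lampEmb (1 : B) '' SA) ∪ ((posEmb : B →* Wreath A B) '' SB)) := by
      rw [← hSB, MonoidHom.map_closure]
      exact Subgroup.closure_mono Set.subset_union_right
    exact this (Subgroup.mem_map_of_mem _ (Subgroup.mem_top b))
  · intro a
    have : (⊤ : Subgroup A).map (lampEmb (1 : B)) ≤
        Subgroup.closure ((lampEmb (1 : B) '' SA) ∪ ((posEmb : B →* Wreath A B) '' SB)) := by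
      rw [← hSA, MonoidHom.map_closure]
      exact Subgroup.closure_mono Set.subset_union_left
    exact this (Subgroup.mem_map_of_mem _ (Subgroup.mem_top a))

/-- The map of wreath products induced by a homomorphism of the lamp groups. -/
def map (f : A →* A') : Wreath A B →* Wreath A' B where
  toFun g := ⟨fun β => f (g.lamp β), g.pos, by
    refine g.finite.subset ?_
    intro β hβ
    rw [Function.mem_mulSupport] at hβ ⊢
    intro h
    exact hβ (by rw [h, map_one])⟩
  map_one' := by
    apply Wreath.ext
    · funext β; simp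
    · rfl
  map_mul' g h := by
    apply Wreath.ext
    · funext β; simp
    · rfl

theorem map_surjective {f : A →* A'} (hf : Function.Surjective f) :
    Function.Surjective (map f : Wreath A B →* Wreath A' B) := by
  classical
  intro g
  choose s hs using hf
  refine ⟨⟨fun β => if g.lamp β = 1 then 1 else s (g.lamp β), g.pos, ?_⟩, ?_⟩
  · refine g.finite.subset ?_
    intro β hβ
    rw [Function.mem_mulSupport] at hβ ⊢
    intro h
    simp [h] at hβ
  · apply Wreath.ext
    · funext β
      simp only [map, MonoidHom.coe_mk, OneHom.coe_mk]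
      split_ifs with h
      · rw [map_one, h]
      · rw [hs]
    · rfl

theorem map_not_injective {f : A →* A'} (hf : ¬ Function.Injective f) :
    ¬ Function.Injective (map f : Wreath A B →* Wreath A' B) := by
  intro hinj
  apply hf
  rw [injective_iff_map_eq_one]
  intro a ha
  have h1 : (map f : Wreath A B →* Wreath A' B) (lampEmb (1 : B) a) = 1 := by
    apply Wreath.ext
    · funext β
      simp only [map, MonoidHom.coe_mk, OneHom.coe_mk, one_lamp]
      by_cases h : β = 1
      · subst h; rw [lampEmb_lamp_same, ha]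
      · rw [lampEmb_lamp_ne h, map_one]
    · rfl
  have h2 : lampEmb (1 : B) a = 1 := hinj (by rw [h1, map_one])
  have h3 := congrArg (fun g => g.lamp 1) h2
  simpa [lampEmb_lamp_same] using h3

/-- A nontrivial kernel of a homomorphism meets the base group. -/
theorem exists_base_of_not_injective {H : Type*} [Group H] [Nontrivial A] (φ : Wreath A B →* H)
    (hφ : ¬ Function.Injective φ) :
    ∃ ν : Wreath A B, ν.pos = 1 ∧ φ ν = 1 ∧ ∃ β, ν.lamp β ≠ 1 := by
  rw [injective_iff_map_eq_one] at hφ
  push Not at hφ
  obtain ⟨g, hg1, hg2⟩ := hφ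
  by_cases hb : g.pos = 1
  · refine ⟨g, hb, hg1, ?_⟩
    by_contra h
    push Not at h
    apply hg2
    apply Wreath.ext
    · funext β; exact h β
    · exact hb
  · obtain ⟨a, ha⟩ := exists_ne (1 : A)
    refine ⟨g * lampEmb 1 a * g⁻¹ * (lampEmb 1 a)⁻¹, by simp, by simp [hg1], g.pos, ?_⟩
    simp only [mul_lamp, mul_pos, inv_lamp, inv_pos, lampEmb_pos, mul_one, inv_mul_cancel,
      lampEmb_lamp_same]
    rw [lampEmb_lamp_ne (β := (1 : B))]
    · simp only [inv_one, mul_one]
      intro h
      apply ha
      have : g.lamp g.pos * a * (g.lamp (g.pos * 1))⁻¹ = 1 := by simpa using h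
      rw [mul_one] at this
      have h2 : g.lamp g.pos * a = g.lamp g.pos := by
        rw [mul_inv_eq_one] at this; exact this
      simpa using h2
    · simpa using hb

/-- **Growth tightness of wreath products.** -/
theorem growthRate_lt {H : Type*} [Group H] [DecidableEq H] [Nontrivial A]
    (θ : B →* Multiplicative ℤ) (hθ : Function.Surjective θ) (φ : Wreath A B →* H)
    (hφ : ¬ Function.Injective φ) (S : Finset (Wreath A B))
    (hS : Subgroup.closure (S : Set (Wreath A B)) = ⊤) :
    growthRate (S.image φ) < growthRate S := by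
  classical
  obtain ⟨ν, hν1, hν2, βν, hβν⟩ := exists_base_of_not_injective φ hφ
  obtain ⟨a, ha⟩ := exists_ne (1 : A)
  set π : Wreath A B →* Multiplicative ℤ := θ.comp posHom with hπdef
  have hπ : ∀ g : Wreath A B, ht π g = ht θ g.pos := fun g => rfl
  -- bound for the support of `ν`
  obtain ⟨E, hE⟩ : ∃ E : ℤ, ∀ β, ν.lamp β ≠ 1 → |ht θ β| ≤ E := by
    obtain ⟨E, hE⟩ := (ν.finite.image (fun β => |ht θ β|)).bddAbove
    exact ⟨E, fun β hβ => hE ⟨β, hβ, rfl⟩⟩
  -- bound for the letters
  obtain ⟨D, hD0, hD⟩ : ∃ D : ℤ, 0 ≤ D ∧ ∀ s : Wreath A B, s ∈ S ∨ s⁻¹ ∈ S →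
      ∀ β, s.lamp β ≠ 1 → |ht θ β| ≤ D := by
    have h1 : ∀ s : Wreath A B, ∃ D : ℤ, 0 ≤ D ∧ ∀ β, s.lamp β ≠ 1 → |ht θ β| ≤ D := by
      intro s
      obtain ⟨D, hD⟩ := (s.finite.image (fun β => |ht θ β|)).bddAbove
      exact ⟨max D 0, le_max_right _ _, fun β hβ => (hD ⟨β, hβ, rfl⟩).trans (le_max_left _ _)⟩
    choose Ds hDs0 hDs using h1
    refine ⟨∑ s ∈ S, (Ds s + Ds s⁻¹), ?_, ?_⟩
    · exact Finset.sum_nonneg fun s _ => add_nonneg (hDs0 _) (hDs0 _)
    · intro s hs β hβ
      have h2 := hDs s β hβ
      rcases hs with hs | hs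
      · have := Finset.single_le_sum (f := fun s => Ds s + Ds s⁻¹)
          (fun s _ => add_nonneg (hDs0 s) (hDs0 s⁻¹)) hs
        have h3 := hDs0 s⁻¹
        linarith
      · have := Finset.single_le_sum (f := fun s => Ds s + Ds s⁻¹)
          (fun s _ => add_nonneg (hDs0 s) (hDs0 s⁻¹)) hs
        simp only [inv_inv] at this
        have h3 := hDs0 s⁻¹
        linarith
  -- support of bridges
  have hsupp : ∀ (m : ℕ) (w : List (Wreath A B)), Ltr (S : Set (Wreath A B)) w →
      Strip π 0 m 0 w → ∀ β, w.prod.lamp β ≠ 1 → -D ≤ ht θ β ∧ ht θ β ≤ m + D := by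
    intro m w
    induction w using List.reverseRecOn with
    | nil => intro _ _ β hβ; exact absurd rfl hβ
    | append_singleton u s ih =>
      intro hw hst β hβ
      rw [List.prod_append, List.prod_singleton, mul_lamp] at hβ
      by_cases h1 : u.prod.lamp β = 1
      · rw [h1, one_mul] at hβ
        have h2 := abs_le.mp (hD s (hw s (by simp)) _ hβ)
        have h3 := hst u [s] rfl
        rw [zero_add, hπ] at h3
        rw [ht_mul, ht_inv] at h2
        constructor
        · linarith [h2.1, h3.1]
        · linarith [h2.2, h3.2]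
      · exact ih hw.append_left hst.left β h1
  obtain ⟨β0, hβ0⟩ := hθ (Multiplicative.ofAdd (D + 1))
  obtain ⟨b0, hb0⟩ := hθ (Multiplicative.ofAdd (2 * D + 2))
  have hβ0' : ht θ β0 = D + 1 := by unfold ht; rw [hβ0]; rfl
  have hb0' : ht θ b0 = 2 * D + 2 := by unfold ht; rw [hb0]; rfl
  set τ : Wreath A B := lampEmb β0 a * posEmb b0 with hτ
  have hτlamp : ∀ β, τ.lamp β = (lampEmb β0 a).lamp β := by
    intro β; rw [hτ]; simp
  have hτpos : τ.pos = b0 := by rw [hτ]; simp
  refine growthRate_image_lt π φ S hS ?_ (ν := ν) ?_ hν2 (a := 2 * E + 1) ?_ (τ := τ)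
    (Y := {g | ∀ β, g.lamp β ≠ 1 → -D ≤ ht θ β}) ?_ ?_ ?_
  · obtain ⟨b, hb⟩ := hθ (Multiplicative.ofAdd 1)
    refine ⟨posEmb b, ?_⟩
    rw [hπ]
    unfold ht
    rw [posEmb_pos, hb]
    simp
  · rw [hπ, hν1, ht_one]
  · intro hcon
    have key : ∀ g ∈ NN π ν (2 * E + 1), g.pos = 1 ∧ ∀ β, g.lamp β ≠ 1 → E + 1 ≤ ht θ β := by
      intro g hg
      unfold NN at hg
      induction hg using Subgroup.closure_induction with
      | mem k hk =>
        obtain ⟨g, hg, rfl⟩ := hk
        refine ⟨by simp [hν1], ?_⟩
        intro β hβ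
        simp only [mul_lamp, mul_pos, inv_lamp, hν1, mul_one, mul_inv_cancel_left] at hβ
        have h1 : ν.lamp (g.pos⁻¹ * β) ≠ 1 := by
          intro h
          apply hβ
          rw [h]; simp
        have h2 := abs_le.mp (hE _ h1)
        rw [ht_mul, ht_inv, ← hπ] at h2
        linarith [h2.1]
      | one => exact ⟨rfl, fun β hβ => absurd rfl hβ⟩
      | mul x y _ _ ihx ihy =>
        refine ⟨by simp [ihx.1, ihy.1], fun β hβ => ?_⟩
        rw [mul_lamp, ihx.1, inv_one, one_mul] at hβ
        by_cases h : x.lamp β = 1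
        · rw [h, one_mul] at hβ; exact ihy.2 β hβ
        · exact ihx.2 β h
      | inv x _ ihx =>
        refine ⟨by simp [ihx.1], fun β hβ => ?_⟩
        rw [inv_lamp, ihx.1, one_mul] at hβ
        exact ihx.2 β (by simpa using hβ)
    have h1 := (key ν hcon).2 βν hβν
    have h2 := abs_le.mp (hE βν hβν)
    linarith [h2.2]
  · exact ⟨1, fun β hβ => absurd rfl hβ⟩
  · intro m w y hw hy β hβ
    rw [mul_lamp, mul_lamp, mul_pos, hτpos, hτlamp] at hβ
    have hpos : ht θ w.prod.pos = m := by rw [← hπ]; exact hw.2.2
    by_cases h1 : w.prod.lamp β = 1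
    · by_cases h2 : w.prod.pos⁻¹ * β = β0
      · have h3 : β = w.prod.pos * β0 := by rw [← h2]; group
        rw [h3, ht_mul, hpos, hβ0']
        have : (0 : ℤ) ≤ m := Nat.cast_nonneg m
        linarith
      · rw [h1, one_mul, lampEmb_lamp_ne h2, one_mul] at hβ
        have h3 := hy _ hβ
        rw [ht_mul, ht_inv, ht_mul, hpos, hb0'] at h3
        have : (0 : ℤ) ≤ m := Nat.cast_nonneg m
        linarith
    · exact (hsupp m w hw.1 hw.2.1 β h1).1
  · intro m w w' y y' hw hw' hy hy' heq
    have hpos : ht θ w.prod.pos = m := by rw [← hπ]; exact hw.2.2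
    have hpos' : ht θ w'.prod.pos = m := by rw [← hπ]; exact hw'.2.2
    have hlamps : ∀ β, w.prod.lamp β * (lampEmb β0 a).lamp (w.prod.pos⁻¹ * β) *
        y.lamp ((w.prod.pos * b0)⁻¹ * β) = w'.prod.lamp β *
        (lampEmb β0 a).lamp (w'.prod.pos⁻¹ * β) * y'.lamp ((w'.prod.pos * b0)⁻¹ * β) := by
      intro β
      have := congrArg (fun g => g.lamp β) heq
      simp only [mul_lamp, mul_pos, hτpos, hτlamp] at this
      exact this
    -- the tail is trivial at heights `≤ m + D + 1`
    have htail : ∀ (u : List (Wreath A B)) (z : Wreath A B), ht θ u.prod.pos = m →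
        (∀ β, z.lamp β ≠ 1 → -D ≤ ht θ β) → ∀ β, ht θ β ≤ m + D + 1 →
        z.lamp ((u.prod.pos * b0)⁻¹ * β) = 1 := by
      intro u z hu hz β hβ
      by_contra h
      have h3 := hz _ h
      rw [ht_mul, ht_inv, ht_mul, hu, hb0'] at h3
      linarith
    have hmark : ∀ (u : List (Wreath A B)), ht θ u.prod.pos = m → ∀ β, ht θ β ≠ m + D + 1 →
        (lampEmb β0 a).lamp (u.prod.pos⁻¹ * β) = 1 := by
      intro u hu β hβ
      apply lampEmb_lamp_ne
      intro h
      apply hβ
      have h3 : β = u.prod.pos * β0 := by rw [← h]; group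
      rw [h3, ht_mul, hu, hβ0']
      ring
    have hlamp_eq : w.prod.lamp = w'.prod.lamp := by
      funext β
      by_cases h1 : ht θ β ≤ m + D
      · have h2 := hlamps β
        rw [hmark w hpos β (by linarith), hmark w' hpos' β (by linarith),
          htail w y hpos hy β (by linarith), htail w' y' hpos' hy' β (by linarith)] at h2
        simpa using h2
      · have h2 : w.prod.lamp β = 1 := by
          by_contra h
          exact h1 (hsupp m w hw.1 hw.2.1 β h).2
        have h3 : w'.prod.lamp β = 1 := by
          by_contra h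
          exact h1 (hsupp m w' hw'.1 hw'.2.1 β h).2
        rw [h2, h3]
    have hpos_eq : w.prod.pos = w'.prod.pos := by
      have hβ1 : ht θ (w.prod.pos * β0) = m + D + 1 := by rw [ht_mul, hpos, hβ0']; ring
      have h2 := hlamps (w.prod.pos * β0)
      have h3 : ∀ v : List (Wreath A B), Br π (S : Set (Wreath A B)) m v →
          v.prod.lamp (w.prod.pos * β0) = 1 := by
        intro v hv
        by_contra h
        have := (hsupp m v hv.1 hv.2.1 _ h).2
        linarith
      rw [h3 w hw, h3 w' hw', htail w y hpos hy _ hβ1.le, htail w' y' hpos' hy' _ hβ1.le,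
        inv_mul_cancel_left, lampEmb_lamp_same] at h2
      simp only [one_mul, mul_one] at h2
      by_contra hne
      apply ha
      rw [h2]
      apply lampEmb_lamp_ne
      intro h4
      apply hne
      have h5 : w.prod.pos * β0 = w'.prod.pos * β0 := by
        rw [← mul_left_cancel_iff (a := w'.prod.pos⁻¹)]
        rw [h4]; group
      exact mul_right_cancel h5
    exact Wreath.ext hlamp_eq hpos_eq

end Wreath

end Pool.Agent.MinGrowth
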